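import Mathlib

/-!
# The Bombieri-Vinogradov theorem: definitions
-/

set_option autoImplicit false

open Finset

namespace Pool.BV

/-- `ψ(X, χ) = ∑_{n ≤ X} Λ(n) χ(n)`. -/
noncomputable def psi (X : ℕ) {q : ℕ} (χ : DirichletCharacter ℂ q) : ℂ :=
  ∑ n ∈ Icc 1 X, (ArithmeticFunction.vonMangoldt n : ℂ) * χ n

open scoped Classical in
/-- The primitive characters modulo `q`. -/
noncomputable def prim (q : ℕ) : Finset (DirichletCharacter ℂ q) :=
  univ.filter fun χ => χ.IsPrimitive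

open scoped Classical in
/-- The nonprincipal characters modulo `q`. -/
noncomputable def nonpr (q : ℕ) : Finset (DirichletCharacter ℂ q) :=
  univ.filter fun χ => χ ≠ 1

/-- `∑_{md = t, m ≤ U, d ≤ U} Λ(m) μ(d)`. -/
noncomputable def c1 (U t : ℕ) : ℝ :=
  ∑ z ∈ t.divisorsAntidiagonal.filter (fun z => z.1 ≤ U ∧ z.2 ≤ U),
    ArithmeticFunction.vonMangoldt z.1 * ((ArithmeticFunction.moebius z.2 : ℤ) : ℝ)

/-- `- ∑_{d ∣ k, d ≤ U} μ(d)`. -/
noncomputable def c2 (U k : ℕ) : ℝ :=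
  -∑ d ∈ k.divisors.filter (fun d => d ≤ U), ((ArithmeticFunction.moebius d : ℤ) : ℝ)

/-- `E(y; q, a) = ∑_{n ≤ y, n ≡ a (q)} Λ(n) - y / φ(q)`. -/
noncomputable def Er (y q a : ℕ) : ℝ :=
  ∑ n ∈ (Icc 1 y).filter (fun n => n ≡ a [MOD q]), ArithmeticFunction.vonMangoldt n -
    y / (Nat.totient q : ℝ)

/-- The same for primes weighted by `log p`. -/
noncomputable def Et (y q a : ℕ) : ℝ :=
  ∑ p ∈ (Icc 1 y).filter (fun n => n.Prime ∧ n ≡ a [MOD q]), Real.log p -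
    y / (Nat.totient q : ℝ)

/-- `π(y; q, a) - π(y) / φ(q)`. -/
noncomputable def Ep (y q a : ℕ) : ℝ :=
  (((Icc 1 y).filter (fun n => n.Prime ∧ n ≡ a [MOD q])).card : ℝ) -
    (((Icc 1 y).filter (fun n => n.Prime)).card : ℝ) / (Nat.totient q : ℝ)

theorem mem_prim {q : ℕ} (χ : DirichletCharacter ℂ q) : χ ∈ prim q ↔ χ.IsPrimitive := by
  simp [prim]

theorem mem_nonpr {q : ℕ} (χ : DirichletCharacter ℂ q) : χ ∈ nonpr q ↔ χ ≠ 1 := by
  simp [nonpr]

end Pool.BV
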