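import Mathlib
import Pool.Agent.Lib.BV.Defs

/-! BV-11: induced characters. -/

set_option autoImplicit false

open Finset

namespace Pool.BV

private theorem Induce_omega (k : ℕ) (hk : 1 ≤ k) :
    (k.primeFactors.card : ℝ) ≤ 2 * Real.log k := by
  have h1 : 2 ^ k.primeFactors.card ≤ k := by
    calc 2 ^ k.primeFactors.card ≤ ∏ p ∈ k.primeFactors, p := by
          rw [← prod_const]
          apply prod_le_prod'
          intro p hp
          exact (Nat.prime_of_mem_primeFactors hp).two_le
      _ ≤ k := Nat.le_of_dvd (by omega) (Nat.prod_primeFactors_dvd k)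
  have h2 : ((2 : ℝ) ^ k.primeFactors.card) ≤ k := by exact_mod_cast h1
  have h3 := Real.log_le_log (by positivity) h2
  rw [Real.log_pow] at h3
  have h4 := Real.log_two_gt_d9
  have h5 : (0 : ℝ) ≤ k.primeFactors.card := Nat.cast_nonneg _
  nlinarith

private theorem Induce_noncoprime (X q : ℕ) (hX : 1 ≤ X) (hq : 1 ≤ q) :
    ∑ n ∈ (Icc 1 X).filter (fun n => ¬ n.Coprime q), ArithmeticFunction.vonMangoldt n ≤
      2 * Real.log X * Real.log q := by
  classical
  set S := (Icc 1 X).filter (fun n => ¬ n.Coprime q) with hS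
  have hlX : 0 ≤ Real.log X := Real.log_natCast_nonneg X
  have h1 : ∀ n ∈ S, ArithmeticFunction.vonMangoldt n ≤
      ∑ p ∈ q.primeFactors, ∑ k ∈ Icc 1 (Nat.log p X),
        if n = p ^ k then ArithmeticFunction.vonMangoldt (p ^ k) else 0 := by
    intro n hn
    rw [hS, mem_filter, mem_Icc] at hn
    have hterm : ∀ p k : ℕ, 0 ≤ (if n = p ^ k then ArithmeticFunction.vonMangoldt (p ^ k)
        else (0 : ℝ)) := by
      intro p k
      split_ifs
      · exact ArithmeticFunction.vonMangoldt_nonneg
      · exact le_rfl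
    by_cases h0 : ArithmeticFunction.vonMangoldt n = 0
    · rw [h0]
      exact sum_nonneg fun p _ => sum_nonneg fun k _ => hterm p k
    · rw [← ne_eq, ArithmeticFunction.vonMangoldt_ne_zero_iff, isPrimePow_nat_iff] at h0
      obtain ⟨p, k, hp, hk, rfl⟩ := h0
      have hpq : p ∣ q := by
        by_contra hcon
        exact hn.2 (Nat.Coprime.pow_left k ((Nat.Prime.coprime_iff_not_dvd hp).mpr hcon))
      have hpm : p ∈ q.primeFactors := Nat.mem_primeFactors.mpr ⟨hp, hpq, by omega⟩
      have hkm : k ∈ Icc 1 (Nat.log p X) := by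
        rw [mem_Icc]
        exact ⟨hk, (Nat.le_log_iff_pow_le hp.one_lt (by omega)).mpr hn.1.2⟩
      calc ArithmeticFunction.vonMangoldt (p ^ k) =
          (if p ^ k = p ^ k then ArithmeticFunction.vonMangoldt (p ^ k) else 0) := by simp
        _ ≤ ∑ k' ∈ Icc 1 (Nat.log p X),
            (if p ^ k = p ^ k' then ArithmeticFunction.vonMangoldt (p ^ k') else 0) :=
            single_le_sum (f := fun k' => if p ^ k = p ^ k' then
              ArithmeticFunction.vonMangoldt (p ^ k') else (0 : ℝ)) (fun k' _ => hterm p k') hkm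
        _ ≤ _ := single_le_sum (f := fun p' => ∑ k' ∈ Icc 1 (Nat.log p' X),
            if p ^ k = p' ^ k' then ArithmeticFunction.vonMangoldt (p' ^ k') else (0 : ℝ))
            (fun p' _ => sum_nonneg fun k' _ => hterm p' k') hpm
  calc ∑ n ∈ S, ArithmeticFunction.vonMangoldt n ≤
      ∑ n ∈ S, ∑ p ∈ q.primeFactors, ∑ k ∈ Icc 1 (Nat.log p X),
        (if n = p ^ k then ArithmeticFunction.vonMangoldt (p ^ k) else 0) := sum_le_sum h1
    _ = ∑ p ∈ q.primeFactors, ∑ k ∈ Icc 1 (Nat.log p X), ∑ n ∈ S,
        (if n = p ^ k then ArithmeticFunction.vonMangoldt (p ^ k) else 0) := by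
        rw [sum_comm]
        apply sum_congr rfl
        intro p _
        rw [sum_comm]
    _ ≤ ∑ p ∈ q.primeFactors, Real.log X := by
        apply sum_le_sum
        intro p hp
        have hpp := Nat.prime_of_mem_primeFactors hp
        calc _ ≤ ∑ k ∈ Icc 1 (Nat.log p X), Real.log p := by
              apply sum_le_sum
              intro k hk
              rw [mem_Icc] at hk
              rw [sum_ite_eq']
              have hv : ArithmeticFunction.vonMangoldt (p ^ k) = Real.log p := by
                rw [ArithmeticFunction.vonMangoldt_apply_pow (by omega),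
                  ArithmeticFunction.vonMangoldt_apply_prime hpp]
              split_ifs
              · rw [hv]
              · exact Real.log_natCast_nonneg p
          _ = (Nat.log p X : ℝ) * Real.log p := by
              rw [sum_const, nsmul_eq_mul, Nat.card_Icc]
              simp
          _ ≤ Real.log X := by
              rw [← Real.log_pow]
              apply Real.log_le_log
              · have := hpp.pos
                positivity
              · exact_mod_cast Nat.pow_log_le_self p (by omega)
    _ = (q.primeFactors.card : ℝ) * Real.log X := by rw [sum_const, nsmul_eq_mul]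
    _ ≤ (2 * Real.log q) * Real.log X :=
        mul_le_mul_of_nonneg_right (Induce_omega q hq) hlX
    _ = _ := by ring

/-- `ψ(X,χ)` and `ψ(X,χ*)` differ by little. -/
theorem psi_induced (X q : ℕ) (hX : 1 ≤ X) (hq : 1 ≤ q) (χ : DirichletCharacter ℂ q) :
    ‖psi X χ - psi X χ.primitiveCharacter‖ ≤ 2 * Real.log X * Real.log q := by
  classical
  have : NeZero q := ⟨by omega⟩
  refine le_trans ?_ (Induce_noncoprime X q hX hq)
  unfold psi
  rw [← sum_sub_distrib]
  have h1 : ∑ n ∈ Icc 1 X, ((ArithmeticFunction.vonMangoldt n : ℂ) * χ n -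
      (ArithmeticFunction.vonMangoldt n : ℂ) * χ.primitiveCharacter n) =
      ∑ n ∈ (Icc 1 X).filter (fun n => ¬ n.Coprime q), ((ArithmeticFunction.vonMangoldt n : ℂ) * χ n -
      (ArithmeticFunction.vonMangoldt n : ℂ) * χ.primitiveCharacter n) := by
    symm
    apply sum_subset (filter_subset _ _)
    intro n hn hn2
    rw [mem_filter, not_and, not_not] at hn2
    have hc := hn2 hn
    have h2 : IsCoprime (n : ℤ) (q : ℤ) := Nat.isCoprime_iff_coprime.mpr hc
    have h3 := DirichletCharacter.primitiveCharacter_apply_of_isCoprime χ h2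
    push_cast at h3
    rw [h3, sub_self]
  rw [h1]
  refine (norm_sum_le _ _).trans ?_
  apply sum_le_sum
  intro n hn
  rw [mem_filter] at hn
  have h2 : χ n = 0 := by
    apply MulChar.map_nonunit
    rw [ZMod.isUnit_iff_coprime]
    exact hn.2
  rw [h2, mul_zero, zero_sub, norm_neg, norm_mul, Complex.norm_real,
    Real.norm_of_nonneg ArithmeticFunction.vonMangoldt_nonneg]
  exact mul_le_of_le_one_right ArithmeticFunction.vonMangoldt_nonneg
    (DirichletCharacter.norm_le_one _ _)

/-- Sorting the nonprincipal characters mod `q` by their conductor. -/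
theorem sort_cond (q : ℕ) (hq : 1 ≤ q) (f : ∀ r : ℕ, DirichletCharacter ℂ r → ℝ)
    (hf : ∀ r χ, 0 ≤ f r χ) :
    ∑ χ ∈ nonpr q, f χ.conductor χ.primitiveCharacter ≤
      ∑ r ∈ q.divisors.filter (fun r => 2 ≤ r), ∑ χ ∈ prim r, f r χ := by
  classical
  have : NeZero q := ⟨by omega⟩
  set i : DirichletCharacter ℂ q → (Σ r : ℕ, DirichletCharacter ℂ r) :=
    fun χ => ⟨χ.conductor, χ.primitiveCharacter⟩ with hi
  set F : (Σ r : ℕ, DirichletCharacter ℂ r) → DirichletCharacter ℂ q := fun x =>
    if h : x.1 ∣ q then DirichletCharacter.changeLevel h x.2 else 1 with hF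
  have hFi : ∀ χ, F (i χ) = χ := by
    intro χ
    simp only [hF, hi]
    rw [dif_pos χ.conductor_dvd_level]
    exact χ.changeLevel_primitiveCharacter
  have hinj : Function.Injective i := fun a b h => by rw [← hFi a, ← hFi b, h]
  rw [Finset.sum_sigma']
  have h1 : ∑ χ ∈ nonpr q, f χ.conductor χ.primitiveCharacter =
      ∑ x ∈ (nonpr q).image i, f x.1 x.2 := by
    rw [sum_image (fun _ _ _ _ h => hinj h)]
  rw [h1]
  apply sum_le_sum_of_subset_of_nonneg
  · intro x hx
    rw [mem_image] at hx
    obtain ⟨χ, hχ, rfl⟩ := hx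
    rw [mem_nonpr] at hχ
    rw [mem_sigma, mem_filter, Nat.mem_divisors, mem_prim]
    refine ⟨⟨⟨χ.conductor_dvd_level, by omega⟩, ?_⟩, χ.primitiveCharacter_isPrimitive⟩
    have h2 : χ.conductor ≠ 0 := χ.conductor_ne_zero
    have h3 : χ.conductor ≠ 1 := fun h =>
      hχ (DirichletCharacter.eq_one_iff_conductor_eq_one.mpr h)
    show 2 ≤ χ.conductor
    omega
  · intro x _ _
    exact hf _ _

end Pool.BV
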