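import Mathlib
import Pool.Agent.Lib.BV.Induce

/-! BV-13: expansion into characters. -/

set_option autoImplicit false

open Finset

namespace Pool.BV

private theorem Expand_psi_one (X q : ℕ) (hq : 1 ≤ q) :
    psi X (1 : DirichletCharacter ℂ q).primitiveCharacter =
      ((∑ n ∈ Icc 1 X, ArithmeticFunction.vonMangoldt n : ℝ) : ℂ) := by
  have : NeZero q := ⟨by omega⟩
  unfold psi
  rw [DirichletCharacter.primitiveCharacter_one]
  push_cast
  apply sum_congr rfl
  intro n _
  have h1 : IsUnit ((n : ℕ) : ZMod (DirichletCharacter.conductor (1 : DirichletCharacter ℂ q))) := by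
    rw [ZMod.isUnit_iff_coprime, DirichletCharacter.conductor_one]
    exact Nat.coprime_one_right n
  rw [MulChar.one_apply h1, mul_one]

theorem expand (X q a : ℕ) (hX : 3 ≤ X) (hq : 1 ≤ q) (hqX : q ≤ X) (ha : a.Coprime q) :
    |Er X q a| ≤ (1 / (Nat.totient q : ℝ)) *
        (|∑ n ∈ Icc 1 X, ArithmeticFunction.vonMangoldt n - X| +
          ∑ χ ∈ nonpr q, ‖psi X χ.primitiveCharacter‖) + 4 * Real.log X ^ 2 := by
  classical
  have : NeZero q := ⟨by omega⟩
  have hφ : (0 : ℝ) < Nat.totient q := by exact_mod_cast Nat.totient_pos.mpr hq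
  have hlX : 0 ≤ Real.log X := Real.log_natCast_nonneg X
  have hlq : 0 ≤ Real.log q := Real.log_natCast_nonneg q
  have hlqX : Real.log q ≤ Real.log X :=
    Real.log_le_log (by exact_mod_cast hq) (by exact_mod_cast hqX)
  have hau : IsUnit (a : ZMod q) := (ZMod.isUnit_iff_coprime a q).mpr ha
  set E := 2 * Real.log X * Real.log q with hE
  have hE0 : 0 ≤ E := by positivity
  set P : ℝ := ∑ n ∈ Icc 1 X, ArithmeticFunction.vonMangoldt n with hP
  -- orthogonality
  have h1 : (Nat.totient q : ℂ) * ((∑ n ∈ (Icc 1 X).filter (fun n => n ≡ a [MOD q]),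
      ArithmeticFunction.vonMangoldt n : ℝ) : ℂ) =
      ∑ χ : DirichletCharacter ℂ q, χ (a : ZMod q)⁻¹ * psi X χ := by
    have e1 : ∀ χ : DirichletCharacter ℂ q, χ (a : ZMod q)⁻¹ * psi X χ =
        ∑ n ∈ Icc 1 X, (ArithmeticFunction.vonMangoldt n : ℂ) * (χ (a : ZMod q)⁻¹ * χ n) := by
      intro χ
      unfold psi
      rw [mul_sum]
      apply sum_congr rfl
      intro n _
      ring
    simp_rw [e1]
    rw [sum_comm]
    have e2 : ∀ n ∈ Icc 1 X, ∑ χ : DirichletCharacter ℂ q,
        (ArithmeticFunction.vonMangoldt n : ℂ) * (χ (a : ZMod q)⁻¹ * χ n) =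
        if n ≡ a [MOD q] then (Nat.totient q : ℂ) * (ArithmeticFunction.vonMangoldt n : ℂ) else 0 := by
      intro n _
      rw [← mul_sum, DirichletCharacter.sum_char_inv_mul_char_eq ℂ hau]
      by_cases hna : n ≡ a [MOD q]
      · rw [if_pos hna, if_pos ((ZMod.natCast_eq_natCast_iff a n q).mpr hna.symm)]
        ring
      · rw [if_neg hna, if_neg (fun h => hna ((ZMod.natCast_eq_natCast_iff a n q).mp h).symm),
          mul_zero]
    rw [sum_congr rfl e2, ← sum_filter, ← mul_sum]
    push_cast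
    rfl
  -- split off the principal character
  have h2 : ∑ χ : DirichletCharacter ℂ q, χ (a : ZMod q)⁻¹ * psi X χ =
      psi X (1 : DirichletCharacter ℂ q) + ∑ χ ∈ nonpr q, χ (a : ZMod q)⁻¹ * psi X χ := by
    have e1 : (nonpr q) = univ.erase (1 : DirichletCharacter ℂ q) := by
      ext χ
      rw [mem_nonpr, mem_erase]
      simp
    rw [e1, ← add_sum_erase univ _ (mem_univ (1 : DirichletCharacter ℂ q))]
    have e2 : IsUnit ((a : ZMod q)⁻¹) := by
      obtain ⟨u, hu⟩ := hau
      rw [← hu, ZMod.inv_coe_unit]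
      exact u⁻¹.isUnit
    rw [MulChar.one_apply e2, one_mul]
  have h3 : (Nat.totient q : ℝ) * |Er X q a| ≤ |P - X| + E +
      ∑ χ ∈ nonpr q, (‖psi X χ.primitiveCharacter‖ + E) := by
    have e0 : (Nat.totient q : ℝ) * |Er X q a| = ‖(psi X (1 : DirichletCharacter ℂ q) - X) +
        ∑ χ ∈ nonpr q, χ (a : ZMod q)⁻¹ * psi X χ‖ := by
      have e1 : (psi X (1 : DirichletCharacter ℂ q) - X) +
          ∑ χ ∈ nonpr q, χ (a : ZMod q)⁻¹ * psi X χ =
          (((Nat.totient q : ℝ) * Er X q a : ℝ) : ℂ) := by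
        have e2 := h1.trans h2
        unfold Er
        rw [mul_sub, mul_div_cancel₀ _ hφ.ne']
        push_cast
        push_cast at e2
        rw [e2]
        ring
      rw [e1, Complex.norm_real, Real.norm_eq_abs, abs_mul, abs_of_pos hφ]
    rw [e0]
    refine (norm_add_le _ _).trans ?_
    apply add_le_add
    · have e1 := psi_induced X q (by omega) hq (1 : DirichletCharacter ℂ q)
      rw [Expand_psi_one X q hq] at e1
      have e2 : psi X (1 : DirichletCharacter ℂ q) - X =
          ((P - X : ℝ) : ℂ) + (psi X (1 : DirichletCharacter ℂ q) - (P : ℂ)) := by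
        push_cast
        ring
      rw [e2]
      refine (norm_add_le _ _).trans ?_
      rw [Complex.norm_real, Real.norm_eq_abs]
      exact add_le_add le_rfl e1
    · refine (norm_sum_le _ _).trans ?_
      apply sum_le_sum
      intro χ _
      rw [norm_mul]
      have e1 := psi_induced X q (by omega) hq χ
      have e2 : ‖psi X χ‖ ≤ ‖psi X χ.primitiveCharacter‖ + E := by
        calc ‖psi X χ‖ = ‖psi X χ.primitiveCharacter + (psi X χ - psi X χ.primitiveCharacter)‖ := by
              congr 1; ring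
          _ ≤ _ := (norm_add_le _ _).trans (add_le_add le_rfl e1)
      calc ‖χ (a : ZMod q)⁻¹‖ * ‖psi X χ‖ ≤ 1 * ‖psi X χ‖ :=
            mul_le_mul_of_nonneg_right (DirichletCharacter.norm_le_one _ _) (norm_nonneg _)
        _ = ‖psi X χ‖ := one_mul _
        _ ≤ _ := e2
  have hcard : ((nonpr q).card : ℝ) + 1 ≤ Nat.totient q := by
    have e1 : (nonpr q).card + 1 = Nat.totient q := by
      have e2 : (nonpr q) = univ.erase (1 : DirichletCharacter ℂ q) := by
        ext χ
        rw [mem_nonpr, mem_erase]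
        simp
      rw [e2, card_erase_add_one (mem_univ _), card_univ, ← Nat.card_eq_fintype_card]
      exact DirichletCharacter.card_eq_totient_of_hasEnoughRootsOfUnity ℂ q
    exact_mod_cast e1.le
  rw [sum_add_distrib, sum_const, nsmul_eq_mul] at h3
  have h4 : (Nat.totient q : ℝ) * |Er X q a| ≤
      (|P - X| + ∑ χ ∈ nonpr q, ‖psi X χ.primitiveCharacter‖) + (Nat.totient q : ℝ) * E := by
    have := mul_le_mul_of_nonneg_right hcard hE0
    linarith
  have h5 : |Er X q a| ≤ (1 / (Nat.totient q : ℝ)) *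
      (|P - X| + ∑ χ ∈ nonpr q, ‖psi X χ.primitiveCharacter‖) + E := by
    have e1 : |Er X q a| = (1 / (Nat.totient q : ℝ)) * ((Nat.totient q : ℝ) * |Er X q a|) := by
      field_simp
    rw [e1]
    calc _ ≤ (1 / (Nat.totient q : ℝ)) * ((|P - X| +
          ∑ χ ∈ nonpr q, ‖psi X χ.primitiveCharacter‖) + (Nat.totient q : ℝ) * E) :=
          mul_le_mul_of_nonneg_left h4 (by positivity)
      _ = _ := by field_simp
  have h6 : E ≤ 4 * Real.log X ^ 2 := by
    rw [hE]
    nlinarith [mul_le_mul_of_nonneg_left hlqX hlX]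
  linarith

end Pool.BV
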