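import Mathlib
import Pool.Agent.Lib.BV.Defs

/-! BV-01: primitive characters and Gauss sums. -/

set_option autoImplicit false

open Finset

namespace Pool.BV

open ZMod in
private theorem Gauss_norm (q : ℕ) [NeZero q] (χ : DirichletCharacter ℂ q) (hχ : χ.IsPrimitive) :
    ‖gaussSum χ⁻¹ (stdAddChar (N := q))‖ ^ 2 = q := by
  have hχi : (χ⁻¹).IsPrimitive := by
    rw [DirichletCharacter.isPrimitive_def, DirichletCharacter.conductor_inv]
    exact hχ
  set ψ := stdAddChar (N := q) with hψ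
  have h1 : 𝓕 (𝓕 (χ : ZMod q → ℂ)) (-1) = q := by
    rw [dft_dft]
    simp
  have h2 : (𝓕 (χ : ZMod q → ℂ)) = fun k => χ⁻¹ (-k) * gaussSum χ ψ := by
    funext k
    rw [hχ.fourierTransform_eq_inv_mul_gaussSum k]
  have h3 : 𝓕 (fun k => χ⁻¹ (-k) * gaussSum χ ψ) (-1) =
      χ (-1) * gaussSum χ⁻¹ ψ * gaussSum χ ψ := by
    rw [dft_mul_const (fun k => χ⁻¹ (-k)) (gaussSum χ ψ),
      dft_comp_neg (⇑(χ⁻¹))]
    simp only [neg_neg]
    rw [hχi.fourierTransform_eq_inv_mul_gaussSum 1, inv_inv]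
  rw [h2, h3] at h1
  have h4 : star (gaussSum χ⁻¹ ψ) = χ (-1) * gaussSum χ ψ := by
    rw [star_gaussSum_eq, inv_inv]
    have h5 : ψ⁻¹ = ψ.mulShift (-1) := by
      ext x
      rw [AddChar.inv_apply, AddChar.mulShift_apply, neg_one_mul]
    rw [h5, gaussSum_mulShift_of_isPrimitive _ hχ]
    congr 1
    have h6 : χ (-1) * χ (-1) = 1 := by
      rw [← map_mul]
      simp
    rw [MulChar.inv_apply_eq_inv']
    have h7 : χ (-1) ≠ 0 := left_ne_zero_of_mul_eq_one h6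
    field_simp
    rw [sq, h6]
  have h8 : ((‖gaussSum χ⁻¹ ψ‖ ^ 2 : ℝ) : ℂ) = (q : ℂ) := by
    have h9 := Complex.mul_conj' (gaussSum χ⁻¹ ψ)
    rw [starRingEnd_apply, h4] at h9
    push_cast
    rw [← h9, ← h1]
    ring
  exact_mod_cast h8

/-- For a primitive character: `χ(n) τ = ∑_a χ⁻¹(a) e(an/q)`, `|τ|² = q`. -/
theorem gauss_prim (q : ℕ) (hq : 1 ≤ q) (χ : DirichletCharacter ℂ q) (hχ : χ.IsPrimitive) :
    ∃ τ : ℂ, ‖τ‖ ^ 2 = q ∧ ∀ n : ℕ, χ n * τ =
      ∑ a ∈ (range q).filter (fun a => a.Coprime q),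
        χ⁻¹ a * Complex.exp (2 * Real.pi * ((n : ℝ) * ((a : ℝ) / q) : ℝ) * Complex.I) := by
  have : NeZero q := ⟨by omega⟩
  have hχi : (χ⁻¹).IsPrimitive := by
    rw [DirichletCharacter.isPrimitive_def, DirichletCharacter.conductor_inv]
    exact hχ
  refine ⟨gaussSum χ⁻¹ (ZMod.stdAddChar (N := q)), Gauss_norm q χ hχ, fun n => ?_⟩
  have h1 := hχi.fourierTransform_eq_inv_mul_gaussSum (-(n : ZMod q))
  rw [neg_neg, inv_inv] at h1
  rw [← h1, ZMod.dft_apply]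
  have h2 : ∀ j : ZMod q, ZMod.stdAddChar (-(j * -(n : ZMod q))) • (⇑(χ⁻¹)) j =
      χ⁻¹ ((j.val : ℕ) : ZMod q) *
        Complex.exp (2 * Real.pi * ((n : ℝ) * ((j.val : ℝ) / q) : ℝ) * Complex.I) := by
    intro j
    have h3 : -(j * -(n : ZMod q)) = (((j.val * n : ℕ) : ℤ) : ZMod q) := by
      push_cast
      rw [ZMod.natCast_zmod_val]
      ring
    rw [h3, ZMod.stdAddChar_coe, smul_eq_mul, ZMod.natCast_zmod_val, mul_comm]
    congr 2
    push_cast
    ring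
  simp_rw [h2]
  have h4 : ∑ j : ZMod q, χ⁻¹ ((j.val : ℕ) : ZMod q) *
        Complex.exp (2 * Real.pi * ((n : ℝ) * ((j.val : ℝ) / q) : ℝ) * Complex.I) =
      ∑ a ∈ range q, χ⁻¹ (a : ZMod q) *
        Complex.exp (2 * Real.pi * ((n : ℝ) * ((a : ℝ) / q) : ℝ) * Complex.I) := by
    apply Finset.sum_bij (fun (j : ZMod q) _ => j.val)
    · intro j _
      exact mem_range.mpr (ZMod.val_lt j)
    · intro j _ k _ h
      exact ZMod.val_injective q h
    · intro a ha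
      exact ⟨(a : ZMod q), mem_univ _, ZMod.val_cast_of_lt (mem_range.mp ha)⟩
    · intro j _
      rfl
  rw [h4]
  symm
  apply Finset.sum_subset (filter_subset _ _)
  intro a _ ha2
  rw [mem_filter, not_and] at ha2
  have h5 : ¬ a.Coprime q := ha2 ‹_›
  have h6 : χ⁻¹ (a : ZMod q) = 0 := by
    apply MulChar.map_nonunit
    rw [ZMod.isUnit_iff_coprime]
    exact h5
  rw [h6, zero_mul]

end Pool.BV
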