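import Mathlib
import Pool.Agent.Lib.BV.Gauss
import Pool.Agent.Lib.BV.LSieve

/-! BV-02: the large sieve inequality for characters. -/

set_option autoImplicit false

open Finset

namespace Pool.BV

private theorem lsc_conj {q : ℕ} [NeZero q] (χ : DirichletCharacter ℂ q) (a : ZMod q)
    (ha : IsUnit a) : (starRingEnd ℂ) (χ a) = χ a⁻¹ := by
  have h1 : ‖χ a‖ = 1 := by
    obtain ⟨u, rfl⟩ := ha
    exact DirichletCharacter.unit_norm_eq_one χ u
  have h2 : χ a * χ a⁻¹ = 1 := by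
    rw [← map_mul, ZMod.mul_inv_of_unit a ha, map_one]
  rw [← Complex.inv_eq_conj h1]
  exact inv_eq_of_mul_eq_one_right h2

/-- orthogonality -/
private theorem lsc_orth (q : ℕ) (hq : 1 ≤ q) (S : ℕ → ℂ) :
    ∑ χ : DirichletCharacter ℂ q, ‖∑ b ∈ (range q).filter (fun b => b.Coprime q), χ b * S b‖ ^ 2 =
      Nat.totient q * ∑ b ∈ (range q).filter (fun b => b.Coprime q), ‖S b‖ ^ 2 := by
  have : NeZero q := ⟨by omega⟩
  obtain ⟨B, hB⟩ : ∃ B : Finset ℕ, B = (range q).filter (fun b => b.Coprime q) := ⟨_, rfl⟩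
  rw [← hB]
  have hBm : ∀ b ∈ B, b < q ∧ b.Coprime q := fun b hb => by
    rw [hB, mem_filter, mem_range] at hb
    exact hb
  have hunit : ∀ b ∈ B, IsUnit (b : ZMod q) := fun b hb =>
    (ZMod.isUnit_iff_coprime b q).2 (hBm b hb).2
  have hinj : ∀ b ∈ B, ∀ b' ∈ B, ((b' : ZMod q) = b ↔ b' = b) := by
    intro b hb b' hb'
    constructor
    · intro h
      rw [ZMod.natCast_eq_natCast_iff'] at h
      rw [Nat.mod_eq_of_lt (hBm b hb).1, Nat.mod_eq_of_lt (hBm b' hb').1] at h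
      exact h
    · rintro rfl
      rfl
  have key : ((∑ χ : DirichletCharacter ℂ q, ‖∑ b ∈ B, χ b * S b‖ ^ 2 : ℝ) : ℂ) =
      ((Nat.totient q * ∑ b ∈ B, ‖S b‖ ^ 2 : ℝ) : ℂ) := by
    have h1 : ∀ χ : DirichletCharacter ℂ q, ((‖∑ b ∈ B, χ b * S b‖ ^ 2 : ℝ) : ℂ) =
        ∑ b ∈ B, ∑ b' ∈ B, (S b * (starRingEnd ℂ) (S b')) * (χ (b' : ZMod q)⁻¹ * χ b) := by
      intro χ
      rw [Complex.ofReal_pow, ← Complex.mul_conj', map_sum, Finset.sum_mul_sum]
      refine Finset.sum_congr rfl fun b hb => Finset.sum_congr rfl fun b' hb' => ?_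
      rw [map_mul, lsc_conj χ _ (hunit b' hb')]
      ring
    push_cast
    have h1' : ∀ χ : DirichletCharacter ℂ q, ((‖∑ b ∈ B, χ b * S b‖ : ℝ) : ℂ) ^ 2 =
        ∑ b ∈ B, ∑ b' ∈ B, (S b * (starRingEnd ℂ) (S b')) * (χ (b' : ZMod q)⁻¹ * χ b) := by
      intro χ
      rw [← h1 χ]
      push_cast
      rfl
    rw [Finset.sum_congr rfl fun χ _ => h1' χ, Finset.sum_comm, Finset.mul_sum]
    refine Finset.sum_congr rfl fun b hb => ?_
    rw [Finset.sum_comm]
    have h2 : ∀ b' ∈ B, ∑ χ : DirichletCharacter ℂ q,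
        (S b * (starRingEnd ℂ) (S b')) * (χ (b' : ZMod q)⁻¹ * χ b) =
        if b' = b then (Nat.totient q : ℂ) * (S b * (starRingEnd ℂ) (S b)) else 0 := by
      intro b' hb'
      rw [← Finset.mul_sum, DirichletCharacter.sum_char_inv_mul_char_eq ℂ (hunit b' hb')]
      by_cases h : b' = b
      · rw [if_pos ((hinj b hb b' hb').2 h), if_pos h, h]
        ring
      · rw [if_neg (fun h' => h ((hinj b hb b' hb').1 h')), if_neg h, mul_zero]
    rw [Finset.sum_congr rfl h2, Finset.sum_ite_eq' B b, if_pos hb, Complex.mul_conj']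
  exact_mod_cast key

/-- One modulus: all characters. -/
theorem ls_modulus (q N : ℕ) (hq : 1 ≤ q) (a : ℕ → ℂ) :
    (q : ℝ) / Nat.totient q * ∑ χ ∈ prim q, ‖∑ n ∈ Icc 1 N, a n * χ n‖ ^ 2 ≤
      ∑ b ∈ (range q).filter (fun b => b.Coprime q),
        ‖∑ n ∈ Icc 1 N, a n *
          Complex.exp (2 * Real.pi * ((n : ℝ) * ((b : ℝ) / q) : ℝ) * Complex.I)‖ ^ 2 := by
  have : NeZero q := ⟨by omega⟩
  obtain ⟨S, hS⟩ : ∃ S : ℕ → ℂ, S = fun b : ℕ => ∑ n ∈ Icc 1 N, a n *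
    Complex.exp (2 * Real.pi * ((n : ℝ) * ((b : ℝ) / q) : ℝ) * Complex.I) := ⟨_, rfl⟩
  have hφ : (0 : ℝ) < Nat.totient q := by exact_mod_cast Nat.totient_pos.2 hq
  have h1 : ∀ χ ∈ prim q, (q : ℝ) * ‖∑ n ∈ Icc 1 N, a n * χ n‖ ^ 2 =
      ‖∑ b ∈ (range q).filter (fun b => b.Coprime q), χ⁻¹ b * S b‖ ^ 2 := by
    intro χ hχ
    obtain ⟨τ, hτ, h⟩ := gauss_prim q hq χ ((mem_prim χ).1 hχ)
    have h2 : (∑ n ∈ Icc 1 N, a n * χ n) * τ =
        ∑ b ∈ (range q).filter (fun b => b.Coprime q), χ⁻¹ b * S b := by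
      rw [Finset.sum_mul]
      calc ∑ n ∈ Icc 1 N, a n * χ n * τ = ∑ n ∈ Icc 1 N, ∑ b ∈ (range q).filter
            (fun b => b.Coprime q), a n * (χ⁻¹ b *
              Complex.exp (2 * Real.pi * ((n : ℝ) * ((b : ℝ) / q) : ℝ) * Complex.I)) := by
            refine Finset.sum_congr rfl fun n _ => ?_
            rw [mul_assoc, h n, Finset.mul_sum]
        _ = _ := by
            rw [Finset.sum_comm]
            refine Finset.sum_congr rfl fun b _ => ?_
            rw [hS]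
            simp only
            rw [Finset.mul_sum]
            refine Finset.sum_congr rfl fun n _ => ?_
            ring
    rw [← h2, norm_mul, mul_pow, hτ]
    ring
  have h3 : ∑ χ ∈ prim q, (q : ℝ) * ‖∑ n ∈ Icc 1 N, a n * χ n‖ ^ 2 ≤
      Nat.totient q * ∑ b ∈ (range q).filter (fun b => b.Coprime q), ‖S b‖ ^ 2 := by
    rw [Finset.sum_congr rfl h1, ← lsc_orth q hq S]
    calc ∑ χ ∈ prim q, ‖∑ b ∈ (range q).filter (fun b => b.Coprime q), χ⁻¹ b * S b‖ ^ 2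
        ≤ ∑ χ : DirichletCharacter ℂ q,
          ‖∑ b ∈ (range q).filter (fun b => b.Coprime q), χ⁻¹ b * S b‖ ^ 2 :=
          Finset.sum_le_sum_of_subset_of_nonneg (Finset.subset_univ _)
            (fun _ _ _ => by positivity)
      _ = _ := Equiv.sum_comp (Equiv.inv (DirichletCharacter ℂ q)) (fun χ =>
            ‖∑ b ∈ (range q).filter (fun b => b.Coprime q), χ b * S b‖ ^ 2)
  rw [← Finset.mul_sum] at h3
  rw [div_mul_eq_mul_div, div_le_iff₀ hφ, mul_comm _ (Nat.totient q : ℝ)]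
  rw [hS] at h3
  exact h3

/-- spacing of the Farey fractions modulo one -/
private theorem lsc_spacing (Q q q' b b' : ℕ) (hq : 2 ≤ q) (hqQ : q ≤ Q) (hq' : 2 ≤ q')
    (hqQ' : q' ≤ Q) (hb : b < q) (hb' : b' < q') (hc : b.Coprime q) (hc' : b'.Coprime q')
    (hne : ¬ (q = q' ∧ b = b')) (z : ℤ) :
    1 / (Q : ℝ) ^ 2 ≤ |(b : ℝ) / q - (b' : ℝ) / q' - z| := by
  have hq0 : (0 : ℝ) < q := by exact_mod_cast (by omega : 0 < q)
  have hq0' : (0 : ℝ) < q' := by exact_mod_cast (by omega : 0 < q')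
  have e1 : (b : ℝ) / q - (b' : ℝ) / q' - z =
      (((b : ℤ) * q' - b' * q - z * (q * q') : ℤ) : ℝ) / (q * q') := by
    push_cast
    field_simp
  have hnum : ((b : ℤ) * q' - b' * q - z * (q * q') : ℤ) ≠ 0 := by
    intro h
    apply hne
    have hz : z = 0 := by
      have hqz : (0 : ℤ) < q := by exact_mod_cast (by omega : 0 < q)
      have hqz' : (0 : ℤ) < q' := by exact_mod_cast (by omega : 0 < q')
      have hpos : (0 : ℤ) < q * q' := mul_pos hqz hqz'
      have h1 : (b : ℤ) * q' < q * q' := by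
        have : (b : ℤ) < q := by exact_mod_cast hb
        exact mul_lt_mul_of_pos_right this hqz'
      have h2 : (b' : ℤ) * q < q * q' := by
        have : (b' : ℤ) < q' := by exact_mod_cast hb'
        calc (b' : ℤ) * q < q' * q := mul_lt_mul_of_pos_right this hqz
          _ = q * q' := mul_comm _ _
      have h3 : (0 : ℤ) ≤ (b : ℤ) * q' := by positivity
      have h4 : (0 : ℤ) ≤ (b' : ℤ) * q := by positivity
      have h5 : z * (q * q') < q * q' := by linarith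
      have h6 : -(q * q' : ℤ) < z * (q * q') := by linarith
      have h7 : z < 1 := by
        by_contra hcon
        push Not at hcon
        nlinarith
      have h8 : -1 < z := by
        by_contra hcon
        push Not at hcon
        nlinarith
      omega
    rw [hz, zero_mul, sub_zero] at h
    have h1 : b * q' = b' * q := by
      have : (b : ℤ) * q' = b' * q := by linarith
      exact_mod_cast this
    have h2 : q ∣ q' := by
      have : q ∣ b * q' := by rw [h1]; exact dvd_mul_left _ _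
      exact (Nat.Coprime.dvd_of_dvd_mul_left hc.symm this)
    have h3 : q' ∣ q := by
      have : q' ∣ b' * q := by rw [← h1]; exact dvd_mul_left _ _
      exact (Nat.Coprime.dvd_of_dvd_mul_left hc'.symm this)
    have h4 : q = q' := Nat.dvd_antisymm h2 h3
    refine ⟨h4, ?_⟩
    rw [← h4] at h1
    exact Nat.eq_of_mul_eq_mul_right (by omega) h1
  have h1 : (1 : ℝ) ≤ |(((b : ℤ) * q' - b' * q - z * (q * q') : ℤ) : ℝ)| := by
    exact_mod_cast Int.one_le_abs hnum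
  rw [e1, abs_div, abs_of_pos (mul_pos hq0 hq0')]
  have h2 : (q : ℝ) * q' ≤ (Q : ℝ) ^ 2 := by
    have a1 : (q : ℝ) ≤ Q := by exact_mod_cast hqQ
    have a2 : (q' : ℝ) ≤ Q := by exact_mod_cast hqQ'
    rw [pow_two]
    exact mul_le_mul a1 a2 hq0'.le (by linarith)
  exact div_le_div₀ (by linarith) h1 (mul_pos hq0 hq0') h2

/-- The large sieve for primitive characters of modulus `2 ≤ q ≤ Q`. -/
theorem ls_char (Q N : ℕ) (a : ℕ → ℂ) :
    ∑ q ∈ Icc 2 Q, (q : ℝ) / Nat.totient q * ∑ χ ∈ prim q, ‖∑ n ∈ Icc 1 N, a n * χ n‖ ^ 2 ≤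
      13 * ((Q : ℝ) ^ 2 + N) * ∑ n ∈ Icc 1 N, ‖a n‖ ^ 2 := by
  have hnn : 0 ≤ ∑ n ∈ Icc 1 N, ‖a n‖ ^ 2 := Finset.sum_nonneg fun _ _ => by positivity
  rcases Nat.eq_zero_or_pos N with hN | hN
  · subst hN
    simp
  rcases Nat.lt_or_ge Q 2 with hQ | hQ
  · rw [Finset.Icc_eq_empty (by omega), Finset.sum_empty]
    positivity
  have hQ1 : (1 : ℝ) ≤ Q := by exact_mod_cast (by omega : 1 ≤ Q)
  obtain ⟨s, hs⟩ : ∃ s : Finset (Σ _ : ℕ, ℕ), s = (Icc 2 Q).sigma
    (fun q => (range q).filter (fun b => b.Coprime q)) := ⟨_, rfl⟩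
  have hsm : ∀ i ∈ s, 2 ≤ i.1 ∧ i.1 ≤ Q ∧ i.2 < i.1 ∧ i.2.Coprime i.1 := by
    intro i hi
    rw [hs, mem_sigma, mem_Icc, mem_filter, mem_range] at hi
    exact ⟨hi.1.1, hi.1.2, hi.2.1, hi.2.2⟩
  have h1 := large_sieve_c s (fun i => (i.2 : ℝ) / i.1) (δ := 1 / (Q : ℝ) ^ 2) (by positivity)
    (by
      rw [div_le_one (by positivity)]
      exact one_le_pow₀ hQ1)
    (by
      intro i hi j hj hij z
      obtain ⟨i1, i2, i3, i4⟩ := hsm i hi
      obtain ⟨j1, j2, j3, j4⟩ := hsm j hj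
      refine lsc_spacing Q i.1 j.1 i.2 j.2 i1 i2 j1 j2 i3 j3 i4 j4 ?_ z
      rintro ⟨e1, e2⟩
      apply hij
      cases i
      cases j
      simp only at e1 e2
      subst e1 e2
      rfl)
    (Icc 1 N) a (N := N) (by exact_mod_cast hN) (by
      intro n hn
      exact_mod_cast (mem_Icc.1 hn).2)
  have h2 : ∑ q ∈ Icc 2 Q, (q : ℝ) / Nat.totient q *
      ∑ χ ∈ prim q, ‖∑ n ∈ Icc 1 N, a n * χ n‖ ^ 2 ≤
      ∑ i ∈ s, ‖∑ n ∈ Icc 1 N, a n * ee (n * ((i.2 : ℝ) / i.1))‖ ^ 2 := by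
    rw [hs, Finset.sum_sigma]
    refine Finset.sum_le_sum fun q hq => ?_
    exact ls_modulus q N (by have := (mem_Icc.1 hq).1; omega) a
  refine h2.trans (h1.trans (mul_le_mul_of_nonneg_right ?_ hnn))
  rw [one_div, inv_inv]
  have hpi : 4 * Real.pi ≤ 13 := by
    have := Real.pi_lt_d2
    linarith
  have hN0 : (0 : ℝ) ≤ N := Nat.cast_nonneg _
  nlinarith [mul_le_mul_of_nonneg_right hpi hN0, sq_nonneg (Q : ℝ)]

end Pool.BV
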