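import Mathlib

/-! BV-03: separation of variables by finite Fourier analysis. -/

set_option autoImplicit false

open Finset

namespace Pool.BV

private noncomputable def Sep_z (N : ℕ) : ℂ := Complex.exp (2 * Real.pi * Complex.I / N)

private noncomputable def Sep_D (N k h : ℕ) : ℂ := (N : ℂ)⁻¹ * ∑ j ∈ Icc 1 k, (Sep_z N ^ h) ^ j

private noncomputable def Sep_E (N h n : ℕ) : ℂ := ((Sep_z N ^ n)⁻¹) ^ h

private noncomputable def Sep_F (N h : ℕ) : ℝ :=
  if h = 0 then 1 else 1 / (2 * min (h : ℝ) ((N : ℝ) - h))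

private lemma Sep_prim (N : ℕ) (hN : 1 ≤ N) : IsPrimitiveRoot (Sep_z N) N :=
  Complex.isPrimitiveRoot_exp N (by omega)

private lemma Sep_norm (N : ℕ) (hN : 1 ≤ N) : ‖Sep_z N‖ = 1 :=
  (Sep_prim N hN).norm'_eq_one (by omega)

private lemma Sep_gap (N : ℕ) (h : ℕ) (h1 : 1 ≤ h) (h2 : h < N) :
    4 * (min (h : ℝ) ((N : ℝ) - h)) / N ≤ ‖Sep_z N ^ h - 1‖ := by
  have hN : (0 : ℝ) < N := by
    have : 0 < N := by omega
    exact_mod_cast this
  have hh : (1 : ℝ) ≤ h := by exact_mod_cast h1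
  have hhN : (h : ℝ) ≤ N := by exact_mod_cast h2.le
  have hpi := Real.pi_pos
  have e1 : Sep_z N ^ h = Complex.exp (Complex.I * ((2 * Real.pi * h / N : ℝ) : ℂ)) := by
    unfold Sep_z
    rw [← Complex.exp_nat_mul]
    congr 1
    push_cast
    ring
  rw [e1, Complex.norm_exp_I_mul_ofReal_sub_one]
  have e2 : 2 * Real.pi * h / N / 2 = Real.pi * (h / N) := by ring
  rw [e2, Real.norm_eq_abs, abs_mul, abs_of_pos (by norm_num : (0 : ℝ) < 2)]
  have hx0 : 0 ≤ (h : ℝ) / N := by positivity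
  have hx1 : (h : ℝ) / N ≤ 1 := by rw [div_le_one hN]; exact hhN
  have key : 2 * (min (h : ℝ) ((N : ℝ) - h)) / N ≤ Real.sin (Real.pi * (h / N)) := by
    rcases le_total ((h : ℝ) / N) (1 / 2) with hc | hc
    · have h3 := Real.mul_le_sin (x := Real.pi * (h / N)) (by positivity) (by nlinarith)
      have e3 : 2 / Real.pi * (Real.pi * (h / N)) = 2 * h / N := by field_simp
      rw [e3] at h3
      refine le_trans ?_ h3
      gcongr
      exact min_le_left _ _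
    · have h3 := Real.mul_le_sin (x := Real.pi * (1 - h / N))
        (mul_nonneg hpi.le (by linarith)) (by nlinarith)
      have e3 : 2 / Real.pi * (Real.pi * (1 - h / N)) = 2 * (N - h) / N := by field_simp
      have e4 : Real.sin (Real.pi * (1 - h / N)) = Real.sin (Real.pi * (h / N)) := by
        rw [mul_sub, mul_one, Real.sin_pi_sub]
      rw [e3, e4] at h3
      refine le_trans ?_ h3
      gcongr
      exact min_le_right _ _
  have : 4 * (min (h : ℝ) ((N : ℝ) - h)) / N = 2 * (2 * (min (h : ℝ) ((N : ℝ) - h)) / N) := by ring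
  rw [this]
  exact mul_le_mul_of_nonneg_left (key.trans (le_abs_self _)) (by norm_num)

private lemma Sep_F_nonneg (N : ℕ) (h : ℕ) (hh : h < N) : 0 ≤ Sep_F N h := by
  unfold Sep_F
  split_ifs
  · norm_num
  · have : (h : ℝ) ≤ N := by exact_mod_cast hh.le
    have h0 : 0 ≤ min (h : ℝ) ((N : ℝ) - h) := le_min (Nat.cast_nonneg h) (by linarith)
    positivity

private lemma Sep_D_le (N : ℕ) (hN : 1 ≤ N) (k : ℕ) (hk : k ≤ N) (h : ℕ) (hh : h < N) :
    ‖Sep_D N k h‖ ≤ Sep_F N h := by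
  have hNr : (0 : ℝ) < N := by exact_mod_cast hN
  unfold Sep_D Sep_F
  rw [norm_mul, norm_inv, Complex.norm_natCast]
  split_ifs with h0
  · subst h0
    simp only [pow_zero, one_pow, sum_const, Nat.card_Icc, nsmul_eq_mul, mul_one,
      Nat.add_sub_cancel, Complex.norm_natCast]
    rw [inv_mul_le_iff₀ hNr, mul_one]
    exact_mod_cast hk
  · have h1 : 1 ≤ h := Nat.one_le_iff_ne_zero.2 h0
    have hgap := Sep_gap N h h1 hh
    have hm : (1 / 2 : ℝ) ≤ min (h : ℝ) ((N : ℝ) - h) := by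
      refine le_min ?_ ?_
      · have : (1 : ℝ) ≤ h := by exact_mod_cast h1
        linarith
      · have : (h : ℝ) + 1 ≤ N := by exact_mod_cast hh
        linarith
    have hmpos : 0 < min (h : ℝ) ((N : ℝ) - h) := by linarith
    set w := Sep_z N ^ h with hw
    have hw1 : ‖w‖ = 1 := by rw [hw, norm_pow, Sep_norm N hN, one_pow]
    have hne : w - 1 ≠ 0 := by
      intro h2
      rw [h2, norm_zero] at hgap
      have : 0 < 4 * min (h : ℝ) ((N : ℝ) - h) / N := by positivity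
      linarith
    have hne' : w ≠ 1 := fun h2 => hne (by rw [h2, sub_self])
    have hsum : ∑ j ∈ Icc 1 k, w ^ j = w * ((w ^ k - 1) / (w - 1)) := by
      clear hk
      induction k with
      | zero => simp
      | succ k ih =>
        rw [sum_Icc_succ_top (by omega), ih]
        field_simp
        ring
    rw [hsum, norm_mul, norm_div, hw1, one_mul]
    have h3 : ‖w ^ k - 1‖ ≤ 2 := by
      refine (norm_sub_le _ _).trans ?_
      rw [norm_pow, hw1, one_pow, norm_one]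
      norm_num
    have hpos : 0 < 4 * min (h : ℝ) ((N : ℝ) - h) / N := by positivity
    calc (N : ℝ)⁻¹ * (‖w ^ k - 1‖ / ‖w - 1‖)
        ≤ (N : ℝ)⁻¹ * (2 / (4 * min (h : ℝ) ((N : ℝ) - h) / N)) := by
          gcongr
      _ = 1 / (2 * min (h : ℝ) ((N : ℝ) - h)) := by
          field_simp
          norm_num

private lemma Sep_sumF (N : ℕ) (hN : 1 ≤ N) : ∑ h ∈ range N, Sep_F N h ≤ 2 + Real.log N := by
  obtain ⟨M, rfl⟩ : ∃ M, N = M + 1 := ⟨N - 1, by omega⟩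
  rw [sum_range_succ']
  have h0 : Sep_F (M + 1) 0 = 1 := by unfold Sep_F; rw [if_pos rfl]
  rw [h0]
  have h1 : ∀ i ∈ range M, Sep_F (M + 1) (i + 1) ≤
      1 / 2 * (1 / ((i : ℝ) + 1)) + 1 / 2 * (1 / (((M - 1 - i : ℕ) : ℝ) + 1)) := by
    intro i hi
    rw [mem_range] at hi
    unfold Sep_F
    rw [if_neg (by omega)]
    have e1 : ((M - 1 - i : ℕ) : ℝ) + 1 = ((M + 1 : ℕ) : ℝ) - ((i + 1 : ℕ) : ℝ) := by
      rw [Nat.cast_sub (by omega), Nat.cast_sub (by omega)]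
      push_cast
      ring
    rw [e1]
    have hi' : ((i + 1 : ℕ) : ℝ) + 1 ≤ ((M + 1 : ℕ) : ℝ) := by exact_mod_cast (by omega : i + 1 + 1 ≤ M + 1)
    have ha : (0 : ℝ) < ((i + 1 : ℕ) : ℝ) := by positivity
    have hb : (0 : ℝ) < ((M + 1 : ℕ) : ℝ) - ((i + 1 : ℕ) : ℝ) := by linarith
    have e2 : (i : ℝ) + 1 = ((i + 1 : ℕ) : ℝ) := by push_cast; rfl
    rw [e2]
    rcases min_cases ((i + 1 : ℕ) : ℝ) (((M + 1 : ℕ) : ℝ) - ((i + 1 : ℕ) : ℝ)) with h | h
    · rw [h.1]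
      have : 0 < 1 / (((M + 1 : ℕ) : ℝ) - ((i + 1 : ℕ) : ℝ)) := by positivity
      have e3 : 1 / (2 * ((i + 1 : ℕ) : ℝ)) = 1 / 2 * (1 / ((i + 1 : ℕ) : ℝ)) := by
        field_simp
      rw [e3]
      linarith
    · rw [h.1]
      have : 0 < 1 / ((i + 1 : ℕ) : ℝ) := by positivity
      have e3 : 1 / (2 * (((M + 1 : ℕ) : ℝ) - ((i + 1 : ℕ) : ℝ))) =
          1 / 2 * (1 / (((M + 1 : ℕ) : ℝ) - ((i + 1 : ℕ) : ℝ))) := by
        rw [one_div_mul_one_div]
      rw [e3]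
      linarith
  have h2 : ∑ i ∈ range M, Sep_F (M + 1) (i + 1) ≤ ∑ i ∈ range M, 1 / ((i : ℝ) + 1) := by
    refine (sum_le_sum h1).trans ?_
    rw [sum_add_distrib, ← mul_sum, ← mul_sum]
    rw [sum_range_reflect (fun j : ℕ => 1 / ((j : ℝ) + 1)) M]
    linarith
  have h3 : ∑ i ∈ range M, 1 / ((i : ℝ) + 1) ≤ 1 + Real.log ((M + 1 : ℕ) : ℝ) := by
    have h4 := harmonic_le_one_add_log (M + 1)
    refine le_trans ?_ h4
    have h5 : ((harmonic (M + 1) : ℚ) : ℝ) = ∑ i ∈ range (M + 1), 1 / ((i : ℝ) + 1) := by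
      unfold harmonic
      push_cast
      refine sum_congr rfl fun i _ => ?_
      rw [one_div]
    rw [h5, sum_range_succ]
    have : 0 < 1 / ((M : ℝ) + 1) := by positivity
    linarith
  linarith

private lemma Sep_orth (N : ℕ) (hN : 1 ≤ N) (j n : ℕ) (hj : j ∈ Icc 1 N) (hn : n ∈ Icc 1 N) :
    ∑ h ∈ range N, (Sep_z N ^ j * (Sep_z N ^ n)⁻¹) ^ h = if j = n then (N : ℂ) else 0 := by
  have hp := Sep_prim N hN
  have hz : Sep_z N ≠ 0 := hp.ne_zero (by omega)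
  rw [mem_Icc] at hj hn
  split_ifs with h
  · subst h
    rw [mul_inv_cancel₀ (pow_ne_zero _ hz)]
    simp
  · have hne : Sep_z N ^ j * (Sep_z N ^ n)⁻¹ ≠ 1 := by
      intro h1
      rw [mul_inv_eq_one₀ (pow_ne_zero _ hz)] at h1
      apply h
      have h2 : Sep_z N ^ (j - 1) = Sep_z N ^ (n - 1) := by
        have h3 : Sep_z N ^ (j - 1) * Sep_z N = Sep_z N ^ (n - 1) * Sep_z N := by
          rw [← pow_succ, ← pow_succ, Nat.sub_add_cancel hj.1, Nat.sub_add_cancel hn.1]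
          exact h1
        exact mul_right_cancel₀ hz h3
      have h4 := hp.pow_inj (by omega) (by omega) h2
      omega
    rw [geom_sum_eq hne]
    have h1 : (Sep_z N ^ j * (Sep_z N ^ n)⁻¹) ^ N = 1 := by
      rw [mul_pow, inv_pow, ← pow_mul, ← pow_mul, mul_comm j N, mul_comm n N, pow_mul, pow_mul,
        hp.pow_eq_one]
      simp
    rw [h1, sub_self, zero_div]

theorem sep (N : ℕ) (hN : 1 ≤ N) : ∃ (F : ℕ → ℝ) (D E : ℕ → ℕ → ℂ),
    (∀ h, 0 ≤ F h) ∧ ∑ h ∈ range N, F h ≤ 2 + Real.log N ∧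
    (∀ k ≤ N, ∀ h ∈ range N, ‖D k h‖ ≤ F h) ∧ (∀ h n, ‖E h n‖ ≤ 1) ∧
    ∀ k ≤ N, ∀ n ∈ Icc 1 N, ∑ h ∈ range N, D k h * E h n = if n ≤ k then 1 else 0 := by
  refine ⟨fun h => if h < N then Sep_F N h else 0, Sep_D N, Sep_E N, ?_, ?_, ?_, ?_, ?_⟩
  · intro h
    show 0 ≤ if h < N then Sep_F N h else 0
    split_ifs with hh
    · exact Sep_F_nonneg N h hh
    · exact le_rfl
  · rw [sum_congr rfl fun h hh => if_pos (mem_range.1 hh)]
    exact Sep_sumF N hN
  · intro k hk h hh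
    show _ ≤ if h < N then Sep_F N h else 0
    rw [if_pos (mem_range.1 hh)]
    exact Sep_D_le N hN k hk h (mem_range.1 hh)
  · intro h n
    unfold Sep_E
    rw [norm_pow, norm_inv, norm_pow, Sep_norm N hN]
    simp
  · intro k hk n hn
    unfold Sep_D Sep_E
    have hNc : (N : ℂ) ≠ 0 := by
      have : N ≠ 0 := by omega
      exact_mod_cast this
    have e1 : ∀ h ∈ range N, (N : ℂ)⁻¹ * ∑ j ∈ Icc 1 k, (Sep_z N ^ h) ^ j * ((Sep_z N ^ n)⁻¹) ^ h =
        ∑ j ∈ Icc 1 k, (N : ℂ)⁻¹ * (Sep_z N ^ j * (Sep_z N ^ n)⁻¹) ^ h := by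
      intro h _
      rw [mul_sum]
      refine sum_congr rfl fun j _ => ?_
      rw [mul_pow, ← pow_mul, ← pow_mul, mul_comm h j]
    have e2 : ∀ h ∈ range N, (N : ℂ)⁻¹ * (∑ j ∈ Icc 1 k, (Sep_z N ^ h) ^ j) * ((Sep_z N ^ n)⁻¹) ^ h =
        ∑ j ∈ Icc 1 k, (N : ℂ)⁻¹ * (Sep_z N ^ j * (Sep_z N ^ n)⁻¹) ^ h := by
      intro h hh
      rw [← e1 h hh, mul_assoc, sum_mul]
    rw [sum_congr rfl e2, sum_comm]
    have e3 : ∀ j ∈ Icc 1 k, ∑ h ∈ range N, (N : ℂ)⁻¹ * (Sep_z N ^ j * (Sep_z N ^ n)⁻¹) ^ h =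
        if j = n then 1 else 0 := by
      intro j hj
      rw [← mul_sum, Sep_orth N hN j n (by rw [mem_Icc] at hj ⊢; omega) hn]
      split_ifs
      · exact inv_mul_cancel₀ hNc
      · rw [mul_zero]
    rw [sum_congr rfl e3, sum_ite_eq']
    rw [mem_Icc] at hn
    by_cases h : n ≤ k
    · rw [if_pos (mem_Icc.2 ⟨hn.1, h⟩), if_pos h]
    · rw [if_neg (fun h' => h (mem_Icc.1 h').2), if_neg h]

end Pool.BV
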