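import Mathlib
import Pool.Agent.Lib.BV.LSChar
import Pool.Agent.Lib.BV.Sep

/-! BV-04: bilinear forms. -/

set_option autoImplicit false

open Finset

namespace Pool.BV

private lemma Bilin_cs (Q : ℕ) (x y : (q : ℕ) → DirichletCharacter ℂ q → ℝ) :
    ∑ q ∈ Icc 2 Q, (q : ℝ) / Nat.totient q * ∑ χ ∈ prim q, x q χ * y q χ ≤
      Real.sqrt (∑ q ∈ Icc 2 Q, (q : ℝ) / Nat.totient q * ∑ χ ∈ prim q, x q χ ^ 2) *
        Real.sqrt (∑ q ∈ Icc 2 Q, (q : ℝ) / Nat.totient q * ∑ χ ∈ prim q, y q χ ^ 2) := by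
  have h1 : ∀ q ∈ Icc 2 Q, (q : ℝ) / Nat.totient q * ∑ χ ∈ prim q, x q χ * y q χ ≤
      Real.sqrt ((q : ℝ) / Nat.totient q * ∑ χ ∈ prim q, x q χ ^ 2) *
        Real.sqrt ((q : ℝ) / Nat.totient q * ∑ χ ∈ prim q, y q χ ^ 2) := by
    intro q _
    have hw : (0 : ℝ) ≤ (q : ℝ) / Nat.totient q := by positivity
    have h2 := Real.sum_mul_le_sqrt_mul_sqrt (prim q) (x q) (y q)
    rw [Real.sqrt_mul hw, Real.sqrt_mul hw]
    calc (q : ℝ) / Nat.totient q * ∑ χ ∈ prim q, x q χ * y q χ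
        ≤ (q : ℝ) / Nat.totient q * (Real.sqrt (∑ χ ∈ prim q, x q χ ^ 2) *
            Real.sqrt (∑ χ ∈ prim q, y q χ ^ 2)) := mul_le_mul_of_nonneg_left h2 hw
      _ = (Real.sqrt ((q : ℝ) / Nat.totient q) * Real.sqrt ((q : ℝ) / Nat.totient q)) *
            (Real.sqrt (∑ χ ∈ prim q, x q χ ^ 2) * Real.sqrt (∑ χ ∈ prim q, y q χ ^ 2)) := by
          rw [Real.mul_self_sqrt hw]
      _ = _ := by ring
  refine (sum_le_sum h1).trans ?_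
  have h3 := Real.sum_mul_le_sqrt_mul_sqrt (Icc 2 Q)
    (fun q => Real.sqrt ((q : ℝ) / Nat.totient q * ∑ χ ∈ prim q, x q χ ^ 2))
    (fun q => Real.sqrt ((q : ℝ) / Nat.totient q * ∑ χ ∈ prim q, y q χ ^ 2))
  have e1 : ∀ (z : (q : ℕ) → DirichletCharacter ℂ q → ℝ), ∀ q ∈ Icc 2 Q,
      Real.sqrt ((q : ℝ) / Nat.totient q * ∑ χ ∈ prim q, z q χ ^ 2) ^ 2 =
        (q : ℝ) / Nat.totient q * ∑ χ ∈ prim q, z q χ ^ 2 := by
    intro z q _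
    exact Real.sq_sqrt (mul_nonneg (by positivity) (sum_nonneg fun χ _ => sq_nonneg _))
  rw [sum_congr rfl (e1 x), sum_congr rfl (e1 y)] at h3
  exact h3

theorem bilin (Q M N : ℕ) (hN : 1 ≤ N) (a b : ℕ → ℂ) (k : ℕ → ℕ) (hk : ∀ m, k m ≤ N) :
    ∑ q ∈ Icc 2 Q, (q : ℝ) / Nat.totient q * ∑ χ ∈ prim q,
        ‖∑ m ∈ Icc 1 M, ∑ n ∈ Icc 1 (k m), a m * b n * χ ((m * n : ℕ) : ZMod q)‖ ≤
      13 * (2 + Real.log N) * (Real.sqrt (((Q : ℝ) ^ 2 + M) * ∑ m ∈ Icc 1 M, ‖a m‖ ^ 2) *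
        Real.sqrt (((Q : ℝ) ^ 2 + N) * ∑ n ∈ Icc 1 N, ‖b n‖ ^ 2)) := by
  obtain ⟨F, D, E, hF0, hFs, hD, hE, hsep⟩ := sep N hN
  -- the separated form
  have hform : ∀ (q : ℕ) (χ : DirichletCharacter ℂ q),
      ∑ m ∈ Icc 1 M, ∑ n ∈ Icc 1 (k m), a m * b n * χ ((m * n : ℕ) : ZMod q) =
        ∑ h ∈ range N, (∑ m ∈ Icc 1 M, (a m * D (k m) h) * χ m) *
          (∑ n ∈ Icc 1 N, (b n * E h n) * χ n) := by
    intro q χ
    have h1 : ∀ m ∈ Icc 1 M, ∑ n ∈ Icc 1 (k m), a m * b n * χ ((m * n : ℕ) : ZMod q) =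
        ∑ n ∈ Icc 1 N, ∑ h ∈ range N, (a m * D (k m) h * χ m) * (b n * E h n * χ n) := by
      intro m _
      have h2 : ∀ n ∈ Icc 1 N, ∑ h ∈ range N, (a m * D (k m) h * χ m) * (b n * E h n * χ n) =
          if n ≤ k m then a m * b n * χ ((m * n : ℕ) : ZMod q) else 0 := by
        intro n hn
        have h3 : ∀ h ∈ range N, (a m * D (k m) h * χ m) * (b n * E h n * χ n) =
            (a m * b n * (χ m * χ n)) * (D (k m) h * E h n) := fun h _ => by ring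
        rw [sum_congr rfl h3, ← mul_sum, hsep (k m) (hk m) n hn]
        have h4 : χ ((m * n : ℕ) : ZMod q) = χ m * χ n := by
          rw [Nat.cast_mul, map_mul]
        rw [h4]
        split_ifs
        · rw [mul_one]
        · rw [mul_zero]
      rw [sum_congr rfl h2, ← sum_filter]
      refine sum_congr ?_ fun _ _ => rfl
      ext n
      have := hk m
      rw [mem_filter, mem_Icc, mem_Icc]
      omega
    rw [sum_congr rfl h1]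
    have h5 : ∀ m ∈ Icc 1 M, ∑ n ∈ Icc 1 N, ∑ h ∈ range N,
        (a m * D (k m) h * χ m) * (b n * E h n * χ n) =
        ∑ h ∈ range N, ∑ n ∈ Icc 1 N, (a m * D (k m) h * χ m) * (b n * E h n * χ n) :=
      fun m _ => sum_comm
    rw [sum_congr rfl h5, sum_comm]
    refine sum_congr rfl fun h _ => ?_
    rw [sum_mul_sum]
  have hnorm : ∀ (q : ℕ) (χ : DirichletCharacter ℂ q),
      ‖∑ m ∈ Icc 1 M, ∑ n ∈ Icc 1 (k m), a m * b n * χ ((m * n : ℕ) : ZMod q)‖ ≤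
        ∑ h ∈ range N, ‖∑ m ∈ Icc 1 M, (a m * D (k m) h) * χ m‖ *
          ‖∑ n ∈ Icc 1 N, (b n * E h n) * χ n‖ := by
    intro q χ
    rw [hform]
    refine (norm_sum_le _ _).trans (le_of_eq ?_)
    exact sum_congr rfl fun h _ => norm_mul _ _
  have hstep : ∑ q ∈ Icc 2 Q, (q : ℝ) / Nat.totient q * ∑ χ ∈ prim q,
        ‖∑ m ∈ Icc 1 M, ∑ n ∈ Icc 1 (k m), a m * b n * χ ((m * n : ℕ) : ZMod q)‖ ≤
      ∑ h ∈ range N, ∑ q ∈ Icc 2 Q, (q : ℝ) / Nat.totient q * ∑ χ ∈ prim q,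
        ‖∑ m ∈ Icc 1 M, (a m * D (k m) h) * χ m‖ * ‖∑ n ∈ Icc 1 N, (b n * E h n) * χ n‖ := by
    rw [sum_comm]
    refine sum_le_sum fun q _ => ?_
    rw [← mul_sum, sum_comm]
    refine mul_le_mul_of_nonneg_left (sum_le_sum fun χ _ => hnorm q χ) (by positivity)
  refine hstep.trans ?_
  set SA := ∑ m ∈ Icc 1 M, ‖a m‖ ^ 2 with hSA
  set SB := ∑ n ∈ Icc 1 N, ‖b n‖ ^ 2 with hSB
  have hSA0 : 0 ≤ SA := sum_nonneg fun m _ => by positivity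
  have hSB0 : 0 ≤ SB := sum_nonneg fun m _ => by positivity
  have hterm : ∀ h ∈ range N, ∑ q ∈ Icc 2 Q, (q : ℝ) / Nat.totient q * ∑ χ ∈ prim q,
        ‖∑ m ∈ Icc 1 M, (a m * D (k m) h) * χ m‖ * ‖∑ n ∈ Icc 1 N, (b n * E h n) * χ n‖ ≤
      F h * (13 * (Real.sqrt (((Q : ℝ) ^ 2 + M) * SA) * Real.sqrt (((Q : ℝ) ^ 2 + N) * SB))) := by
    intro h hh
    refine (Bilin_cs Q (fun q χ => ‖∑ m ∈ Icc 1 M, (a m * D (k m) h) * χ m‖)
      (fun q χ => ‖∑ n ∈ Icc 1 N, (b n * E h n) * χ n‖)).trans ?_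
    have h1 := ls_char Q M (fun m => a m * D (k m) h)
    have h2 := ls_char Q N (fun n => b n * E h n)
    have h3 : ∑ m ∈ Icc 1 M, ‖a m * D (k m) h‖ ^ 2 ≤ F h ^ 2 * SA := by
      rw [hSA, mul_sum]
      refine sum_le_sum fun m _ => ?_
      rw [norm_mul, mul_pow, mul_comm]
      have := hD (k m) (hk m) h hh
      gcongr
    have h4 : ∑ n ∈ Icc 1 N, ‖b n * E h n‖ ^ 2 ≤ SB := by
      rw [hSB]
      refine sum_le_sum fun n _ => ?_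
      rw [norm_mul, mul_pow]
      have h5 := hE h n
      have h6 : ‖E h n‖ ^ 2 ≤ 1 := pow_le_one₀ (norm_nonneg _) h5
      calc ‖b n‖ ^ 2 * ‖E h n‖ ^ 2 ≤ ‖b n‖ ^ 2 * 1 := by gcongr
        _ = _ := mul_one _
    have h7 : Real.sqrt (∑ q ∈ Icc 2 Q, (q : ℝ) / Nat.totient q * ∑ χ ∈ prim q,
        ‖∑ m ∈ Icc 1 M, (a m * D (k m) h) * χ m‖ ^ 2) ≤
        F h * (Real.sqrt 13 * Real.sqrt (((Q : ℝ) ^ 2 + M) * SA)) := by
      have h8 : ∑ q ∈ Icc 2 Q, (q : ℝ) / Nat.totient q * ∑ χ ∈ prim q,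
          ‖∑ m ∈ Icc 1 M, (a m * D (k m) h) * χ m‖ ^ 2 ≤
          F h ^ 2 * (13 * (((Q : ℝ) ^ 2 + M) * SA)) := by
        refine h1.trans ?_
        calc 13 * ((Q : ℝ) ^ 2 + M) * ∑ m ∈ Icc 1 M, ‖a m * D (k m) h‖ ^ 2
            ≤ 13 * ((Q : ℝ) ^ 2 + M) * (F h ^ 2 * SA) := by gcongr
          _ = _ := by ring
      refine (Real.sqrt_le_sqrt h8).trans (le_of_eq ?_)
      rw [Real.sqrt_mul (sq_nonneg _), Real.sqrt_sq (hF0 h), Real.sqrt_mul (by norm_num)]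
    have h9 : Real.sqrt (∑ q ∈ Icc 2 Q, (q : ℝ) / Nat.totient q * ∑ χ ∈ prim q,
        ‖∑ n ∈ Icc 1 N, (b n * E h n) * χ n‖ ^ 2) ≤
        Real.sqrt 13 * Real.sqrt (((Q : ℝ) ^ 2 + N) * SB) := by
      have h8 : ∑ q ∈ Icc 2 Q, (q : ℝ) / Nat.totient q * ∑ χ ∈ prim q,
          ‖∑ n ∈ Icc 1 N, (b n * E h n) * χ n‖ ^ 2 ≤ 13 * (((Q : ℝ) ^ 2 + N) * SB) := by
        refine h2.trans ?_
        calc 13 * ((Q : ℝ) ^ 2 + N) * ∑ n ∈ Icc 1 N, ‖b n * E h n‖ ^ 2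
            ≤ 13 * ((Q : ℝ) ^ 2 + N) * SB := by gcongr
          _ = _ := by ring
      refine (Real.sqrt_le_sqrt h8).trans (le_of_eq ?_)
      rw [Real.sqrt_mul (by norm_num)]
    calc Real.sqrt (∑ q ∈ Icc 2 Q, (q : ℝ) / Nat.totient q * ∑ χ ∈ prim q,
        ‖∑ m ∈ Icc 1 M, (a m * D (k m) h) * χ m‖ ^ 2) *
        Real.sqrt (∑ q ∈ Icc 2 Q, (q : ℝ) / Nat.totient q * ∑ χ ∈ prim q,
        ‖∑ n ∈ Icc 1 N, (b n * E h n) * χ n‖ ^ 2)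
        ≤ (F h * (Real.sqrt 13 * Real.sqrt (((Q : ℝ) ^ 2 + M) * SA))) *
          (Real.sqrt 13 * Real.sqrt (((Q : ℝ) ^ 2 + N) * SB)) :=
          mul_le_mul h7 h9 (Real.sqrt_nonneg _) (mul_nonneg (hF0 h) (by positivity))
      _ = F h * ((Real.sqrt 13 * Real.sqrt 13) *
          (Real.sqrt (((Q : ℝ) ^ 2 + M) * SA) * Real.sqrt (((Q : ℝ) ^ 2 + N) * SB))) := by ring
      _ = _ := by rw [Real.mul_self_sqrt (by norm_num)]
  refine (sum_le_sum hterm).trans ?_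
  rw [← sum_mul]
  calc (∑ h ∈ range N, F h) *
        (13 * (Real.sqrt (((Q : ℝ) ^ 2 + M) * SA) * Real.sqrt (((Q : ℝ) ^ 2 + N) * SB)))
      ≤ (2 + Real.log N) *
        (13 * (Real.sqrt (((Q : ℝ) ^ 2 + M) * SA) * Real.sqrt (((Q : ℝ) ^ 2 + N) * SB))) := by
        gcongr
    _ = _ := by ring

end Pool.BV
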