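import Mathlib
import Pool.Agent.Lib.BV.Bilin

/-! BV-07: bilinear forms over `U < m ≤ W`, `mk ≤ X`, cut into dyadic blocks. -/

set_option autoImplicit false

open Finset

namespace Pool.BV

private theorem dy_sqrt_add {u v : ℝ} (hu : 0 ≤ u) (hv : 0 ≤ v) :
    Real.sqrt (u ^ 2 + v) ≤ u + Real.sqrt v := by
  rw [Real.sqrt_le_left (by positivity)]
  have h := Real.sq_sqrt hv
  have h2 : 0 ≤ u * Real.sqrt v := by positivity
  nlinarith

/-- the real inequality for one block -/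
private theorem dy_real (R X U W M : ℝ) (hR : 1 ≤ R) (hX : 0 < X) (hU : 0 < U) (hUM : U ≤ M)
    (hMW : M ≤ W) :
    Real.sqrt ((4 * R ^ 2 + 2 * M) * M) * Real.sqrt ((4 * R ^ 2 + X / M) * (X / M)) ≤
      4 * R * (R * Real.sqrt X + X / Real.sqrt U + Real.sqrt (W * X) + X / R) := by
  have hM : 0 < M := lt_of_lt_of_le hU hUM
  have hW : 0 < W := lt_of_lt_of_le hM hMW
  have hx : 0 < X / M := by positivity
  have hR0 : 0 < R := by linarith
  have h1 : Real.sqrt ((4 * R ^ 2 + 2 * M) * M) * Real.sqrt ((4 * R ^ 2 + X / M) * (X / M)) =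
      Real.sqrt (4 * R ^ 2 + 2 * M) * Real.sqrt (4 * R ^ 2 + X / M) * Real.sqrt X := by
    rw [Real.sqrt_mul (by positivity), Real.sqrt_mul (by positivity)]
    have h2 : Real.sqrt X = Real.sqrt M * Real.sqrt (X / M) := by
      rw [← Real.sqrt_mul hM.le]
      congr 1
      field_simp
    rw [h2]
    ring
  have h2 : Real.sqrt (4 * R ^ 2 + 2 * M) ≤ 2 * R + Real.sqrt (2 * M) := by
    have := dy_sqrt_add (u := 2 * R) (v := 2 * M) (by linarith) (by linarith)
    have h3 : (2 * R) ^ 2 = 4 * R ^ 2 := by ring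
    rwa [h3] at this
  have h3 : Real.sqrt (4 * R ^ 2 + X / M) ≤ 2 * R + Real.sqrt (X / M) := by
    have := dy_sqrt_add (u := 2 * R) (v := X / M) (by linarith) hx.le
    have h3 : (2 * R) ^ 2 = 4 * R ^ 2 := by ring
    rwa [h3] at this
  have h4 : Real.sqrt (2 * M) * Real.sqrt (X / M) = Real.sqrt 2 * Real.sqrt X := by
    rw [← Real.sqrt_mul (by positivity), ← Real.sqrt_mul (by norm_num)]
    congr 1
    field_simp
  have h5 : Real.sqrt (X / M) * Real.sqrt X ≤ X / Real.sqrt U := by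
    have h6 : Real.sqrt (X / M) ≤ Real.sqrt X / Real.sqrt U := by
      rw [← Real.sqrt_div hX.le]
      exact Real.sqrt_le_sqrt (div_le_div_of_nonneg_left hX.le hU hUM)
    calc Real.sqrt (X / M) * Real.sqrt X ≤ Real.sqrt X / Real.sqrt U * Real.sqrt X :=
          mul_le_mul_of_nonneg_right h6 (Real.sqrt_nonneg _)
      _ = (Real.sqrt X * Real.sqrt X) / Real.sqrt U := by ring
      _ = X / Real.sqrt U := by rw [Real.mul_self_sqrt hX.le]
  have hs2 : Real.sqrt 2 ≤ 2 := by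
    rw [Real.sqrt_le_left (by norm_num)]
    norm_num
  have h6 : Real.sqrt (2 * M) * Real.sqrt X ≤ 2 * Real.sqrt (W * X) := by
    rw [Real.sqrt_mul (by norm_num), mul_assoc, ← Real.sqrt_mul hM.le]
    have h7 : Real.sqrt (M * X) ≤ Real.sqrt (W * X) :=
      Real.sqrt_le_sqrt (mul_le_mul_of_nonneg_right hMW hX.le)
    exact mul_le_mul hs2 h7 (Real.sqrt_nonneg _) (by norm_num)
  have h7 : Real.sqrt 2 * Real.sqrt X * Real.sqrt X ≤ 2 * X := by
    rw [mul_assoc, Real.mul_self_sqrt hX.le]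
    exact mul_le_mul_of_nonneg_right hs2 hX.le
  rw [h1]
  have hsX := Real.sqrt_nonneg X
  have hsxm := Real.sqrt_nonneg (X / M)
  have hs2m := Real.sqrt_nonneg (2 * M)
  have hXR : R * (X / R) = X := by field_simp
  have hA : 0 ≤ X / Real.sqrt U := by positivity
  have hB : 0 ≤ Real.sqrt (W * X) := Real.sqrt_nonneg _
  have h8 : Real.sqrt (4 * R ^ 2 + 2 * M) * Real.sqrt (4 * R ^ 2 + X / M) ≤
      (2 * R + Real.sqrt (2 * M)) * (2 * R + Real.sqrt (X / M)) :=
    mul_le_mul h2 h3 (Real.sqrt_nonneg _) (by positivity)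
  calc Real.sqrt (4 * R ^ 2 + 2 * M) * Real.sqrt (4 * R ^ 2 + X / M) * Real.sqrt X ≤
      (2 * R + Real.sqrt (2 * M)) * (2 * R + Real.sqrt (X / M)) * Real.sqrt X :=
        mul_le_mul_of_nonneg_right h8 hsX
    _ = 4 * R ^ 2 * Real.sqrt X + 2 * R * (Real.sqrt (X / M) * Real.sqrt X) +
        2 * R * (Real.sqrt (2 * M) * Real.sqrt X) +
        (Real.sqrt (2 * M) * Real.sqrt (X / M)) * Real.sqrt X := by ring
    _ ≤ 4 * R ^ 2 * Real.sqrt X + 2 * R * (X / Real.sqrt U) + 2 * R * (2 * Real.sqrt (W * X)) +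
        2 * X := by
        rw [h4]
        gcongr
    _ ≤ 4 * R * (R * Real.sqrt X + X / Real.sqrt U + Real.sqrt (W * X) + X / R) := by
        have h9 : 4 * R * (R * Real.sqrt X + X / Real.sqrt U + Real.sqrt (W * X) + X / R) =
          4 * R ^ 2 * Real.sqrt X + 4 * R * (X / Real.sqrt U) + 4 * R * Real.sqrt (W * X) +
            4 * (R * (X / R)) := by ring
        rw [h9, hXR]
        have h10 : 0 ≤ R * (X / Real.sqrt U) := by positivity
        nlinarith

/-- one block -/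
private theorem dy_block (R X U W M : ℕ) (a b : ℕ → ℂ) (A B : ℝ)
    (hR : 1 ≤ R) (hX : 3 ≤ X) (hU : 1 ≤ U) (hWX : W ≤ X) (hA : 0 ≤ A) (hB : 0 ≤ B)
    (ha : ∀ m ≤ X, ‖a m‖ ≤ A) (hb : ∀ y ≤ X, ∑ k ∈ Icc 1 y, ‖b k‖ ^ 2 ≤ B * y)
    (hUM : U ≤ M) (hMW : M < W) :
    ∑ q ∈ Ioc R (2 * R), (1 / (Nat.totient q : ℝ)) * ∑ χ ∈ prim q,
        ‖∑ m ∈ Ioc M (min (2 * M) W), ∑ k ∈ Icc 1 (X / m),
          a m * b k * χ ((m * k : ℕ) : ZMod q)‖ ≤
      52 * (2 + Real.log X) * A * Real.sqrt B *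
        (R * Real.sqrt X + X / Real.sqrt U + Real.sqrt (W * X) + X / R) := by
  classical
  have hM0 : 0 < M := by omega
  have hMX : M ≤ X := by omega
  have hR0 : (0 : ℝ) < R := by exact_mod_cast hR
  have hM0' : (0 : ℝ) < M := by exact_mod_cast hM0
  have hX0 : (0 : ℝ) < X := by
    have : 0 < X := by omega
    exact_mod_cast this
  set N : ℕ := X / M with hN
  have hN1 : 1 ≤ N := (Nat.one_le_div_iff hM0).2 hMX
  have hNX : N ≤ X := Nat.div_le_self _ _
  have hNr : (N : ℝ) ≤ (X : ℝ) / M := Nat.cast_div_le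
  set a' : ℕ → ℂ := fun m => if m ∈ Ioc M (min (2 * M) W) then a m else 0 with ha'
  set k : ℕ → ℕ := fun m => if M < m then X / m else 0 with hk
  have hkN : ∀ m, k m ≤ N := by
    intro m
    rw [hk]
    dsimp only
    split_ifs with h
    · exact Nat.div_le_div_left h.le hM0
    · exact Nat.zero_le _
  have hbil := bilin (2 * R) (2 * M) N hN1 a' b k hkN
  -- the inner sums agree
  have hinner : ∀ (q : ℕ) (χ : DirichletCharacter ℂ q),
      ∑ m ∈ Icc 1 (2 * M), ∑ n ∈ Icc 1 (k m), a' m * b n * χ ((m * n : ℕ) : ZMod q) =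
      ∑ m ∈ Ioc M (min (2 * M) W), ∑ k ∈ Icc 1 (X / m),
          a m * b k * χ ((m * k : ℕ) : ZMod q) := by
    intro q χ
    symm
    have hsub : Ioc M (min (2 * M) W) ⊆ Icc 1 (2 * M) := by
      intro m hm
      rw [mem_Ioc] at hm
      rw [mem_Icc]
      exact ⟨by omega, hm.2.trans (min_le_left _ _)⟩
    rw [← Finset.sum_subset hsub]
    · refine sum_congr rfl fun m hm => ?_
      have hm' : M < m := (mem_Ioc.1 hm).1
      have h1 : k m = X / m := by
        rw [hk]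
        dsimp only
        rw [if_pos hm']
      have h2 : a' m = a m := by
        rw [ha']
        dsimp only
        rw [if_pos hm]
      rw [h1, h2]
    · intro m _ hm
      refine sum_eq_zero fun n _ => ?_
      have h2 : a' m = 0 := by
        rw [ha']
        dsimp only
        rw [if_neg hm]
      rw [h2]
      ring
  -- the sums of squares
  have hsa : ∑ m ∈ Icc 1 (2 * M), ‖a' m‖ ^ 2 ≤ M * A ^ 2 := by
    have h1 : ∑ m ∈ Icc 1 (2 * M), ‖a' m‖ ^ 2 ≤
        ∑ m ∈ Icc 1 (2 * M), if m ∈ Ioc M (min (2 * M) W) then A ^ 2 else 0 := by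
      refine sum_le_sum fun m _ => ?_
      rw [ha']
      dsimp only
      split_ifs with h
      · rw [mem_Ioc] at h
        have h2 : m ≤ X := (h.2.trans (min_le_right _ _)).trans hWX
        exact pow_le_pow_left₀ (norm_nonneg _) (ha m h2) 2
      · simp
    refine h1.trans ?_
    rw [← sum_filter, sum_const, nsmul_eq_mul]
    apply mul_le_mul_of_nonneg_right _ (by positivity)
    have h2 : ((Icc 1 (2 * M)).filter (fun m => m ∈ Ioc M (min (2 * M) W))).card ≤ M := by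
      calc _ ≤ (Ioc M (2 * M)).card := by
            apply card_le_card
            intro m hm
            rw [mem_filter, mem_Ioc] at hm
            rw [mem_Ioc]
            exact ⟨hm.2.1, hm.2.2.trans (min_le_left _ _)⟩
        _ = M := by rw [Nat.card_Ioc]; omega
    exact_mod_cast h2
  have hsb : ∑ n ∈ Icc 1 N, ‖b n‖ ^ 2 ≤ B * (X / M) :=
    (hb N hNX).trans (mul_le_mul_of_nonneg_left hNr hB)
  have hlogN : Real.log N ≤ Real.log X :=
    Real.log_le_log (by exact_mod_cast hN1) (by exact_mod_cast hNX)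
  have hlogX : 0 ≤ Real.log X := Real.log_nonneg (by exact_mod_cast (by omega : 1 ≤ X))
  have hlogN0 : 0 ≤ Real.log N := Real.log_nonneg (by exact_mod_cast hN1)
  -- from `1/φ(q)` to `q/φ(q)`
  have hstep : ∑ q ∈ Ioc R (2 * R), (1 / (Nat.totient q : ℝ)) * ∑ χ ∈ prim q,
        ‖∑ m ∈ Ioc M (min (2 * M) W), ∑ k ∈ Icc 1 (X / m),
          a m * b k * χ ((m * k : ℕ) : ZMod q)‖ ≤
      (1 / (R : ℝ)) * ∑ q ∈ Icc 2 (2 * R), (q : ℝ) / Nat.totient q * ∑ χ ∈ prim q,
        ‖∑ m ∈ Icc 1 (2 * M), ∑ n ∈ Icc 1 (k m), a' m * b n * χ ((m * n : ℕ) : ZMod q)‖ := by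
    rw [mul_sum]
    calc _ ≤ ∑ q ∈ Ioc R (2 * R), (1 / (R : ℝ)) * ((q : ℝ) / Nat.totient q * ∑ χ ∈ prim q,
        ‖∑ m ∈ Icc 1 (2 * M), ∑ n ∈ Icc 1 (k m), a' m * b n * χ ((m * n : ℕ) : ZMod q)‖) := by
          refine sum_le_sum fun q hq => ?_
          rw [mem_Ioc] at hq
          have hq0 : (0 : ℝ) < Nat.totient q := by
            exact_mod_cast Nat.totient_pos.2 (by omega)
          have hqR : (R : ℝ) ≤ q := by exact_mod_cast hq.1.le
          rw [← mul_assoc]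
          have h1 : (1 / (Nat.totient q : ℝ)) ≤ 1 / (R : ℝ) * ((q : ℝ) / Nat.totient q) := by
            rw [div_mul_div_comm, one_mul, div_le_div_iff₀ hq0 (by positivity), one_mul]
            exact mul_le_mul_of_nonneg_right hqR hq0.le
          have h2 : ∀ χ : DirichletCharacter ℂ q,
              ‖∑ m ∈ Ioc M (min (2 * M) W), ∑ k ∈ Icc 1 (X / m),
                a m * b k * χ ((m * k : ℕ) : ZMod q)‖ =
              ‖∑ m ∈ Icc 1 (2 * M), ∑ n ∈ Icc 1 (k m),
                a' m * b n * χ ((m * n : ℕ) : ZMod q)‖ := fun χ => by rw [hinner]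
          rw [sum_congr rfl fun χ _ => h2 χ]
          exact mul_le_mul_of_nonneg_right h1 (sum_nonneg fun _ _ => norm_nonneg _)
      _ ≤ _ := by
          apply sum_le_sum_of_subset_of_nonneg
          · intro q hq
            rw [mem_Ioc] at hq
            rw [mem_Icc]
            omega
          · intro q _ _
            have : 0 ≤ ∑ χ ∈ prim q,
              ‖∑ m ∈ Icc 1 (2 * M), ∑ n ∈ Icc 1 (k m), a' m * b n * χ ((m * n : ℕ) : ZMod q)‖ :=
              sum_nonneg fun _ _ => norm_nonneg _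
            positivity
  have hQ : ((2 * R : ℕ) : ℝ) ^ 2 = 4 * (R : ℝ) ^ 2 := by
    push_cast
    ring
  have hM2 : ((2 * M : ℕ) : ℝ) = 2 * (M : ℝ) := by push_cast; ring
  rw [hQ, hM2] at hbil
  have hs1 : Real.sqrt ((4 * (R : ℝ) ^ 2 + 2 * M) * ∑ m ∈ Icc 1 (2 * M), ‖a' m‖ ^ 2) ≤
      A * Real.sqrt ((4 * (R : ℝ) ^ 2 + 2 * M) * M) := by
    have h1 : A * Real.sqrt ((4 * (R : ℝ) ^ 2 + 2 * M) * M) =
        Real.sqrt (A ^ 2 * ((4 * (R : ℝ) ^ 2 + 2 * M) * M)) := by
      rw [Real.sqrt_mul (by positivity) ((4 * (R : ℝ) ^ 2 + 2 * M) * M), Real.sqrt_sq hA]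
    rw [h1]
    apply Real.sqrt_le_sqrt
    calc (4 * (R : ℝ) ^ 2 + 2 * M) * ∑ m ∈ Icc 1 (2 * M), ‖a' m‖ ^ 2 ≤
        (4 * (R : ℝ) ^ 2 + 2 * M) * (M * A ^ 2) := mul_le_mul_of_nonneg_left hsa (by positivity)
      _ = A ^ 2 * ((4 * (R : ℝ) ^ 2 + 2 * M) * M) := by ring
  have hs2 : Real.sqrt ((4 * (R : ℝ) ^ 2 + N) * ∑ n ∈ Icc 1 N, ‖b n‖ ^ 2) ≤
      Real.sqrt B * Real.sqrt ((4 * (R : ℝ) ^ 2 + X / M) * (X / M)) := by
    rw [← Real.sqrt_mul hB]
    apply Real.sqrt_le_sqrt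
    calc (4 * (R : ℝ) ^ 2 + N) * ∑ n ∈ Icc 1 N, ‖b n‖ ^ 2 ≤
        (4 * (R : ℝ) ^ 2 + X / M) * (B * (X / M)) := by
          apply mul_le_mul _ hsb (sum_nonneg fun _ _ => by positivity) (by positivity)
          linarith
      _ = B * ((4 * (R : ℝ) ^ 2 + X / M) * (X / M)) := by ring
  have hreal := dy_real R X U W M (by exact_mod_cast hR) hX0 (by exact_mod_cast hU)
    (by exact_mod_cast hUM) (by exact_mod_cast hMW.le)
  set T : ℝ := R * Real.sqrt X + X / Real.sqrt U + Real.sqrt (W * X) + X / R with hT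
  calc _ ≤ _ := hstep
    _ ≤ (1 / (R : ℝ)) * (13 * (2 + Real.log N) *
        (Real.sqrt ((4 * (R : ℝ) ^ 2 + 2 * M) * ∑ m ∈ Icc 1 (2 * M), ‖a' m‖ ^ 2) *
        Real.sqrt ((4 * (R : ℝ) ^ 2 + N) * ∑ n ∈ Icc 1 N, ‖b n‖ ^ 2))) :=
        mul_le_mul_of_nonneg_left hbil (by positivity)
    _ ≤ (1 / (R : ℝ)) * (13 * (2 + Real.log X) *
        ((A * Real.sqrt ((4 * (R : ℝ) ^ 2 + 2 * M) * M)) *
          (Real.sqrt B * Real.sqrt ((4 * (R : ℝ) ^ 2 + X / M) * (X / M))))) := by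
        apply mul_le_mul_of_nonneg_left _ (by positivity)
        apply mul_le_mul _ _ (by positivity) (by positivity)
        · linarith
        · exact mul_le_mul hs1 hs2 (Real.sqrt_nonneg _) (by positivity)
    _ = (1 / (R : ℝ)) * (13 * (2 + Real.log X) * A * Real.sqrt B) *
        (Real.sqrt ((4 * (R : ℝ) ^ 2 + 2 * M) * M) *
          Real.sqrt ((4 * (R : ℝ) ^ 2 + X / M) * (X / M))) := by ring
    _ ≤ (1 / (R : ℝ)) * (13 * (2 + Real.log X) * A * Real.sqrt B) * (4 * R * T) :=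
        mul_le_mul_of_nonneg_left hreal (by positivity)
    _ = 52 * (2 + Real.log X) * A * Real.sqrt B * T := by
        field_simp
        ring

private theorem dy_split (p : ℕ → ℕ) (hp : Monotone p) (f : ℕ → ℂ) (J : ℕ) :
    ∑ m ∈ Ioc (p 0) (p J), f m = ∑ j ∈ range J, ∑ m ∈ Ioc (p j) (p (j + 1)), f m := by
  induction J with
  | zero => simp
  | succ J ih =>
    rw [sum_range_succ, ← ih, Finset.sum_Ioc_consecutive f (hp (Nat.zero_le J)) (hp (Nat.le_succ J))]

theorem dyadic_bilin : ∃ C : ℝ, 0 < C ∧ ∀ (R X U W : ℕ) (a b : ℕ → ℂ) (A B : ℝ),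
    1 ≤ R → 3 ≤ X → 1 ≤ U → W ≤ X → 0 ≤ A → 0 ≤ B → (∀ m ≤ X, ‖a m‖ ≤ A) →
    (∀ y ≤ X, ∑ k ∈ Icc 1 y, ‖b k‖ ^ 2 ≤ B * y) →
    ∑ q ∈ Ioc R (2 * R), (1 / (Nat.totient q : ℝ)) * ∑ χ ∈ prim q,
        ‖∑ m ∈ Ioc U W, ∑ k ∈ Icc 1 (X / m), a m * b k * χ ((m * k : ℕ) : ZMod q)‖ ≤
      C * A * Real.sqrt B * Real.log X ^ 2 *
        (R * Real.sqrt X + X / Real.sqrt U + Real.sqrt (W * X) + X / R) := by
  classical
  refine ⟨468, by norm_num, ?_⟩
  intro R X U W a b A B hR hX hU hWX hA hB ha hb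
  have hR0 : (0 : ℝ) < R := by exact_mod_cast hR
  have hX3 : (3 : ℝ) ≤ X := by exact_mod_cast hX
  have hL : 1 ≤ Real.log X := by
    rw [Real.le_log_iff_exp_le (by linarith)]
    exact (Real.exp_one_lt_d9.le.trans (by norm_num)).trans hX3
  set T : ℝ := R * Real.sqrt X + X / Real.sqrt U + Real.sqrt (W * X) + X / R with hT
  have hT0 : 0 ≤ T := by positivity
  rcases le_or_gt W U with hWU | hUW
  · have h0 : Ioc U W = ∅ := Ioc_eq_empty (by omega)
    rw [h0]
    simp only [sum_empty, norm_zero, sum_const_zero, mul_zero]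
    positivity
  set J : ℕ := Nat.log 2 X + 1 with hJ
  have hXJ : X < 2 ^ J := Nat.lt_pow_succ_log_self (by norm_num) X
  set p : ℕ → ℕ := fun j => min (2 ^ j * U) W with hp
  have hpmono : Monotone p := by
    intro i j hij
    exact min_le_min_right _ (Nat.mul_le_mul_right _ (Nat.pow_le_pow_right (by norm_num) hij))
  have hp0 : p 0 = U := by
    rw [hp]
    dsimp only
    rw [pow_zero, one_mul, min_eq_left hUW.le]
  have hpJ : p J = W := by
    rw [hp]
    dsimp only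
    apply min_eq_right
    calc W ≤ X := hWX
      _ ≤ 2 ^ J * 1 := by omega
      _ ≤ 2 ^ J * U := Nat.mul_le_mul_left _ hU
  -- one block
  have hblock : ∀ j ∈ range J, ∑ q ∈ Ioc R (2 * R), (1 / (Nat.totient q : ℝ)) * ∑ χ ∈ prim q,
        ‖∑ m ∈ Ioc (p j) (p (j + 1)), ∑ k ∈ Icc 1 (X / m),
          a m * b k * χ ((m * k : ℕ) : ZMod q)‖ ≤
      52 * (2 + Real.log X) * A * Real.sqrt B * T := by
    intro j _
    rcases lt_or_ge (2 ^ j * U) W with h | h
    · have h1 : p j = 2 ^ j * U := min_eq_left h.le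
      have h2 : p (j + 1) = min (2 * (2 ^ j * U)) W := by
        rw [hp]
        dsimp only
        congr 1
        ring
      rw [h1, h2]
      exact dy_block R X U W (2 ^ j * U) a b A B hR hX hU hWX hA hB ha hb
        (Nat.le_mul_of_pos_left U (by positivity)) h
    · have h1 : p j = W := min_eq_right h
      have h2 : p (j + 1) = W := by
        apply min_eq_right
        refine h.trans (Nat.mul_le_mul_right _ (Nat.pow_le_pow_right (by norm_num) (Nat.le_succ j)))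
      rw [h1, h2, Ioc_self]
      simp only [sum_empty, norm_zero, sum_const_zero, mul_zero]
      have : 0 ≤ Real.log X := by linarith
      positivity
  -- splitting into blocks
  have hsplit : ∀ q : ℕ, ∀ χ : DirichletCharacter ℂ q,
      ‖∑ m ∈ Ioc U W, ∑ k ∈ Icc 1 (X / m), a m * b k * χ ((m * k : ℕ) : ZMod q)‖ ≤
      ∑ j ∈ range J, ‖∑ m ∈ Ioc (p j) (p (j + 1)), ∑ k ∈ Icc 1 (X / m),
          a m * b k * χ ((m * k : ℕ) : ZMod q)‖ := by
    intro q χ
    have h1 := dy_split p hpmono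
      (fun m => ∑ k ∈ Icc 1 (X / m), a m * b k * χ ((m * k : ℕ) : ZMod q)) J
    rw [hp0, hpJ] at h1
    rw [h1]
    exact norm_sum_le _ _
  have hJL : (J : ℝ) ≤ 3 * Real.log X := by
    have h1 : ((Nat.log 2 X : ℕ) : ℝ) * Real.log 2 ≤ Real.log X := by
      have h2 : 2 ^ (Nat.log 2 X) ≤ X := Nat.pow_log_le_self 2 (by omega)
      have h3 : (2 : ℝ) ^ (Nat.log 2 X) ≤ X := by exact_mod_cast h2
      have h4 := Real.log_le_log (by positivity) h3
      rwa [Real.log_pow] at h4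
    have h2 : (0.69 : ℝ) ≤ Real.log 2 := by
      have := Real.log_two_gt_d9
      linarith
    have h3 : (0 : ℝ) ≤ (Nat.log 2 X : ℝ) := Nat.cast_nonneg _
    have h4 : ((Nat.log 2 X : ℕ) : ℝ) ≤ 2 * Real.log X := by nlinarith
    rw [hJ]
    push_cast
    linarith
  have hC0 : 0 ≤ 52 * (2 + Real.log X) * A * Real.sqrt B * T := by
    have : 0 ≤ Real.log X := by linarith
    positivity
  calc ∑ q ∈ Ioc R (2 * R), (1 / (Nat.totient q : ℝ)) * ∑ χ ∈ prim q,
        ‖∑ m ∈ Ioc U W, ∑ k ∈ Icc 1 (X / m), a m * b k * χ ((m * k : ℕ) : ZMod q)‖ ≤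
      ∑ q ∈ Ioc R (2 * R), (1 / (Nat.totient q : ℝ)) * ∑ χ ∈ prim q,
        ∑ j ∈ range J, ‖∑ m ∈ Ioc (p j) (p (j + 1)), ∑ k ∈ Icc 1 (X / m),
          a m * b k * χ ((m * k : ℕ) : ZMod q)‖ := by
        refine sum_le_sum fun q _ => ?_
        apply mul_le_mul_of_nonneg_left _ (by positivity)
        exact sum_le_sum fun χ _ => hsplit q χ
    _ = ∑ j ∈ range J, ∑ q ∈ Ioc R (2 * R), (1 / (Nat.totient q : ℝ)) * ∑ χ ∈ prim q,
        ‖∑ m ∈ Ioc (p j) (p (j + 1)), ∑ k ∈ Icc 1 (X / m),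
          a m * b k * χ ((m * k : ℕ) : ZMod q)‖ := by
        rw [sum_comm]
        refine sum_congr rfl fun q _ => ?_
        rw [sum_comm, mul_sum]
    _ ≤ ∑ _j ∈ range J, 52 * (2 + Real.log X) * A * Real.sqrt B * T := sum_le_sum hblock
    _ = (J : ℝ) * (52 * (2 + Real.log X) * A * Real.sqrt B * T) := by
        rw [sum_const, card_range, nsmul_eq_mul]
    _ ≤ (3 * Real.log X) * (52 * (2 + Real.log X) * A * Real.sqrt B * T) :=
        mul_le_mul_of_nonneg_right hJL hC0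
    _ ≤ (3 * Real.log X) * (52 * (3 * Real.log X) * A * Real.sqrt B * T) := by
        apply mul_le_mul_of_nonneg_left _ (by linarith)
        have h1 : 2 + Real.log X ≤ 3 * Real.log X := by linarith
        have h2 : 0 ≤ A * Real.sqrt B * T := by positivity
        calc 52 * (2 + Real.log X) * A * Real.sqrt B * T =
            (2 + Real.log X) * (52 * (A * Real.sqrt B * T)) := by ring
          _ ≤ (3 * Real.log X) * (52 * (A * Real.sqrt B * T)) :=
              mul_le_mul_of_nonneg_right h1 (by positivity)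
          _ = _ := by ring
    _ = 468 * A * Real.sqrt B * Real.log X ^ 2 * T := by ring

end Pool.BV
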