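import Mathlib
import Pool.Agent.Lib.BV.Vaughan
import Pool.Agent.Lib.MP_dd84fd_nt.SW.SumTools

/-! BV-06: the sums of type I, by periodicity only. -/

set_option autoImplicit false

open Finset

namespace Pool.BV

theorem char_sum (q y : ℕ) (hq : 1 ≤ q) (χ : DirichletCharacter ℂ q) (hχ : χ ≠ 1) :
    ‖∑ k ∈ Icc 1 y, χ k‖ ≤ q := by
  have h := Pool.MP_dd84fd_nt.SW.char_sum_bound hq χ hχ (N := 1) (n := y + 1) (by omega)
  have e : Icc 1 y = Ico 1 (y + 1) := by
    ext k
    simp only [mem_Icc, mem_Ico]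
    omega
  rw [e]
  exact h

private lemma abel_aux (f : ℕ → ℂ) (y : ℕ) :
    ∑ k ∈ Icc 1 (y + 1), ((Real.log k : ℝ) : ℂ) * f k =
      ((Real.log (y + 1 : ℕ) : ℝ) : ℂ) * ∑ k ∈ Icc 1 (y + 1), f k -
      ∑ k ∈ Icc 1 y, (((Real.log (k + 1 : ℕ) - Real.log k : ℝ)) : ℂ) * ∑ j ∈ Icc 1 k, f j := by
  induction y with
  | zero => simp
  | succ y ih =>
    rw [Finset.sum_Icc_succ_top (by omega : 1 ≤ y + 1 + 1), ih,
      Finset.sum_Icc_succ_top (by omega : 1 ≤ y + 1 + 1) f,
      Finset.sum_Icc_succ_top (by omega : 1 ≤ y + 1)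
        (fun k => (((Real.log (k + 1 : ℕ) - Real.log k : ℝ)) : ℂ) * ∑ j ∈ Icc 1 k, f j)]
    push_cast
    ring

theorem char_log_sum (q y : ℕ) (hq : 1 ≤ q) (hy : 1 ≤ y) (χ : DirichletCharacter ℂ q)
    (hχ : χ ≠ 1) : ‖∑ k ∈ Icc 1 y, ((Real.log k : ℝ) : ℂ) * χ k‖ ≤ 2 * q * Real.log y := by
  obtain ⟨z, rfl⟩ : ∃ z, y = z + 1 := ⟨y - 1, by omega⟩
  have hmono : ∀ k : ℕ, 1 ≤ k → 0 ≤ Real.log (k + 1 : ℕ) - Real.log k := by
    intro k hk
    have h1 : (1 : ℝ) ≤ k := by exact_mod_cast hk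
    have h2 : Real.log k ≤ Real.log (k + 1 : ℕ) := Real.log_le_log (by linarith) (by push_cast; linarith)
    linarith
  have hT : ∀ w : ℕ, ‖∑ k ∈ Icc 1 w, (((Real.log (k + 1 : ℕ) - Real.log k : ℝ)) : ℂ) *
      ∑ j ∈ Icc 1 k, χ j‖ ≤ q * Real.log (w + 1 : ℕ) := by
    intro w
    induction w with
    | zero => simp
    | succ w ih =>
      rw [Finset.sum_Icc_succ_top (by omega : 1 ≤ w + 1)]
      refine (norm_add_le _ _).trans ?_
      rw [norm_mul, Complex.norm_real, Real.norm_eq_abs, abs_of_nonneg (hmono (w + 1) (by omega))]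
      have h1 := mul_le_mul_of_nonneg_left (char_sum q (w + 1) hq χ hχ) (hmono (w + 1) (by omega))
      calc _ ≤ q * Real.log (w + 1 : ℕ) +
            (Real.log (w + 1 + 1 : ℕ) - Real.log (w + 1 : ℕ)) * q := add_le_add ih h1
        _ = _ := by ring
  rw [abel_aux (fun k => χ k) z]
  refine (norm_sub_le _ _).trans ?_
  have hlog : 0 ≤ Real.log (z + 1 : ℕ) := Real.log_natCast_nonneg _
  rw [norm_mul, Complex.norm_real, Real.norm_eq_abs, abs_of_nonneg hlog]
  have h1 := mul_le_mul_of_nonneg_left (char_sum q (z + 1) hq χ hχ) hlog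
  calc _ ≤ Real.log (z + 1 : ℕ) * q + q * Real.log (z + 1 : ℕ) := add_le_add h1 (hT z)
    _ = _ := by ring

/-- The three parts of type I together. -/
theorem typeI (U X q : ℕ) (hU : 1 ≤ U) (hUX : U ≤ X) (hq : 1 ≤ q)
    (χ : DirichletCharacter ℂ q) (hχ : χ ≠ 1) :
    ‖∑ n ∈ Icc 1 (min U X), (ArithmeticFunction.vonMangoldt n : ℂ) * χ n‖
      + ‖∑ t ∈ Icc 1 U, ∑ k ∈ Icc 1 (X / t), (c1 U t : ℂ) * χ ((t * k : ℕ) : ZMod q)‖
      + ‖∑ d ∈ Icc 1 U, ∑ k ∈ Icc 1 (X / d),
          (((ArithmeticFunction.moebius d : ℤ) : ℂ)) * ((Real.log k : ℝ) : ℂ) *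
            χ ((d * k : ℕ) : ZMod q)‖ ≤ 4 * U * q * Real.log X := by
  have hX : 1 ≤ X := hU.trans hUX
  have hL : 0 ≤ Real.log X := Real.log_natCast_nonneg _
  have hq' : (1 : ℝ) ≤ q := by exact_mod_cast hq
  have hU' : (1 : ℝ) ≤ U := by exact_mod_cast hU
  have hlogle : ∀ n : ℕ, 1 ≤ n → n ≤ X → Real.log n ≤ Real.log X := by
    intro n hn hnX
    have h1 : (1 : ℝ) ≤ n := by exact_mod_cast hn
    exact Real.log_le_log (by linarith) (by exact_mod_cast hnX)
  have h1 : ‖∑ n ∈ Icc 1 (min U X), (ArithmeticFunction.vonMangoldt n : ℂ) * χ n‖ ≤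
      U * Real.log X := by
    rw [min_eq_left hUX]
    refine (norm_sum_le _ _).trans ?_
    calc ∑ n ∈ Icc 1 U, ‖(ArithmeticFunction.vonMangoldt n : ℂ) * χ n‖
        ≤ ∑ _n ∈ Icc 1 U, Real.log X := by
          refine Finset.sum_le_sum fun n hn => ?_
          rw [mem_Icc] at hn
          rw [norm_mul, Complex.norm_real, Real.norm_eq_abs,
            abs_of_nonneg ArithmeticFunction.vonMangoldt_nonneg]
          have h2 : ArithmeticFunction.vonMangoldt n ≤ Real.log X :=
            ArithmeticFunction.vonMangoldt_le_log.trans (hlogle n hn.1 (hn.2.trans hUX))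
          calc _ ≤ ArithmeticFunction.vonMangoldt n * 1 :=
                mul_le_mul_of_nonneg_left (DirichletCharacter.norm_le_one χ _)
                  ArithmeticFunction.vonMangoldt_nonneg
            _ ≤ Real.log X := by rw [mul_one]; exact h2
      _ = U * Real.log X := by
          rw [Finset.sum_const, Nat.card_Icc, nsmul_eq_mul, Nat.add_sub_cancel]
  have h2 : ‖∑ t ∈ Icc 1 U, ∑ k ∈ Icc 1 (X / t), (c1 U t : ℂ) * χ ((t * k : ℕ) : ZMod q)‖ ≤
      U * (Real.log X * q) := by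
    refine (norm_sum_le _ _).trans ?_
    calc ∑ t ∈ Icc 1 U, ‖∑ k ∈ Icc 1 (X / t), (c1 U t : ℂ) * χ ((t * k : ℕ) : ZMod q)‖
        ≤ ∑ _t ∈ Icc 1 U, Real.log X * q := by
          refine Finset.sum_le_sum fun t ht => ?_
          rw [mem_Icc] at ht
          have e : ∑ k ∈ Icc 1 (X / t), (c1 U t : ℂ) * χ ((t * k : ℕ) : ZMod q) =
              (c1 U t : ℂ) * (χ t * ∑ k ∈ Icc 1 (X / t), χ k) := by
            rw [Finset.mul_sum, Finset.mul_sum]
            refine Finset.sum_congr rfl fun k _ => ?_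
            rw [Nat.cast_mul, map_mul]
          rw [e, norm_mul, norm_mul, Complex.norm_real, Real.norm_eq_abs]
          have h3 : |c1 U t| ≤ Real.log X := (c1_bound U t).trans (hlogle t ht.1 (ht.2.trans hUX))
          have h4 : ‖χ (t : ZMod q)‖ * ‖∑ k ∈ Icc 1 (X / t), χ k‖ ≤ 1 * q :=
            mul_le_mul (DirichletCharacter.norm_le_one χ _) (char_sum q _ hq χ hχ)
              (norm_nonneg _) zero_le_one
          rw [one_mul] at h4
          exact mul_le_mul h3 h4 (by positivity) hL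
      _ = U * (Real.log X * q) := by
          rw [Finset.sum_const, Nat.card_Icc, nsmul_eq_mul, Nat.add_sub_cancel]
  have h3 : ‖∑ d ∈ Icc 1 U, ∑ k ∈ Icc 1 (X / d),
          (((ArithmeticFunction.moebius d : ℤ) : ℂ)) * ((Real.log k : ℝ) : ℂ) *
            χ ((d * k : ℕ) : ZMod q)‖ ≤ U * (2 * q * Real.log X) := by
    refine (norm_sum_le _ _).trans ?_
    calc ∑ d ∈ Icc 1 U, ‖∑ k ∈ Icc 1 (X / d),
          (((ArithmeticFunction.moebius d : ℤ) : ℂ)) * ((Real.log k : ℝ) : ℂ) *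
            χ ((d * k : ℕ) : ZMod q)‖
        ≤ ∑ _d ∈ Icc 1 U, 2 * q * Real.log X := by
          refine Finset.sum_le_sum fun t ht => ?_
          rw [mem_Icc] at ht
          have e : ∑ k ∈ Icc 1 (X / t), (((ArithmeticFunction.moebius t : ℤ) : ℂ)) *
              ((Real.log k : ℝ) : ℂ) * χ ((t * k : ℕ) : ZMod q) =
              (((ArithmeticFunction.moebius t : ℤ) : ℂ)) *
                (χ t * ∑ k ∈ Icc 1 (X / t), ((Real.log k : ℝ) : ℂ) * χ k) := by
            rw [Finset.mul_sum, Finset.mul_sum]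
            refine Finset.sum_congr rfl fun k _ => ?_
            rw [Nat.cast_mul, map_mul]
            ring
          have hXt : 1 ≤ X / t := (Nat.one_le_div_iff (by omega)).2 (ht.2.trans hUX)
          have hXt2 : X / t ≤ X := Nat.div_le_self _ _
          rw [e, norm_mul, norm_mul]
          have h4 : ‖(((ArithmeticFunction.moebius t : ℤ) : ℂ))‖ ≤ 1 := by
            rw [Complex.norm_intCast]
            exact_mod_cast ArithmeticFunction.abs_moebius_le_one (n := t)
          have h5 : ‖∑ k ∈ Icc 1 (X / t), ((Real.log k : ℝ) : ℂ) * χ k‖ ≤ 2 * q * Real.log X :=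
            (char_log_sum q _ hq hXt χ hχ).trans
              (mul_le_mul_of_nonneg_left (hlogle _ hXt hXt2) (by positivity))
          calc _ ≤ 1 * (1 * (2 * q * Real.log X)) := by
                refine mul_le_mul h4 ?_ (by positivity) zero_le_one
                exact mul_le_mul (DirichletCharacter.norm_le_one χ _) h5 (norm_nonneg _)
                  zero_le_one
            _ = _ := by ring
      _ = U * (2 * q * Real.log X) := by
          rw [Finset.sum_const, Nat.card_Icc, nsmul_eq_mul, Nat.add_sub_cancel]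
  have h4 : U * Real.log X ≤ U * Real.log X * q := by
    have : 0 ≤ U * Real.log X := by positivity
    nlinarith
  calc _ ≤ U * Real.log X + U * (Real.log X * q) + U * (2 * q * Real.log X) :=
        add_le_add (add_le_add h1 h2) h3
    _ ≤ U * Real.log X * q + U * (Real.log X * q) + U * (2 * q * Real.log X) := by linarith
    _ = _ := by ring

end Pool.BV
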