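import Mathlib
import Pool.Agent.Lib.BV.TypeI
import Pool.Agent.Lib.BV.Dyadic
import Pool.Agent.Lib.BV.DivMom

/-! BV-08: primitive characters with conductor in a dyadic interval. -/

set_option autoImplicit false

open Finset

namespace Pool.BV

private theorem primDy_card (q : ℕ) (hq : 1 ≤ q) : ((prim q).card : ℝ) ≤ (Nat.totient q : ℝ) := by
  have : NeZero q := ⟨by omega⟩
  have h : (prim q).card ≤ q.totient := by
    rw [← DirichletCharacter.card_eq_totient_of_hasEnoughRootsOfUnity ℂ q,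
      Nat.card_eq_fintype_card]
    exact Finset.card_le_univ _
  exact_mod_cast h

private theorem primDy_ne_one (q : ℕ) (hq : 2 ≤ q) (χ : DirichletCharacter ℂ q)
    (hχ : χ ∈ prim q) : χ ≠ 1 := by
  have : NeZero q := ⟨by omega⟩
  rintro rfl
  rw [mem_prim, DirichletCharacter.IsPrimitive, DirichletCharacter.conductor_one] at hχ
  omega

/-- the bilinear sums -/
private noncomputable def pdS (X : ℕ) (U W : ℕ) (a b : ℕ → ℂ) (q : ℕ)
    (χ : DirichletCharacter ℂ q) : ℂ :=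
  ∑ m ∈ Ioc U W, ∑ k ∈ Icc 1 (X / m), a m * b k * χ ((m * k : ℕ) : ZMod q)

private theorem primDy_psi (X U q : ℕ) (hU : 1 ≤ U) (hUX : U ^ 2 ≤ X) (hq : 2 ≤ q)
    (χ : DirichletCharacter ℂ q) (hχ : χ ∈ prim q) :
    ‖psi X χ‖ ≤ 4 * U * q * Real.log X +
      ‖pdS X U (U ^ 2) (fun m => (c1 U m : ℂ)) (fun _ => 1) q χ‖ +
      ‖pdS X U (X / U) (fun m => (ArithmeticFunction.vonMangoldt m : ℂ))
        (fun k => if U < k then (c2 U k : ℂ) else 0) q χ‖ := by
  have hUU : U ≤ U ^ 2 := by nlinarith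
  have hUX' : U ≤ X := hUU.trans hUX
  have hv := vaughan U X hU (fun n => χ ((n : ℕ) : ZMod q))
  have ht := typeI U X q hU hUX' (by omega) χ (primDy_ne_one q hq χ hχ)
  set T1 := ∑ n ∈ Icc 1 (min U X), (ArithmeticFunction.vonMangoldt n : ℂ) * χ n with hT1
  set T2 := ∑ t ∈ Icc 1 U, ∑ k ∈ Icc 1 (X / t), (c1 U t : ℂ) * χ ((t * k : ℕ) : ZMod q) with hT2
  set T3 := ∑ d ∈ Icc 1 U, ∑ k ∈ Icc 1 (X / d),
          (((ArithmeticFunction.moebius d : ℤ) : ℂ)) * ((Real.log k : ℝ) : ℂ) *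
            χ ((d * k : ℕ) : ZMod q) with hT3
  set S2 := pdS X U (U ^ 2) (fun m => (c1 U m : ℂ)) (fun _ => 1) q χ with hS2
  set S4 := pdS X U (X / U) (fun m => (ArithmeticFunction.vonMangoldt m : ℂ))
        (fun k => if U < k then (c2 U k : ℂ) else 0) q χ with hS4
  have e2 : ∑ t ∈ Icc 1 (U ^ 2), ∑ k ∈ Icc 1 (X / t), (c1 U t : ℂ) * χ ((t * k : ℕ) : ZMod q) =
      T2 + S2 := by
    have hsplit : Icc 1 (U ^ 2) = Icc 1 U ∪ Ioc U (U ^ 2) := by
      ext t
      simp only [Finset.mem_Icc, Finset.mem_union, Finset.mem_Ioc]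
      omega
    have hdis : Disjoint (Icc 1 U) (Ioc U (U ^ 2)) := by
      rw [Finset.disjoint_left]
      intro t h1 h2
      rw [Finset.mem_Icc] at h1
      rw [Finset.mem_Ioc] at h2
      omega
    rw [hsplit, Finset.sum_union hdis, hT2, hS2, pdS]
    simp only [mul_one]
  have e4 : ∑ m ∈ Ioc U X, ∑ k ∈ Ioc U (X / m),
          (ArithmeticFunction.vonMangoldt m : ℂ) * (c2 U k : ℂ) * χ ((m * k : ℕ) : ZMod q) = S4 := by
    rw [hS4, pdS]
    have hsub : Ioc U (X / U) ⊆ Ioc U X := Finset.Ioc_subset_Ioc_right (Nat.div_le_self _ _)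
    rw [← Finset.sum_subset hsub]
    · refine Finset.sum_congr rfl fun m hm => ?_
      have h1 : ∀ k, (ArithmeticFunction.vonMangoldt m : ℂ) * (if U < k then (c2 U k : ℂ) else 0) *
          χ ((m * k : ℕ) : ZMod q) = if U < k then
            (ArithmeticFunction.vonMangoldt m : ℂ) * (c2 U k : ℂ) * χ ((m * k : ℕ) : ZMod q)
            else 0 := by
        intro k
        split_ifs <;> ring
      simp only [h1]
      rw [← Finset.sum_filter]
      refine Finset.sum_congr ?_ fun _ _ => rfl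
      ext k
      simp only [Finset.mem_Ioc, Finset.mem_filter, Finset.mem_Icc]
      omega
    · intro m hm hm2
      rw [Finset.mem_Ioc] at hm hm2
      have h1 : X / U < m := by
        by_contra hcon
        exact hm2 ⟨hm.1, by omega⟩
      have h2 : X < m * U := by
        rwa [Nat.div_lt_iff_lt_mul (by omega)] at h1
      have h3 : X / m < U := by
        rw [Nat.div_lt_iff_lt_mul (by omega)]
        rwa [mul_comm]
      rw [Finset.Ioc_eq_empty (by omega), Finset.sum_empty]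
  have hpsi : psi X χ = T1 - (T2 + S2) + T3 + S4 := by
    rw [← e2, ← e4]
    exact hv
  rw [hpsi]
  calc ‖T1 - (T2 + S2) + T3 + S4‖ ≤ ‖T1 - (T2 + S2) + T3‖ + ‖S4‖ := norm_add_le _ _
    _ ≤ ‖T1 - (T2 + S2)‖ + ‖T3‖ + ‖S4‖ := by gcongr; exact norm_add_le _ _
    _ ≤ ‖T1‖ + ‖T2 + S2‖ + ‖T3‖ + ‖S4‖ := by gcongr; exact norm_sub_le _ _
    _ ≤ ‖T1‖ + (‖T2‖ + ‖S2‖) + ‖T3‖ + ‖S4‖ := by gcongr; exact norm_add_le _ _
    _ ≤ 4 * U * q * Real.log X + ‖S2‖ + ‖S4‖ := by linarith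

theorem prim_dyadic : ∃ (C : ℝ) (D : ℕ), 0 < C ∧ ∀ (R X U : ℕ), 1 ≤ R → 3 ≤ X → 1 ≤ U →
    U ^ 2 ≤ X →
    ∑ q ∈ Ioc R (2 * R), (1 / (Nat.totient q : ℝ)) * ∑ χ ∈ prim q, ‖psi X χ‖ ≤
      C * Real.log X ^ D * (X / R + X / Real.sqrt U + U * R * Real.sqrt X + U * (R : ℝ) ^ 2) := by
  obtain ⟨C1, hC1, hdy⟩ := dyadic_bilin
  obtain ⟨C2, hdm⟩ := div_mom 2
  refine ⟨8 + 2 * C1 + 2 * C1 * 2 ^ C2, C2 + 3, by positivity, ?_⟩
  intro R X U hR hX hU hUX
  have hUU : U ≤ U ^ 2 := by nlinarith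
  have hRr : (1 : ℝ) ≤ R := by exact_mod_cast hR
  have hUr : (1 : ℝ) ≤ U := by exact_mod_cast hU
  have hXr : (3 : ℝ) ≤ X := by exact_mod_cast hX
  set L := Real.log X with hL
  have hL1 : 1 ≤ L := by
    rw [hL, Real.le_log_iff_exp_le (by linarith)]
    have := Real.exp_one_lt_d9
    linarith
  have hL0 : 0 < L := by linarith
  -- the two bilinear sums
  have hS2 := hdy R X U (U ^ 2) (fun m => (c1 U m : ℂ)) (fun _ => 1) L 1 hR hX hU hUX hL0.le
    zero_le_one (fun m hm => by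
      rw [Complex.norm_real, Real.norm_eq_abs]
      refine (c1_bound U m).trans ?_
      rcases Nat.eq_zero_or_pos m with rfl | hm0
      · simp only [Nat.cast_zero, Real.log_zero]
        exact hL0.le
      · exact Real.log_le_log (by exact_mod_cast hm0) (by exact_mod_cast hm)) (fun y _ => by simp)
  have hS4 := hdy R X U (X / U) (fun m => (ArithmeticFunction.vonMangoldt m : ℂ))
    (fun k => if U < k then (c2 U k : ℂ) else 0) L ((1 + L) ^ C2) hR hX hU (Nat.div_le_self _ _)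
    hL0.le (by positivity) (fun m hm => by
      rw [Complex.norm_real, Real.norm_eq_abs, abs_of_nonneg ArithmeticFunction.vonMangoldt_nonneg]
      refine ArithmeticFunction.vonMangoldt_le_log.trans ?_
      rcases Nat.eq_zero_or_pos m with rfl | hm0
      · simp only [Nat.cast_zero, Real.log_zero]
        exact hL0.le
      · exact Real.log_le_log (by exact_mod_cast hm0) (by exact_mod_cast hm)) (fun y hy => by
      rcases Nat.eq_zero_or_pos y with rfl | hy0
      · simp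
      · have h1 : ∑ k ∈ Icc 1 y, ‖(if U < k then (c2 U k : ℂ) else 0)‖ ^ 2 ≤
            ∑ k ∈ Icc 1 y, (k.divisors.card : ℝ) ^ 2 := by
          refine Finset.sum_le_sum fun k _ => ?_
          split_ifs
          · rw [Complex.norm_real, Real.norm_eq_abs]
            exact pow_le_pow_left₀ (abs_nonneg _) (c2_bound U k) 2
          · rw [norm_zero, zero_pow two_ne_zero]
            positivity
        refine h1.trans ((hdm y hy0).1.trans ?_)
        rw [mul_comm]
        have h2 : Real.log y ≤ L := Real.log_le_log (by exact_mod_cast hy0) (by exact_mod_cast hy)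
        have h3 : 0 ≤ Real.log y := Real.log_nonneg (by exact_mod_cast hy0)
        have h4 : (1 + Real.log y) ^ C2 ≤ (1 + L) ^ C2 :=
          pow_le_pow_left₀ (by linarith) (by linarith) C2
        exact mul_le_mul_of_nonneg_right h4 (by positivity))
  -- pointwise bound
  have hpt : ∀ q ∈ Ioc R (2 * R), (1 / (Nat.totient q : ℝ)) * ∑ χ ∈ prim q, ‖psi X χ‖ ≤
      8 * U * R * L +
      (1 / (Nat.totient q : ℝ)) * ∑ χ ∈ prim q,
        ‖pdS X U (U ^ 2) (fun m => (c1 U m : ℂ)) (fun _ => 1) q χ‖ +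
      (1 / (Nat.totient q : ℝ)) * ∑ χ ∈ prim q,
        ‖pdS X U (X / U) (fun m => (ArithmeticFunction.vonMangoldt m : ℂ))
        (fun k => if U < k then (c2 U k : ℂ) else 0) q χ‖ := by
    intro q hq
    rw [Finset.mem_Ioc] at hq
    have hq2 : 2 ≤ q := by omega
    have hφ : (0 : ℝ) < (Nat.totient q : ℝ) := by exact_mod_cast Nat.totient_pos.2 (by omega)
    have hqR : (q : ℝ) ≤ 2 * R := by exact_mod_cast hq.2
    have h1 : ∑ χ ∈ prim q, ‖psi X χ‖ ≤ ∑ χ ∈ prim q, (8 * U * R * L +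
        ‖pdS X U (U ^ 2) (fun m => (c1 U m : ℂ)) (fun _ => 1) q χ‖ +
        ‖pdS X U (X / U) (fun m => (ArithmeticFunction.vonMangoldt m : ℂ))
        (fun k => if U < k then (c2 U k : ℂ) else 0) q χ‖) := by
      refine Finset.sum_le_sum fun χ hχ => ?_
      refine (primDy_psi X U q hU hUX hq2 χ hχ).trans ?_
      have h2 : 4 * (U : ℝ) * q * L ≤ 8 * U * R * L := by
        have h3 : 4 * (U : ℝ) * q * L ≤ 4 * (U : ℝ) * (2 * R) * L := by gcongr
        linarith
      linarith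
    have h2 : (1 / (Nat.totient q : ℝ)) * ∑ χ ∈ prim q, ‖psi X χ‖ ≤
        (1 / (Nat.totient q : ℝ)) * ∑ χ ∈ prim q, (8 * U * R * L +
        ‖pdS X U (U ^ 2) (fun m => (c1 U m : ℂ)) (fun _ => 1) q χ‖ +
        ‖pdS X U (X / U) (fun m => (ArithmeticFunction.vonMangoldt m : ℂ))
        (fun k => if U < k then (c2 U k : ℂ) else 0) q χ‖) :=
      mul_le_mul_of_nonneg_left h1 (by positivity)
    refine h2.trans ?_
    rw [Finset.sum_add_distrib, Finset.sum_add_distrib, mul_add, mul_add]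
    refine add_le_add (add_le_add ?_ le_rfl) le_rfl
    rw [Finset.sum_const, nsmul_eq_mul]
    have h3 := primDy_card q (by omega)
    have h4 : (1 / (Nat.totient q : ℝ)) * ((prim q).card : ℝ) ≤ 1 := by
      rw [one_div_mul_eq_div, div_le_one hφ]
      exact h3
    calc (1 / (Nat.totient q : ℝ)) * (((prim q).card : ℝ) * (8 * U * R * L)) =
        (1 / (Nat.totient q : ℝ)) * ((prim q).card : ℝ) * (8 * U * R * L) := by ring
      _ ≤ 1 * (8 * U * R * L) := mul_le_mul_of_nonneg_right h4 (by positivity)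
      _ = 8 * U * R * L := one_mul _
  refine (Finset.sum_le_sum hpt).trans ?_
  rw [Finset.sum_add_distrib, Finset.sum_add_distrib, Finset.sum_const, Nat.card_Ioc,
    nsmul_eq_mul]
  have hcard : ((2 * R - R : ℕ) : ℝ) = R := by
    have : 2 * R - R = R := by omega
    rw [this]
  rw [hcard]
  simp only [pdS]
  have hsX : (0 : ℝ) ≤ Real.sqrt X := Real.sqrt_nonneg _
  have hsU : (0 : ℝ) < Real.sqrt U := Real.sqrt_pos.2 (by linarith)
  have hX0 : (0 : ℝ) ≤ X := by linarith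
  -- sizes
  have hW2 : Real.sqrt (((U ^ 2 : ℕ) : ℝ) * X) = U * Real.sqrt X := by
    push_cast
    rw [Real.sqrt_mul (by positivity), Real.sqrt_sq (by linarith)]
  have hW4 : Real.sqrt (((X / U : ℕ) : ℝ) * X) ≤ X / Real.sqrt U := by
    have h1 : ((X / U : ℕ) : ℝ) ≤ (X : ℝ) / U := Nat.cast_div_le
    calc Real.sqrt (((X / U : ℕ) : ℝ) * X) ≤ Real.sqrt ((X : ℝ) / U * X) :=
          Real.sqrt_le_sqrt (mul_le_mul_of_nonneg_right h1 hX0)
      _ = Real.sqrt ((X : ℝ) ^ 2 / U) := by congr 1; ring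
      _ = X / Real.sqrt U := by
          rw [Real.sqrt_div' _ (by linarith), Real.sqrt_sq hX0]
  set a1 : ℝ := X / R with ha1
  set a2 : ℝ := X / Real.sqrt U with ha2
  set a3 : ℝ := U * R * Real.sqrt X with ha3
  set a4 : ℝ := U * (R : ℝ) ^ 2 with ha4
  have ha1' : 0 ≤ a1 := by positivity
  have ha2' : 0 ≤ a2 := by positivity
  have ha3' : 0 ≤ a3 := by positivity
  have ha4' : 0 ≤ a4 := by positivity
  have hRX : R * Real.sqrt X ≤ a3 := by
    rw [ha3]
    have : (R : ℝ) * Real.sqrt X ≤ U * (R * Real.sqrt X) :=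
      le_mul_of_one_le_left (by positivity) hUr
    linarith
  have hUXs : U * Real.sqrt X ≤ a3 := by
    rw [ha3]
    have : (U : ℝ) * Real.sqrt X ≤ R * (U * Real.sqrt X) :=
      le_mul_of_one_le_left (by positivity) hRr
    linarith
  rw [hW2, Real.sqrt_one, mul_one] at hS2
  -- powers of L
  have hLp : ∀ j, j ≤ C2 + 3 → L ^ j ≤ L ^ (C2 + 3) := fun j hj => pow_le_pow_right₀ hL1 hj
  have b1 : R * (8 * U * R * L) ≤ 8 * L ^ (C2 + 3) * a4 := by
    have h1 := hLp 1 (by omega)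
    rw [pow_one] at h1
    calc R * (8 * U * R * L) = 8 * L * a4 := by rw [ha4]; ring
      _ ≤ 8 * L ^ (C2 + 3) * a4 := by gcongr
  have b2 : C1 * L * L ^ 2 * (R * Real.sqrt X + a2 + U * Real.sqrt X + a1) ≤
      2 * C1 * L ^ (C2 + 3) * (a1 + a2 + a3) := by
    have h1 := hLp 3 (by omega)
    calc C1 * L * L ^ 2 * (R * Real.sqrt X + a2 + U * Real.sqrt X + a1) ≤
        C1 * L * L ^ 2 * (2 * (a1 + a2 + a3)) :=
          mul_le_mul_of_nonneg_left (by linarith) (by positivity)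
      _ = 2 * C1 * L ^ 3 * (a1 + a2 + a3) := by ring
      _ ≤ 2 * C1 * L ^ (C2 + 3) * (a1 + a2 + a3) := by gcongr
  have b4 : C1 * L * Real.sqrt ((1 + L) ^ C2) * L ^ 2 * (R * Real.sqrt X + a2 +
      Real.sqrt (((X / U : ℕ) : ℝ) * X) + a1) ≤
      2 * C1 * 2 ^ C2 * L ^ (C2 + 3) * (a1 + a2 + a3) := by
    have h1 : Real.sqrt ((1 + L) ^ C2) ≤ 2 ^ C2 * L ^ C2 := by
      have h2 : (1 : ℝ) ≤ (1 + L) ^ C2 := one_le_pow₀ (by linarith)
      have h3 : Real.sqrt ((1 + L) ^ C2) ≤ (1 + L) ^ C2 := by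
        rw [Real.sqrt_le_left (by linarith)]
        exact le_self_pow₀ h2 two_ne_zero
      refine h3.trans ?_
      rw [← mul_pow]
      exact pow_le_pow_left₀ (by linarith) (by linarith) C2
    calc C1 * L * Real.sqrt ((1 + L) ^ C2) * L ^ 2 * (R * Real.sqrt X + a2 +
      Real.sqrt (((X / U : ℕ) : ℝ) * X) + a1) ≤
        C1 * L * (2 ^ C2 * L ^ C2) * L ^ 2 * (2 * (a1 + a2 + a3)) := by
          gcongr
          linarith
      _ = 2 * C1 * 2 ^ C2 * L ^ (C2 + 3) * (a1 + a2 + a3) := by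
          rw [pow_add]
          ring
  have hfin : 8 * L ^ (C2 + 3) * a4 + 2 * C1 * L ^ (C2 + 3) * (a1 + a2 + a3) +
      2 * C1 * 2 ^ C2 * L ^ (C2 + 3) * (a1 + a2 + a3) ≤
      (8 + 2 * C1 + 2 * C1 * 2 ^ C2) * L ^ (C2 + 3) * (a1 + a2 + a3 + a4) := by
    have h1 : 0 ≤ L ^ (C2 + 3) := by positivity
    have h2 : 0 ≤ C1 * 2 ^ C2 := by positivity
    nlinarith [mul_nonneg h1 (add_nonneg (add_nonneg ha1' ha2') ha3'),
      mul_nonneg (mul_nonneg hC1.le h1) ha4', mul_nonneg (mul_nonneg h2 h1) ha4']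
  linarith

end Pool.BV
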