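import Mathlib
import Pool.Agent.Lib.BV.PrimDy

/-! BV-09: primitive characters with conductor between a power of `log X` and `√X / log^B X`. -/

set_option autoImplicit false

open Finset

namespace Pool.BV

/-- a sum over dyadic blocks -/
private theorem pm_dyadic_sum (g : ℕ → ℝ) (hg : ∀ q, 0 ≤ g q) (T : ℝ) (hT : 0 ≤ T) (Q1 Q : ℕ)
    (h : ∀ R, Q1 ≤ R → R < Q → ∑ q ∈ Ioc R (2 * R), g q ≤ T) :
    ∀ N Q' : ℕ, Q' ≤ 2 ^ N * Q1 → Q' ≤ Q → ∑ q ∈ Ioc Q1 Q', g q ≤ N * T := by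
  intro N
  induction N with
  | zero =>
    intro Q' hQ' _
    rw [pow_zero, one_mul] at hQ'
    rw [Finset.Ioc_eq_empty (by omega)]
    simp
  | succ N ih =>
    intro Q' hQ' hQQ
    push_cast
    by_cases hc : Q' ≤ 2 ^ N * Q1
    · have := ih Q' hc hQQ
      linarith
    · push Not at hc
      have h1 : Q1 ≤ 2 ^ N * Q1 := Nat.le_mul_of_pos_left _ (by positivity)
      have h2 : ∑ q ∈ Ioc Q1 Q', g q = ∑ q ∈ Ioc Q1 (2 ^ N * Q1), g q +
          ∑ q ∈ Ioc (2 ^ N * Q1) Q', g q := by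
        rw [Finset.sum_Ioc_consecutive _ h1 hc.le]
      have h3 : ∑ q ∈ Ioc (2 ^ N * Q1) Q', g q ≤
          ∑ q ∈ Ioc (2 ^ N * Q1) (2 * (2 ^ N * Q1)), g q := by
        apply Finset.sum_le_sum_of_subset_of_nonneg
        · apply Finset.Ioc_subset_Ioc_right
          rw [pow_succ] at hQ'
          nlinarith
        · intro q _ _
          exact hg q
      have h4 := h (2 ^ N * Q1) h1 (lt_of_lt_of_le hc hQQ)
      have h5 := ih (2 ^ N * Q1) le_rfl (hc.le.trans hQQ)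
      linarith

theorem prim_mid (A : ℕ) : ∃ B X0 : ℕ, ∀ X Q1 Q : ℕ, X0 ≤ X → Real.log X ^ B ≤ Q1 →
    (Q : ℝ) ≤ Real.sqrt X / Real.log X ^ B →
    ∑ q ∈ Ioc Q1 Q, (1 / (Nat.totient q : ℝ)) * ∑ χ ∈ prim q, ‖psi X χ‖ ≤
      X / Real.log X ^ A := by
  obtain ⟨C, D, hC, hdy⟩ := prim_dyadic
  obtain ⟨e, he⟩ : ∃ e : ℕ, e = A + D + 3 := ⟨_, rfl⟩
  have hev1 : ∀ᶠ X : ℕ in Filter.atTop, 18 * C + 1 ≤ Real.log X :=
    (Real.tendsto_log_atTop.comp tendsto_natCast_atTop_atTop).eventually_ge_atTop _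
  have hev2 : ∀ᶠ X : ℕ in Filter.atTop, 4 * Real.log X ^ (4 * e) ≤ X := by
    have h1 := (Real.isLittleO_pow_log_id_atTop (n := 4 * e)).bound (show (0 : ℝ) < 1 / 4 by norm_num)
    have h2 := tendsto_natCast_atTop_atTop (R := ℝ) |>.eventually h1
    filter_upwards [h2] with X hX
    simp only [id, Real.norm_eq_abs] at hX
    have h3 := le_abs_self (Real.log X ^ (4 * e))
    have h4 : |(X : ℝ)| = X := abs_of_nonneg (Nat.cast_nonneg _)
    rw [h4] at hX
    linarith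
  obtain ⟨X0, hX0⟩ := Filter.eventually_atTop.mp (hev1.and (hev2.and (Filter.eventually_ge_atTop 3)))
  refine ⟨3 * e, X0, fun X Q1 Q hX hQ1 hQ => ?_⟩
  obtain ⟨hL1, hL2, hX3⟩ := hX0 X hX
  obtain ⟨L, hL⟩ : ∃ L : ℝ, L = Real.log X := ⟨_, rfl⟩
  rw [← hL] at hL1 hL2 hQ1 hQ ⊢
  have hL18 : 18 * C ≤ L := by linarith
  have hL01 : 1 ≤ L := by linarith
  have hL0 : 0 < L := by linarith
  have hXR : (0 : ℝ) < X := by
    have : 0 < X := by omega
    exact_mod_cast this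
  have hLe : ∀ n : ℕ, 1 ≤ L ^ n := fun n => one_le_pow₀ hL01
  have hQ1pos : 1 ≤ Q1 := by
    have h1 : (1 : ℝ) ≤ Q1 := (hLe _).trans hQ1
    exact_mod_cast h1
  -- the parameter `U`
  obtain ⟨U, hU⟩ : ∃ U : ℕ, U = ⌈L ^ (2 * e)⌉₊ := ⟨_, rfl⟩
  have hUlow : L ^ (2 * e) ≤ U := by rw [hU]; exact Nat.le_ceil _
  have hUup : (U : ℝ) ≤ 2 * L ^ (2 * e) := by
    have h1 : (U : ℝ) < L ^ (2 * e) + 1 := by
      rw [hU]; exact Nat.ceil_lt_add_one (by positivity)
    have h2 := hLe (2 * e)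
    linarith
  have hU1 : 1 ≤ U := by
    have h1 : (1 : ℝ) ≤ U := (hLe _).trans hUlow
    exact_mod_cast h1
  have hU2 : U ^ 2 ≤ X := by
    have h1 : (U : ℝ) ^ 2 ≤ X := by
      calc (U : ℝ) ^ 2 ≤ (2 * L ^ (2 * e)) ^ 2 := pow_le_pow_left₀ (Nat.cast_nonneg _) hUup 2
        _ = 4 * L ^ (4 * e) := by rw [mul_pow, ← pow_mul]; norm_num; ring
        _ ≤ X := hL2
    exact_mod_cast h1
  have hUs : L ^ e ≤ Real.sqrt U := by
    apply Real.le_sqrt_of_sq_le
    rw [← pow_mul, mul_comm e 2]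
    exact hUlow
  have hsX : 0 ≤ Real.sqrt X := Real.sqrt_nonneg _
  have hsX2 : Real.sqrt X * Real.sqrt X = X := Real.mul_self_sqrt hXR.le
  obtain ⟨T, hT⟩ : ∃ T : ℝ, T = C * L ^ D * (6 * (X / L ^ e)) := ⟨_, rfl⟩
  have hT0 : 0 ≤ T := by rw [hT]; positivity
  -- one block
  have hblock : ∀ R, Q1 ≤ R → R < Q →
      ∑ q ∈ Ioc R (2 * R), (1 / (Nat.totient q : ℝ)) * ∑ χ ∈ prim q, ‖psi X χ‖ ≤ T := by
    intro R hR1 hR2
    have hRpos : 1 ≤ R := hQ1pos.trans hR1
    have hRlow : L ^ (3 * e) ≤ R := hQ1.trans (by exact_mod_cast hR1)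
    have hRup : (R : ℝ) ≤ Real.sqrt X / L ^ (3 * e) := by
      refine le_trans ?_ hQ
      exact_mod_cast hR2.le
    have hRup' : (R : ℝ) * L ^ (3 * e) ≤ Real.sqrt X := by
      rwa [le_div_iff₀ (by positivity)] at hRup
    refine (hdy R X U hRpos hX3 hU1 hU2).trans ?_
    rw [← hL, hT]
    apply mul_le_mul_of_nonneg_left _ (by positivity)
    have hRR : (0 : ℝ) < R := by exact_mod_cast hRpos
    have hle3 : L ^ e ≤ L ^ (3 * e) := pow_le_pow_right₀ hL01 (by omega)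
    -- term 1
    have t1 : (X : ℝ) / R ≤ X / L ^ e :=
      div_le_div_of_nonneg_left hXR.le (by positivity) (hle3.trans hRlow)
    have t2 : (X : ℝ) / Real.sqrt U ≤ X / L ^ e :=
      div_le_div_of_nonneg_left hXR.le (by positivity) hUs
    have t3 : (U : ℝ) * R * Real.sqrt X ≤ 2 * (X / L ^ e) := by
      have h1 : (U : ℝ) * R * Real.sqrt X * L ^ e ≤ 2 * X := by
        calc (U : ℝ) * R * Real.sqrt X * L ^ e ≤ (2 * L ^ (2 * e)) * R * Real.sqrt X * L ^ e := by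
              gcongr
          _ = 2 * (R * L ^ (3 * e)) * Real.sqrt X := by
              rw [show 3 * e = 2 * e + e by ring, pow_add]; ring
          _ ≤ 2 * Real.sqrt X * Real.sqrt X := by gcongr
          _ = 2 * X := by rw [mul_assoc, hsX2]
      rw [← mul_div_assoc, le_div_iff₀ (by positivity)]
      exact h1
    have t4 : (U : ℝ) * (R : ℝ) ^ 2 ≤ 2 * (X / L ^ e) := by
      have h0 : (R : ℝ) ≤ Real.sqrt X := by
        have := le_mul_of_one_le_right hRR.le (hLe (3 * e))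
        linarith
      calc (U : ℝ) * (R : ℝ) ^ 2 = U * R * R := by ring
        _ ≤ U * R * Real.sqrt X := by gcongr
        _ ≤ _ := t3
    linarith
  -- the number of blocks
  by_cases hQQ : Q ≤ Q1
  · rw [Finset.Ioc_eq_empty (by omega), Finset.sum_empty]
    positivity
  push Not at hQQ
  have hQ0 : 1 ≤ Q := by omega
  have hN := pm_dyadic_sum (fun q => (1 / (Nat.totient q : ℝ)) * ∑ χ ∈ prim q, ‖psi X χ‖)
    (fun q => by positivity) T hT0 Q1 Q hblock (Nat.log 2 Q + 1) Q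
    (by
      have h1 : Q < 2 ^ (Nat.log 2 Q + 1) := Nat.lt_pow_succ_log_self (by norm_num) Q
      nlinarith) le_rfl
  refine hN.trans ?_
  have hNL : ((Nat.log 2 Q + 1 : ℕ) : ℝ) ≤ 3 * L := by
    have h1 : ((Nat.log 2 Q : ℕ) : ℝ) ≤ Real.logb 2 Q := by
      have := Real.natLog_le_logb Q 2
      exact_mod_cast this
    have h2 : Real.logb 2 Q ≤ 2 * L := by
      unfold Real.logb
      have hlog2 : (1 : ℝ) / 2 < Real.log 2 := by
        have := Real.log_two_gt_d9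
        linarith
      rw [div_le_iff₀ (by linarith)]
      have hQX : (Q : ℝ) ≤ X := by
        have h3 : (Q : ℝ) * L ^ (3 * e) ≤ Real.sqrt X := by
          rwa [le_div_iff₀ (by positivity)] at hQ
        have h4 : (Q : ℝ) ≤ Q * L ^ (3 * e) := le_mul_of_one_le_right (Nat.cast_nonneg _) (hLe _)
        have h5 : Real.sqrt X ≤ X := by
          have h6 : (1 : ℝ) ≤ Real.sqrt X := by
            rw [Real.one_le_sqrt]
            have : 1 ≤ X := by omega
            exact_mod_cast this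
          nlinarith
        linarith
      have h7 : Real.log Q ≤ L := by
        rw [hL]
        apply Real.log_le_log _ hQX
        exact_mod_cast hQ0
      nlinarith
    push_cast
    linarith
  calc ((Nat.log 2 Q + 1 : ℕ) : ℝ) * T ≤ 3 * L * T := mul_le_mul_of_nonneg_right hNL hT0
    _ = 18 * C * (L ^ (D + 1) * (X / L ^ e)) := by rw [hT]; ring
    _ ≤ L * (L ^ (D + 1) * (X / L ^ e)) := mul_le_mul_of_nonneg_right hL18 (by positivity)
    _ ≤ L * L * (L ^ (D + 1) * (X / L ^ e)) := by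
        apply mul_le_mul_of_nonneg_right _ (by positivity)
        nlinarith
    _ = X / L ^ A := by
        rw [he, show A + D + 3 = A + (D + 3) by ring, pow_add L A (D + 3)]
        field_simp
        ring

end Pool.BV
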