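import Mathlib
import Pool.Agent.Lib.BV.Defs
import Pool.Agent.Lib.MP_dd84fd_nt.SW.LamChar

/-! BV-10: small conductors, by Siegel-Walfisz. -/

set_option autoImplicit false

open Finset

namespace Pool.BV

private lemma card_prim_le (q : ℕ) (hq : 1 ≤ q) : (prim q).card ≤ Nat.totient q := by
  have : NeZero q := ⟨by omega⟩
  rw [← DirichletCharacter.card_eq_totient_of_hasEnoughRootsOfUnity ℂ q, Nat.card_eq_fintype_card]
  exact Finset.card_le_univ _

private lemma prim_ne_one (q : ℕ) (hq : 2 ≤ q) (χ : DirichletCharacter ℂ q) (h : χ ∈ prim q) :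
    χ ≠ 1 := by
  rintro rfl
  have : NeZero q := ⟨by omega⟩
  rw [mem_prim, DirichletCharacter.isPrimitive_def, DirichletCharacter.conductor_one] at h
  omega

theorem prim_small (A B : ℕ) : ∃ X0 : ℕ, ∀ X Q1 : ℕ, X0 ≤ X → (Q1 : ℝ) ≤ Real.log X ^ B →
    ∑ q ∈ Icc 2 Q1, (1 / (Nat.totient q : ℝ)) * ∑ χ ∈ prim q, ‖psi X χ‖ ≤
      X / Real.log X ^ A := by
  obtain ⟨X0, hX0⟩ := Pool.MP_dd84fd_nt.SW.lam_char (A + B) B
  refine ⟨max X0 3, fun X Q1 hX hQ1 => ?_⟩
  have hX3 : 3 ≤ X := (le_max_right _ _).trans hX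
  have hXX : X0 ≤ X := (le_max_left _ _).trans hX
  have hXr : (3 : ℝ) ≤ X := by exact_mod_cast hX3
  have hL : 0 < Real.log X := Real.log_pos (by linarith)
  have h1 : ∀ q ∈ Icc 2 Q1, (1 / (Nat.totient q : ℝ)) * ∑ χ ∈ prim q, ‖psi X χ‖ ≤
      X / Real.log X ^ (A + B) := by
    intro q hq
    rw [mem_Icc] at hq
    have hq1 : (q : ℝ) ≤ Real.log X ^ B := le_trans (by exact_mod_cast hq.2) hQ1
    have h2 : ∑ χ ∈ prim q, ‖psi X χ‖ ≤ (Nat.totient q : ℝ) * (X / Real.log X ^ (A + B)) := by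
      calc ∑ χ ∈ prim q, ‖psi X χ‖ ≤ ∑ _χ ∈ prim q, (X / Real.log X ^ (A + B) : ℝ) :=
            Finset.sum_le_sum fun χ hχ => hX0 X hXX q χ (by omega) hq1
              (prim_ne_one q hq.1 χ hχ)
        _ = (prim q).card * (X / Real.log X ^ (A + B)) := by
            rw [Finset.sum_const, nsmul_eq_mul]
        _ ≤ _ := by
            refine mul_le_mul_of_nonneg_right ?_ (by positivity)
            exact_mod_cast card_prim_le q (by omega)
    have h3 : (0 : ℝ) < Nat.totient q := by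
      exact_mod_cast Nat.totient_pos.2 (by omega)
    calc (1 / (Nat.totient q : ℝ)) * ∑ χ ∈ prim q, ‖psi X χ‖
        ≤ (1 / (Nat.totient q : ℝ)) * ((Nat.totient q : ℝ) * (X / Real.log X ^ (A + B))) :=
          mul_le_mul_of_nonneg_left h2 (by positivity)
      _ = _ := by field_simp
  calc ∑ q ∈ Icc 2 Q1, (1 / (Nat.totient q : ℝ)) * ∑ χ ∈ prim q, ‖psi X χ‖
      ≤ ∑ _q ∈ Icc 2 Q1, (X / Real.log X ^ (A + B) : ℝ) := Finset.sum_le_sum h1
    _ = ((Icc 2 Q1).card : ℝ) * (X / Real.log X ^ (A + B)) := by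
        rw [Finset.sum_const, nsmul_eq_mul]
    _ ≤ Real.log X ^ B * (X / Real.log X ^ (A + B)) := by
        refine mul_le_mul_of_nonneg_right (le_trans ?_ hQ1) (by positivity)
        rw [Nat.card_Icc]
        exact_mod_cast (by omega : Q1 + 1 - 2 ≤ Q1)
    _ = X / Real.log X ^ A := by
        rw [pow_add]
        field_simp

end Pool.BV
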