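import Mathlib

/-! BV-12: sums over the totient function. -/

set_option autoImplicit false

open Finset

namespace Pool.BV

theorem tot_mul (a b : ℕ) : Nat.totient a * Nat.totient b ≤ Nat.totient (a * b) :=
  Nat.totient_super_multiplicative a b

private theorem Tot_prod (S : Finset ℕ) (hS : ∀ p ∈ S, 2 ≤ p) :
    ∏ p ∈ S, (p : ℝ) ≤ (S.card + 1) * ∏ p ∈ S, ((p : ℝ) - 1) := by
  classical
  induction S using Finset.induction_on_max with
  | empty => simp
  | insert p T hmax ih =>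
    have hp : p ∉ T := fun h => lt_irrefl _ (hmax p h)
    rw [prod_insert hp, prod_insert hp, card_insert_of_notMem hp]
    have hT : ∀ x ∈ T, 2 ≤ x := fun x hx => hS x (mem_insert_of_mem hx)
    have h1 := ih hT
    have h2 : 2 ≤ p := hS p (mem_insert_self _ _)
    have hcard : T.card + 2 ≤ p := by
      have h3 : T ⊆ Finset.Ico 2 p := fun x hx => Finset.mem_Ico.mpr ⟨hT x hx, hmax x hx⟩
      have h4 := card_le_card h3
      rw [Nat.card_Ico] at h4
      omega
    have hcard' : (T.card : ℝ) + 2 ≤ p := by exact_mod_cast hcard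
    have hpos : 0 ≤ ∏ x ∈ T, ((x : ℝ) - 1) := by
      apply prod_nonneg
      intro x hx
      have : (2 : ℝ) ≤ x := by exact_mod_cast hT x hx
      linarith
    push_cast
    have h5 : (p : ℝ) * (T.card + 1) ≤ (T.card + 1 + 1) * (p - 1) := by nlinarith
    calc (p : ℝ) * ∏ x ∈ T, (x : ℝ) ≤ p * ((T.card + 1) * ∏ x ∈ T, ((x : ℝ) - 1)) :=
          mul_le_mul_of_nonneg_left h1 (by positivity)
      _ = (p * (T.card + 1)) * ∏ x ∈ T, ((x : ℝ) - 1) := by ring
      _ ≤ ((T.card + 1 + 1) * (p - 1)) * ∏ x ∈ T, ((x : ℝ) - 1) :=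
          mul_le_mul_of_nonneg_right h5 hpos
      _ = _ := by ring

private theorem Tot_lower (k : ℕ) (hk : 1 ≤ k) :
    (k : ℝ) ≤ (k.primeFactors.card + 1) * (Nat.totient k : ℝ) := by
  have h1 := Nat.totient_mul_prod_primeFactors k
  have h2 := Tot_prod k.primeFactors (fun p hp => (Nat.prime_of_mem_primeFactors hp).two_le)
  have h3 : ((Nat.totient k : ℝ)) * ∏ p ∈ k.primeFactors, (p : ℝ) =
      k * ∏ p ∈ k.primeFactors, ((p : ℝ) - 1) := by
    have h4 : ((Nat.totient k * ∏ p ∈ k.primeFactors, p : ℕ) : ℝ) =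
        ((k * ∏ p ∈ k.primeFactors, (p - 1) : ℕ) : ℝ) := by rw [h1]
    push_cast at h4
    rw [h4]
    congr 1
    apply prod_congr rfl
    intro p hp
    have := (Nat.prime_of_mem_primeFactors hp).one_le
    push_cast [Nat.cast_sub this]
    rfl
  have hpos : 0 < ∏ p ∈ k.primeFactors, ((p : ℝ) - 1) := by
    apply prod_pos
    intro p hp
    have : (2 : ℝ) ≤ p := by exact_mod_cast (Nat.prime_of_mem_primeFactors hp).two_le
    linarith
  have h5 : (k : ℝ) * ∏ p ∈ k.primeFactors, ((p : ℝ) - 1) ≤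
      ((k.primeFactors.card + 1) * (Nat.totient k : ℝ)) * ∏ p ∈ k.primeFactors, ((p : ℝ) - 1) := by
    rw [← h3]
    calc (Nat.totient k : ℝ) * ∏ p ∈ k.primeFactors, (p : ℝ) ≤
        (Nat.totient k : ℝ) * ((k.primeFactors.card + 1) * ∏ p ∈ k.primeFactors, ((p : ℝ) - 1)) :=
          mul_le_mul_of_nonneg_left h2 (by positivity)
      _ = _ := by ring
  exact le_of_mul_le_mul_right h5 hpos

private theorem Tot_omega (k : ℕ) (hk : 1 ≤ k) :
    (k.primeFactors.card : ℝ) * Real.log 2 ≤ Real.log k := by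
  have h1 : 2 ^ k.primeFactors.card ≤ k := by
    calc 2 ^ k.primeFactors.card ≤ ∏ p ∈ k.primeFactors, p := by
          rw [← prod_const]
          apply prod_le_prod'
          intro p hp
          exact (Nat.prime_of_mem_primeFactors hp).two_le
      _ ≤ k := Nat.le_of_dvd (by omega) (Nat.prod_primeFactors_dvd k)
  have h2 : ((2 : ℝ) ^ k.primeFactors.card) ≤ k := by exact_mod_cast h1
  have h3 := Real.log_le_log (by positivity) h2
  rw [Real.log_pow] at h3
  exact h3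

theorem tot_sum (Q : ℕ) (hQ : 1 ≤ Q) :
    ∑ k ∈ Icc 1 Q, 1 / (Nat.totient k : ℝ) ≤ 3 * (1 + Real.log Q) ^ 2 := by
  have hL : 0 ≤ Real.log Q := Real.log_natCast_nonneg Q
  have hl2 : 0.69 < Real.log 2 := by
    have := Real.log_two_gt_d9
    linarith
  have h1 : ∀ k ∈ Icc 1 Q, 1 / (Nat.totient k : ℝ) ≤ (3 * (1 + Real.log Q)) * (k : ℝ)⁻¹ := by
    intro k hk
    rw [mem_Icc] at hk
    have hk0 : (0 : ℝ) < k := by exact_mod_cast hk.1
    have ht0 : (0 : ℝ) < Nat.totient k := by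
      exact_mod_cast Nat.totient_pos.mpr hk.1
    have h2 := Tot_lower k hk.1
    have h3 := Tot_omega k hk.1
    have h4 : Real.log k ≤ Real.log Q := Real.log_le_log hk0 (by exact_mod_cast hk.2)
    have h5 : (k.primeFactors.card : ℝ) + 1 ≤ 3 * (1 + Real.log Q) := by
      have h6 : (k.primeFactors.card : ℝ) * 0.69 ≤ Real.log Q := by
        have : (0 : ℝ) ≤ k.primeFactors.card := Nat.cast_nonneg _
        nlinarith
      linarith
    rw [div_le_iff₀ ht0]
    have h7 : (k : ℝ) ≤ (3 * (1 + Real.log Q)) * (Nat.totient k : ℝ) :=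
      h2.trans (mul_le_mul_of_nonneg_right h5 ht0.le)
    calc (1 : ℝ) = k * (k : ℝ)⁻¹ := (mul_inv_cancel₀ hk0.ne').symm
      _ ≤ ((3 * (1 + Real.log Q)) * (Nat.totient k : ℝ)) * (k : ℝ)⁻¹ :=
          mul_le_mul_of_nonneg_right h7 (by positivity)
      _ = _ := by ring
  have h8 : ∑ k ∈ Icc 1 Q, (k : ℝ)⁻¹ ≤ 1 + Real.log Q := by
    have h9 := harmonic_le_one_add_log Q
    rw [harmonic_eq_sum_Icc] at h9
    push_cast at h9
    exact h9
  calc _ ≤ ∑ k ∈ Icc 1 Q, (3 * (1 + Real.log Q)) * (k : ℝ)⁻¹ := sum_le_sum h1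
    _ = (3 * (1 + Real.log Q)) * ∑ k ∈ Icc 1 Q, (k : ℝ)⁻¹ := by rw [mul_sum]
    _ ≤ (3 * (1 + Real.log Q)) * (1 + Real.log Q) :=
        mul_le_mul_of_nonneg_left h8 (by positivity)
    _ = _ := by ring

/-- Sorting by conductors costs `∑ 1/φ`. -/
theorem tot_sort (Q : ℕ) (hQ : 1 ≤ Q) (g : ℕ → ℝ) (hg : ∀ r, 0 ≤ g r) :
    ∑ q ∈ Icc 1 Q, (1 / (Nat.totient q : ℝ)) * ∑ r ∈ q.divisors.filter (fun r => 2 ≤ r), g r ≤
      3 * (1 + Real.log Q) ^ 2 * ∑ r ∈ Icc 2 Q, (1 / (Nat.totient r : ℝ)) * g r := by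
  classical
  have h1 : ∀ q ∈ Icc 1 Q, (1 / (Nat.totient q : ℝ)) *
      ∑ r ∈ q.divisors.filter (fun r => 2 ≤ r), g r =
      ∑ r ∈ Icc 2 Q, if r ∣ q then (1 / (Nat.totient q : ℝ)) * g r else 0 := by
    intro q hq
    rw [mem_Icc] at hq
    rw [mul_sum, ← sum_filter]
    apply sum_congr _ fun _ _ => rfl
    ext r
    simp only [mem_filter, Nat.mem_divisors, mem_Icc]
    constructor
    · rintro ⟨⟨h1, h2⟩, h3⟩
      exact ⟨⟨h3, (Nat.le_of_dvd (by omega) h1).trans hq.2⟩, h1⟩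
    · rintro ⟨⟨h1, h2⟩, h3⟩
      exact ⟨⟨h3, by omega⟩, h1⟩
  rw [sum_congr rfl h1, sum_comm, mul_sum]
  apply sum_le_sum
  intro r hr
  rw [mem_Icc] at hr
  have hφr : (0 : ℝ) < Nat.totient r := by
    exact_mod_cast Nat.totient_pos.mpr (by omega)
  rw [← sum_filter]
  have h2 : (Icc 1 Q).filter (fun q => r ∣ q) ⊆ (Icc 1 Q).image (fun k => r * k) := by
    intro q hq
    rw [mem_filter, mem_Icc] at hq
    obtain ⟨k, rfl⟩ := hq.2
    rw [mem_image]
    refine ⟨k, mem_Icc.mpr ⟨?_, ?_⟩, rfl⟩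
    · rcases Nat.eq_zero_or_pos k with h | h
      · rw [h] at hq; omega
      · exact h
    · calc k ≤ r * k := Nat.le_mul_of_pos_left k (by omega)
        _ ≤ Q := hq.1.2
  have hinj : Function.Injective (fun k : ℕ => r * k) := fun a b h =>
    Nat.eq_of_mul_eq_mul_left (by omega) h
  calc ∑ q ∈ (Icc 1 Q).filter (fun q => r ∣ q), (1 / (Nat.totient q : ℝ)) * g r ≤
      ∑ q ∈ (Icc 1 Q).image (fun k => r * k), (1 / (Nat.totient q : ℝ)) * g r := by
        apply sum_le_sum_of_subset_of_nonneg h2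
        intro i _ _
        have := hg r
        positivity
    _ = ∑ k ∈ Icc 1 Q, (1 / (Nat.totient (r * k) : ℝ)) * g r := sum_image (fun _ _ _ _ h => hinj h)
    _ ≤ ∑ k ∈ Icc 1 Q, ((1 / (Nat.totient r : ℝ)) * g r) * (1 / (Nat.totient k : ℝ)) := by
        apply sum_le_sum
        intro k hk
        rw [mem_Icc] at hk
        have hφk : (0 : ℝ) < Nat.totient k := by
          exact_mod_cast Nat.totient_pos.mpr hk.1
        have h3 : ((Nat.totient r : ℝ)) * Nat.totient k ≤ Nat.totient (r * k) := by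
          exact_mod_cast tot_mul r k
        have h4 : 1 / (Nat.totient (r * k) : ℝ) ≤ 1 / ((Nat.totient r : ℝ) * Nat.totient k) :=
          one_div_le_one_div_of_le (by positivity) h3
        calc _ ≤ (1 / ((Nat.totient r : ℝ) * Nat.totient k)) * g r :=
              mul_le_mul_of_nonneg_right h4 (hg r)
          _ = _ := by field_simp
    _ = ((1 / (Nat.totient r : ℝ)) * g r) * ∑ k ∈ Icc 1 Q, (1 / (Nat.totient k : ℝ)) := by
        rw [mul_sum]
    _ ≤ ((1 / (Nat.totient r : ℝ)) * g r) * (3 * (1 + Real.log Q) ^ 2) := by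
        apply mul_le_mul_of_nonneg_left (tot_sum Q hQ)
        have := hg r
        positivity
    _ = _ := by ring

end Pool.BV
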