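import Mathlib
import Pool.Agent.Lib.BV.Expand
import Pool.Agent.Lib.BV.Tot
import Pool.Agent.Lib.BV.PrimMid
import Pool.Agent.Lib.BV.PrimSmall
import Pool.Agent.Lib.MP_dd84fd_nt.SW.PNT

/-! BV-14: the Bombieri-Vinogradov theorem for a fixed `X`. -/

set_option autoImplicit false

open Finset

namespace Pool.BV

theorem bv_fix (A : ℕ) : ∃ B X0 : ℕ, ∀ X Q : ℕ, X0 ≤ X →
    (Q : ℝ) ≤ Real.sqrt X / Real.log X ^ B → ∀ a : ℕ → ℕ, (∀ q, (a q).Coprime q) →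
    ∑ q ∈ Icc 1 Q, |Er X q (a q)| ≤ X / Real.log X ^ A := by
  obtain ⟨B, X1, hmid⟩ := prim_mid (A + 5)
  obtain ⟨X2, hsmall⟩ := prim_small (A + 5) (B + 1)
  obtain ⟨X3, hpnt⟩ := MP_dd84fd_nt.SW.pnt (A + 5)
  have hev1 : ∀ᶠ X : ℕ in Filter.atTop, (72 : ℝ) ≤ Real.log X :=
    (Real.tendsto_log_atTop.comp tendsto_natCast_atTop_atTop).eventually_ge_atTop _
  have hev2 : ∀ᶠ X : ℕ in Filter.atTop, 64 * Real.log X ^ (2 * (A + 2)) ≤ X := by
    have h1 := (Real.isLittleO_pow_log_id_atTop (n := 2 * (A + 2))).bound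
      (show (0 : ℝ) < 1 / 64 by norm_num)
    have h2 := tendsto_natCast_atTop_atTop (R := ℝ) |>.eventually h1
    filter_upwards [h2] with X hX
    simp only [id, Real.norm_eq_abs] at hX
    have h3 := le_abs_self (Real.log X ^ (2 * (A + 2)))
    have h4 : |(X : ℝ)| = X := abs_of_nonneg (Nat.cast_nonneg _)
    rw [h4] at hX
    linarith
  obtain ⟨X0, hX0⟩ := Filter.eventually_atTop.mp (hev1.and (hev2.and (Filter.eventually_ge_atTop
    (3 + X1 + X2 + X3))))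
  refine ⟨B, X0, fun X Q hX hQ a ha => ?_⟩
  obtain ⟨hL1, hL2, hX3⟩ := hX0 X hX
  obtain ⟨L, hL⟩ : ∃ L : ℝ, L = Real.log X := ⟨_, rfl⟩
  have hmid' := fun Q1 Q => hmid X Q1 Q (by omega)
  have hsmall' := fun Q1 => hsmall X Q1 (by omega)
  have hpnt' := hpnt X (by omega)
  rw [← hL] at hL1 hL2 hQ hpnt' ⊢
  simp only [← hL] at hmid' hsmall'
  have hL01 : 1 ≤ L := by linarith
  have hL0 : 0 < L := by linarith
  have hXR : (0 : ℝ) < X := by
    have : 0 < X := by omega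
    exact_mod_cast this
  have hLe : ∀ n : ℕ, 1 ≤ L ^ n := fun n => one_le_pow₀ hL01
  have hsX : 0 ≤ Real.sqrt X := Real.sqrt_nonneg _
  have hsX2 : Real.sqrt X * Real.sqrt X = X := Real.mul_self_sqrt hXR.le
  have hsX1 : (1 : ℝ) ≤ Real.sqrt X := by
    rw [Real.one_le_sqrt]
    have : 1 ≤ X := by omega
    exact_mod_cast this
  rcases Nat.eq_zero_or_pos Q with hQ0 | hQ0
  · subst hQ0
    simp only [show Icc 1 0 = (∅ : Finset ℕ) from rfl, Finset.sum_empty]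
    positivity
  have hQs : (Q : ℝ) ≤ Real.sqrt X := by
    refine hQ.trans ?_
    exact div_le_self hsX (hLe B)
  have hQX : (Q : ℝ) ≤ X := by nlinarith
  have hQX' : Q ≤ X := by exact_mod_cast hQX
  have hQ1R : (1 : ℝ) ≤ Q := by exact_mod_cast hQ0
  have hlogQ : Real.log Q ≤ L := by
    rw [hL]
    exact Real.log_le_log (by linarith) hQX
  have hlogQ0 : 0 ≤ Real.log Q := Real.log_nonneg hQ1R
  have h4L : 3 * (1 + Real.log Q) ^ 2 ≤ 12 * L ^ 2 := by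
    have h1 : (1 + Real.log Q) ≤ 2 * L := by linarith
    have h2 : (1 + Real.log Q) ^ 2 ≤ (2 * L) ^ 2 := pow_le_pow_left₀ (by linarith) h1 2
    nlinarith
  -- the expansion
  obtain ⟨P, hP⟩ : ∃ P : ℝ, P = |∑ n ∈ Icc 1 X, ArithmeticFunction.vonMangoldt n - X| := ⟨_, rfl⟩
  have hP0 : 0 ≤ P := by rw [hP]; exact abs_nonneg _
  rw [← hP] at hpnt'
  obtain ⟨g, hg⟩ : ∃ g : ℕ → ℝ, g = fun r => ∑ χ ∈ prim r, ‖psi X χ‖ := ⟨_, rfl⟩
  have hg0 : ∀ r, 0 ≤ g r := fun r => by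
    rw [hg]; exact Finset.sum_nonneg fun _ _ => norm_nonneg _
  have hone : ∀ q ∈ Icc 1 Q, |Er X q (a q)| ≤ P * (1 / (Nat.totient q : ℝ)) +
      (1 / (Nat.totient q : ℝ)) * (∑ r ∈ q.divisors.filter (fun r => 2 ≤ r), g r) +
      4 * L ^ 2 := by
    intro q hq
    rw [Finset.mem_Icc] at hq
    have h1 := expand X q (a q) (by omega) hq.1 (by omega) (ha q)
    rw [← hP, ← hL] at h1
    have h2 := sort_cond q hq.1 (fun r χ => ‖psi X χ‖) (fun r χ => norm_nonneg _)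
    have h3 : (1 / (Nat.totient q : ℝ)) * (∑ χ ∈ nonpr q, ‖psi X χ.primitiveCharacter‖) ≤
        (1 / (Nat.totient q : ℝ)) * (∑ r ∈ q.divisors.filter (fun r => 2 ≤ r), g r) := by
      rw [hg]
      exact mul_le_mul_of_nonneg_left h2 (by positivity)
    rw [mul_add] at h1
    linarith
  refine (Finset.sum_le_sum hone).trans ?_
  rw [Finset.sum_add_distrib, Finset.sum_add_distrib, ← Finset.mul_sum, Finset.sum_const]
  have hts := tot_sum Q hQ0
  have htsort := tot_sort Q hQ0 g hg0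
  -- splitting the conductors
  obtain ⟨Q1, hQ1⟩ : ∃ Q1 : ℕ, Q1 = ⌈L ^ B⌉₊ := ⟨_, rfl⟩
  have hQ1low : L ^ B ≤ Q1 := by rw [hQ1]; exact Nat.le_ceil _
  have hQ1up : (Q1 : ℝ) ≤ L ^ (B + 1) := by
    have h1 : (Q1 : ℝ) < L ^ B + 1 := by
      rw [hQ1]; exact Nat.ceil_lt_add_one (by positivity)
    have h2 := hLe B
    have h3 : 2 * L ^ B ≤ L ^ (B + 1) := by
      rw [pow_succ]
      nlinarith
    linarith
  have hcond : ∑ r ∈ Icc 2 Q, (1 / (Nat.totient r : ℝ)) * g r ≤ 2 * (X / L ^ (A + 5)) := by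
    have h1 := hmid' Q1 Q hQ1low hQ
    have h2 := hsmall' Q1 hQ1up
    have h3 : ∑ r ∈ Icc 2 Q, (1 / (Nat.totient r : ℝ)) * g r ≤
        ∑ r ∈ Icc 2 Q1 ∪ Ioc Q1 Q, (1 / (Nat.totient r : ℝ)) * g r := by
      apply Finset.sum_le_sum_of_subset_of_nonneg
      · intro r hr
        simp only [Finset.mem_union, Finset.mem_Icc, Finset.mem_Ioc] at hr ⊢
        omega
      · intro r _ _
        have := hg0 r
        positivity
    have h4 : ∑ r ∈ Icc 2 Q1 ∪ Ioc Q1 Q, (1 / (Nat.totient r : ℝ)) * g r =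
        ∑ r ∈ Icc 2 Q1, (1 / (Nat.totient r : ℝ)) * g r +
        ∑ r ∈ Ioc Q1 Q, (1 / (Nat.totient r : ℝ)) * g r := by
      apply Finset.sum_union
      rw [Finset.disjoint_left]
      intro r hr hr'
      simp only [Finset.mem_Icc, Finset.mem_Ioc] at hr hr'
      omega
    rw [h4] at h3
    rw [hg] at h3 ⊢
    linarith
  have hXL : 0 ≤ X / L ^ (A + 5) := by positivity
  have k1 : P * ∑ i ∈ Icc 1 Q, 1 / (Nat.totient i : ℝ) ≤ (X / L ^ (A + 5)) * (12 * L ^ 2) := by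
    apply mul_le_mul hpnt' (hts.trans h4L) _ hXL
    exact Finset.sum_nonneg fun _ _ => by positivity
  have k2 : ∑ q ∈ Icc 1 Q, (1 / (Nat.totient q : ℝ)) *
      ∑ r ∈ q.divisors.filter (fun r => 2 ≤ r), g r ≤ 12 * L ^ 2 * (2 * (X / L ^ (A + 5))) := by
    refine htsort.trans ?_
    apply mul_le_mul h4L hcond _ (by positivity)
    exact Finset.sum_nonneg fun r _ => by have := hg0 r; positivity
  have k3 : ((Icc 1 Q).card • (4 * L ^ 2) : ℝ) ≤ X / L ^ A / 2 := by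
    rw [Nat.card_Icc, nsmul_eq_mul]
    have h1 : ((Q + 1 - 1 : ℕ) : ℝ) = Q := by norm_num
    rw [h1]
    have h2 : 8 * L ^ (A + 2) ≤ Real.sqrt X := by
      apply Real.le_sqrt_of_sq_le
      calc (8 * L ^ (A + 2)) ^ 2 = 64 * L ^ (2 * (A + 2)) := by ring
        _ ≤ X := hL2
    rw [le_div_iff₀ (by norm_num), le_div_iff₀ (by positivity)]
    calc (Q : ℝ) * (4 * L ^ 2) * 2 * L ^ A = Q * (8 * L ^ (A + 2)) := by ring
      _ ≤ Real.sqrt X * Real.sqrt X := mul_le_mul hQs h2 (by positivity) hsX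
      _ = X := hsX2
  have k4 : (X / L ^ (A + 5)) * (12 * L ^ 2) + 12 * L ^ 2 * (2 * (X / L ^ (A + 5))) ≤
      X / L ^ A / 2 := by
    have h1 : (X / L ^ (A + 5)) * (12 * L ^ 2) + 12 * L ^ 2 * (2 * (X / L ^ (A + 5))) =
        36 * (X / L ^ A) / L ^ 3 := by
      rw [pow_add L A 5]
      field_simp
      ring
    rw [h1, div_le_div_iff₀ (by positivity) (by norm_num)]
    have h2 : (72 : ℝ) ≤ L ^ 3 := by
      calc (72 : ℝ) ≤ L := hL1
        _ = L ^ 1 := (pow_one L).symm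
        _ ≤ L ^ 3 := pow_le_pow_right₀ hL01 (by norm_num)
    have h3 : 0 ≤ X / L ^ A := by positivity
    nlinarith
  linarith

end Pool.BV
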