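import Mathlib
import Pool.Agent.Lib.BV.BVFix

/-! BV-15: the Bombieri-Vinogradov theorem with the maximum over `y ≤ X`. -/

set_option autoImplicit false

open Finset

namespace Pool.BV

private theorem er_zero (q a : ℕ) : Er 0 q a = 0 := by
  unfold Er
  simp

private theorem er_mono {y1 y y2 : ℕ} (q a : ℕ) (h1 : y1 ≤ y) (h2 : y ≤ y2) :
    |Er y q a| ≤ |Er y1 q a| + |Er y2 q a| + ((y2 : ℝ) - y1) / (Nat.totient q : ℝ) := by
  have hmono : ∀ {u v : ℕ}, u ≤ v →
      ∑ n ∈ (Icc 1 u).filter (fun n => n ≡ a [MOD q]), ArithmeticFunction.vonMangoldt n ≤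
      ∑ n ∈ (Icc 1 v).filter (fun n => n ≡ a [MOD q]), ArithmeticFunction.vonMangoldt n := by
    intro u v huv
    refine Finset.sum_le_sum_of_subset_of_nonneg ?_ fun _ _ _ =>
      ArithmeticFunction.vonMangoldt_nonneg
    exact Finset.filter_subset_filter _ (Finset.Icc_subset_Icc_right huv)
  have a1 := hmono h1
  have a2 := hmono h2
  have h1' : (y1 : ℝ) ≤ y := by exact_mod_cast h1
  have h2' : (y : ℝ) ≤ y2 := by exact_mod_cast h2
  have b1 : (y1 : ℝ) / (Nat.totient q : ℝ) ≤ y / (Nat.totient q : ℝ) :=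
    div_le_div_of_nonneg_right h1' (Nat.cast_nonneg _)
  have b2 : (y : ℝ) / (Nat.totient q : ℝ) ≤ y2 / (Nat.totient q : ℝ) :=
    div_le_div_of_nonneg_right h2' (Nat.cast_nonneg _)
  rw [sub_div]
  unfold Er
  rw [abs_le]
  constructor
  · have c1 := neg_abs_le (∑ n ∈ (Icc 1 y1).filter (fun n => n ≡ a [MOD q]),
      ArithmeticFunction.vonMangoldt n - y1 / (Nat.totient q : ℝ))
    have c2 := abs_nonneg (∑ n ∈ (Icc 1 y2).filter (fun n => n ≡ a [MOD q]),
      ArithmeticFunction.vonMangoldt n - y2 / (Nat.totient q : ℝ))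
    linarith
  · have c1 := abs_nonneg (∑ n ∈ (Icc 1 y1).filter (fun n => n ≡ a [MOD q]),
      ArithmeticFunction.vonMangoldt n - y1 / (Nat.totient q : ℝ))
    have c2 := le_abs_self (∑ n ∈ (Icc 1 y2).filter (fun n => n ≡ a [MOD q]),
      ArithmeticFunction.vonMangoldt n - y2 / (Nat.totient q : ℝ))
    linarith

/-- comparison with a grid -/
private theorem er_grid (X M : ℕ) (hX : 0 < X) (hM : 0 < M) (y q a : ℕ) (hy : y ≤ X) :
    |Er y q a| ≤ 2 * ∑ j ∈ Icc 1 M, |Er (j * X / M) q a| +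
      ((X : ℝ) / M + 1) * (1 / (Nat.totient q : ℝ)) := by
  have hs0 : 0 ≤ ∑ j ∈ Icc 1 M, |Er (j * X / M) q a| := Finset.sum_nonneg fun _ _ => abs_nonneg _
  have hM' : (0 : ℝ) < M := by exact_mod_cast hM
  have hphi : 0 ≤ ((X : ℝ) / M + 1) * (1 / (Nat.totient q : ℝ)) := by positivity
  have hle : ∀ j, j ≤ M → |Er (j * X / M) q a| ≤ ∑ j ∈ Icc 1 M, |Er (j * X / M) q a| := by
    intro j hj
    rcases Nat.eq_zero_or_pos j with h0 | h0
    · rw [h0, Nat.zero_mul, Nat.zero_div, er_zero, abs_zero]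
      exact hs0
    · exact Finset.single_le_sum (f := fun j => |Er (j * X / M) q a|)
        (fun _ _ => abs_nonneg _) (Finset.mem_Icc.mpr ⟨h0, hj⟩)
  rcases Nat.lt_or_ge y X with hlt | hge
  · set j := y * M / X with hj
    have hj1 : j < M := by
      rw [hj, Nat.div_lt_iff_lt_mul hX]
      rw [Nat.mul_comm M X]
      exact Nat.mul_lt_mul_of_pos_right hlt hM
    have hy1 : j * X / M ≤ y := by
      apply Nat.div_le_of_le_mul
      rw [Nat.mul_comm M y]
      exact Nat.div_mul_le_self _ _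
    have hy2 : y ≤ (j + 1) * X / M := by
      rw [Nat.le_div_iff_mul_le hM]
      have := Nat.lt_div_mul_add hX (a := y * M)
      rw [← hj] at this
      have h3 : (j + 1) * X = j * X + X := by ring
      omega
    have h4 := er_mono q a hy1 hy2
    have h5 : (((j + 1) * X / M : ℕ) : ℝ) ≤ ((j : ℝ) + 1) * X / M := by
      refine Nat.cast_div_le.trans (le_of_eq ?_)
      push_cast
      ring
    have h6 : (j : ℝ) * X / M - 1 ≤ ((j * X / M : ℕ) : ℝ) := by
      have h7 : j * X < M * (j * X / M + 1) := Nat.lt_mul_div_succ _ hM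
      have h8 : (j : ℝ) * X < M * ((j * X / M : ℕ) + 1) := by exact_mod_cast h7
      rw [sub_le_iff_le_add, div_le_iff₀ hM']
      nlinarith
    have h7 : ((((j + 1) * X / M : ℕ) : ℝ) - ((j * X / M : ℕ) : ℝ)) / (Nat.totient q : ℝ) ≤
        ((X : ℝ) / M + 1) * (1 / (Nat.totient q : ℝ)) := by
      rw [mul_one_div]
      refine div_le_div_of_nonneg_right ?_ (Nat.cast_nonneg _)
      have h8 : ((j : ℝ) + 1) * X / M - (j : ℝ) * X / M = X / M := by ring
      linarith
    have h8 := hle j hj1.le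
    have h9 := hle (j + 1) hj1
    linarith
  · have hyX : y = M * X / M := by
      rw [Nat.mul_div_cancel_left _ hM]
      omega
    have h8 := hle M le_rfl
    rw [← hyX] at h8
    linarith

theorem bv_max (A : ℕ) : ∃ B X0 : ℕ, ∀ X Q : ℕ, X0 ≤ X →
    (Q : ℝ) ≤ Real.sqrt X / Real.log X ^ B → ∀ a y : ℕ → ℕ, (∀ q, (a q).Coprime q) →
    (∀ q, y q ≤ X) → ∑ q ∈ Icc 1 Q, |Er (y q) q (a q)| ≤ X / Real.log X ^ A := by
  obtain ⟨B', X0', hfix⟩ := bv_fix (2 * A + 5)
  have hev : ∀ᶠ X : ℕ in Filter.atTop, 16 * Real.log X ^ (2 * (A + 4)) ≤ X ∧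
      8 * 2 ^ (2 * A + 5) ≤ Real.log X ∧ (((X0' : ℝ) + 1) ^ 2 ≤ X) := by
    have h1 : ∀ᶠ x : ℝ in Filter.atTop, 16 * Real.log x ^ (2 * (A + 4)) ≤ x := by
      have h2 := (Real.isLittleO_pow_log_id_atTop (n := 2 * (A + 4))).bound
        (show (0 : ℝ) < 1 / 16 by norm_num)
      filter_upwards [h2, Filter.eventually_ge_atTop (0 : ℝ)] with x hx hx0
      rw [Real.norm_eq_abs, Real.norm_eq_abs, id, abs_of_nonneg hx0] at hx
      have h3 := le_abs_self (Real.log x ^ (2 * (A + 4)))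
      linarith
    have h3 := (Real.tendsto_log_atTop.comp tendsto_natCast_atTop_atTop).eventually_ge_atTop
      ((8 : ℝ) * 2 ^ (2 * A + 5))
    have h4 := tendsto_natCast_atTop_atTop (R := ℝ) |>.eventually h1
    have h5 := (tendsto_natCast_atTop_atTop (R := ℝ)).eventually_ge_atTop (((X0' : ℝ) + 1) ^ 2)
    filter_upwards [h3, h4, h5] with X a1 a2 a3
    exact ⟨a2, a1, a3⟩
  obtain ⟨X0, hX0⟩ := Filter.eventually_atTop.mp hev
  refine ⟨B' + A + 5, X0, fun X Q hX hQ a y ha hy => ?_⟩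
  obtain ⟨e1, e2, e3⟩ := hX0 X hX
  set L := Real.log X with hL
  have hpow : (32 : ℝ) ≤ 2 ^ (2 * A + 5) := by
    calc (32 : ℝ) = 2 ^ 5 := by norm_num
      _ ≤ 2 ^ (2 * A + 5) := pow_le_pow_right₀ (by norm_num) (by omega)
  have hL256 : (256 : ℝ) ≤ L := by linarith
  have hL1 : (1 : ℝ) ≤ L := by linarith
  have hL0 : (0 : ℝ) < L := by linarith
  have hLp : (1 : ℝ) ≤ L ^ (A + 4) := one_le_pow₀ hL1
  have hXr : (0 : ℝ) < X := by
    have : (0 : ℝ) < L ^ (2 * (A + 4)) := by positivity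
    linarith
  have hXpos : 0 < X := by exact_mod_cast hXr
  have hs1 : 4 * L ^ (A + 4) ≤ Real.sqrt X := by
    refine Real.le_sqrt_of_sq_le ?_
    calc (4 * L ^ (A + 4)) ^ 2 = 16 * L ^ (2 * (A + 4)) := by
          rw [mul_pow, ← pow_mul, mul_comm (A + 4) 2]
          norm_num
      _ ≤ X := e1
  have hs2 : (X0' : ℝ) + 1 ≤ Real.sqrt X := Real.le_sqrt_of_sq_le e3
  have hsX : Real.sqrt X * Real.sqrt X = X := Real.mul_self_sqrt hXr.le
  have hs0 : 0 < Real.sqrt X := Real.sqrt_pos.mpr hXr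
  set M : ℕ := ⌈L ^ (A + 4)⌉₊ with hM
  have hM1 : L ^ (A + 4) ≤ M := Nat.le_ceil _
  have hM2 : (M : ℝ) ≤ 2 * L ^ (A + 4) := by
    have := (Nat.ceil_lt_add_one (by positivity : (0 : ℝ) ≤ L ^ (A + 4))).le
    rw [← hM] at this
    linarith
  have hM0 : (0 : ℝ) < M := by linarith
  have hMpos : 0 < M := by exact_mod_cast hM0
  have hlogs : Real.log (Real.sqrt X) = L / 2 := by
    rw [Real.log_sqrt hXr.le]
  -- the grid
  have hgrid : ∀ j ∈ Icc 1 M, ∑ q ∈ Icc 1 Q, |Er (j * X / M) q (a q)| ≤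
      2 ^ (2 * A + 5) * (X / L ^ (2 * A + 5)) := by
    intro j hj
    obtain ⟨hj1, hj2⟩ := Finset.mem_Icc.mp hj
    have hj1' : (1 : ℝ) ≤ j := by exact_mod_cast hj1
    set z := j * X / M with hz
    have hzX : z ≤ X := by
      rw [hz]
      apply Nat.div_le_of_le_mul
      exact Nat.mul_le_mul_right X hj2
    have hz1 : (X : ℝ) / (2 * M) ≤ z := by
      have h7 : j * X < M * (j * X / M + 1) := Nat.lt_mul_div_succ _ hMpos
      have h8 : (j : ℝ) * X < M * ((z : ℝ) + 1) := by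
        rw [hz]
        exact_mod_cast h7
      have h9 : (2 * M : ℝ) ≤ X := by
        have : (2 * M : ℝ) ≤ Real.sqrt X := by linarith
        nlinarith [this, hs0, hsX, (by linarith : (1 : ℝ) ≤ Real.sqrt X)]
      rw [div_le_iff₀ (by positivity)]
      nlinarith
    have hz2 : Real.sqrt X ≤ z := by
      refine le_trans ?_ hz1
      rw [le_div_iff₀ (by positivity)]
      calc Real.sqrt X * (2 * M) ≤ Real.sqrt X * Real.sqrt X := by
            refine mul_le_mul_of_nonneg_left ?_ hs0.le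
            linarith
        _ = X := hsX
    have hz0 : (0 : ℝ) < z := hs0.trans_le hz2
    have hlz1 : L / 2 ≤ Real.log z := by
      rw [← hlogs]
      exact Real.log_le_log hs0 hz2
    have hlz2 : Real.log z ≤ L := Real.log_le_log hz0 (by exact_mod_cast hzX)
    have hlz0 : 0 < Real.log z := by linarith
    have hzX0 : X0' ≤ z := by
      have : (X0' : ℝ) ≤ z := by linarith
      exact_mod_cast this
    have hsz : Real.sqrt X / (2 * L ^ (A + 4)) ≤ Real.sqrt z := by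
      refine Real.le_sqrt_of_sq_le ?_
      refine le_trans ?_ hz1
      rw [div_pow, Real.sq_sqrt hXr.le]
      refine div_le_div_of_nonneg_left hXr.le (by positivity) ?_
      have : (2 * L ^ (A + 4)) ^ 2 = 4 * (L ^ (A + 4) * L ^ (A + 4)) := by ring
      rw [this]
      nlinarith [mul_le_mul_of_nonneg_left hLp (by positivity : (0 : ℝ) ≤ L ^ (A + 4))]
    have hQz : (Q : ℝ) ≤ Real.sqrt z / Real.log z ^ B' := by
      refine hQ.trans ?_
      have h1 : Real.sqrt X / L ^ (B' + A + 5) ≤ (Real.sqrt X / (2 * L ^ (A + 4))) / L ^ B' := by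
        rw [div_div]
        refine div_le_div_of_nonneg_left hs0.le (by positivity) ?_
        have : L ^ (B' + A + 5) = L ^ B' * L ^ (A + 4) * L := by ring
        rw [this]
        have h2 : 0 < L ^ B' * L ^ (A + 4) := by positivity
        nlinarith
      refine h1.trans ?_
      refine div_le_div₀ (Real.sqrt_nonneg _) hsz (by positivity) ?_
      exact pow_le_pow_left₀ hlz0.le hlz2 _
    refine (hfix z Q hzX0 hQz a ha).trans ?_
    have h3 : (z : ℝ) / Real.log z ^ (2 * A + 5) ≤ X / (L / 2) ^ (2 * A + 5) := by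
      refine div_le_div₀ hXr.le (by exact_mod_cast hzX) (by positivity) ?_
      exact pow_le_pow_left₀ (by positivity) hlz1 _
    refine h3.trans (le_of_eq ?_)
    rw [div_pow]
    field_simp
  -- the sum over `q`
  rcases Nat.eq_zero_or_pos Q with hQ0 | hQ0
  · rw [hQ0]
    simp only [Finset.Icc_eq_empty_of_lt Nat.zero_lt_one, Finset.sum_empty]
    positivity
  have hQ1 : (1 : ℝ) ≤ Q := by exact_mod_cast hQ0
  have hQX : (Q : ℝ) ≤ X := by
    refine hQ.trans ?_
    rw [div_le_iff₀ (by positivity)]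
    have h1 : (1 : ℝ) ≤ L ^ (B' + A + 5) := one_le_pow₀ hL1
    have h2 : Real.sqrt X ≤ X := by nlinarith [hs0, hsX, (by linarith : (1 : ℝ) ≤ Real.sqrt X)]
    nlinarith
  have hlogQ : Real.log Q ≤ L := Real.log_le_log (by linarith) hQX
  have hlogQ0 : 0 ≤ Real.log Q := Real.log_nonneg hQ1
  have htot := tot_sum Q hQ0
  have hmain : ∑ q ∈ Icc 1 Q, |Er (y q) q (a q)| ≤
      2 * (M * (2 ^ (2 * A + 5) * (X / L ^ (2 * A + 5)))) +
        ((X : ℝ) / M + 1) * (3 * (1 + Real.log Q) ^ 2) := by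
    calc ∑ q ∈ Icc 1 Q, |Er (y q) q (a q)|
        ≤ ∑ q ∈ Icc 1 Q, (2 * ∑ j ∈ Icc 1 M, |Er (j * X / M) q (a q)| +
          ((X : ℝ) / M + 1) * (1 / (Nat.totient q : ℝ))) :=
          Finset.sum_le_sum fun q _ => er_grid X M hXpos hMpos (y q) q (a q) (hy q)
      _ = 2 * ∑ j ∈ Icc 1 M, ∑ q ∈ Icc 1 Q, |Er (j * X / M) q (a q)| +
          ((X : ℝ) / M + 1) * ∑ q ∈ Icc 1 Q, 1 / (Nat.totient q : ℝ) := by
          rw [Finset.sum_add_distrib, ← Finset.mul_sum, ← Finset.mul_sum, Finset.sum_comm]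
      _ ≤ 2 * ∑ j ∈ Icc 1 M, (2 ^ (2 * A + 5) * (X / L ^ (2 * A + 5))) +
          ((X : ℝ) / M + 1) * (3 * (1 + Real.log Q) ^ 2) := by
          have h1 := Finset.sum_le_sum hgrid
          have h2 := mul_le_mul_of_nonneg_left htot (by positivity : (0 : ℝ) ≤ (X : ℝ) / M + 1)
          linarith
      _ = _ := by
          rw [Finset.sum_const, Nat.card_Icc, nsmul_eq_mul]
          simp
  refine hmain.trans ?_
  have hb1 : 2 * (M * (2 ^ (2 * A + 5) * (X / L ^ (2 * A + 5)))) ≤ X / L ^ A / 2 := by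
    have h1 : 2 * (M * (2 ^ (2 * A + 5) * (X / L ^ (2 * A + 5)))) ≤
        2 * (2 * L ^ (A + 4) * (2 ^ (2 * A + 5) * (X / L ^ (2 * A + 5)))) := by
      have : (0 : ℝ) ≤ 2 ^ (2 * A + 5) * (X / L ^ (2 * A + 5)) := by positivity
      nlinarith
    refine h1.trans ?_
    have h2 : 2 * (2 * L ^ (A + 4) * (2 ^ (2 * A + 5) * (X / L ^ (2 * A + 5)))) =
        (8 * 2 ^ (2 * A + 5)) * (X / L ^ A / 2 / L) := by
      have : L ^ (2 * A + 5) = L ^ (A + 4) * L ^ A * L := by ring
      rw [this]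
      field_simp
      ring
    rw [h2]
    calc (8 * 2 ^ (2 * A + 5)) * (X / L ^ A / 2 / L) ≤ L * (X / L ^ A / 2 / L) :=
          mul_le_mul_of_nonneg_right e2 (by positivity)
      _ = X / L ^ A / 2 := by field_simp
  have hb2 : ((X : ℝ) / M + 1) * (3 * (1 + Real.log Q) ^ 2) ≤ X / L ^ A / 2 := by
    have h1 : (X : ℝ) / M ≤ X / L ^ (A + 4) :=
      div_le_div_of_nonneg_left hXr.le (by positivity) hM1
    have h2 : (1 : ℝ) ≤ X / L ^ (A + 4) := by
      rw [le_div_iff₀ (by positivity), one_mul]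
      nlinarith
    have h3 : 3 * (1 + Real.log Q) ^ 2 ≤ 12 * L ^ 2 := by nlinarith
    calc ((X : ℝ) / M + 1) * (3 * (1 + Real.log Q) ^ 2)
        ≤ (2 * (X / L ^ (A + 4))) * (12 * L ^ 2) :=
          mul_le_mul (by linarith) h3 (by positivity) (by positivity)
      _ = 48 * (X / L ^ A / 2 / L ^ 2) := by
          have : L ^ (A + 4) = L ^ A * L ^ 2 * L ^ 2 := by ring
          rw [this]
          field_simp
          ring
      _ ≤ L ^ 2 * (X / L ^ A / 2 / L ^ 2) :=
          mul_le_mul_of_nonneg_right (by nlinarith) (by positivity)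
      _ = X / L ^ A / 2 := by field_simp
  linarith

end Pool.BV
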