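import Mathlib
import Pool.Agent.Lib.BV.BVMax

/-! BV-16: the Bombieri-Vinogradov theorem for primes. -/

set_option autoImplicit false

open Finset

namespace Pool.BV

/-- the contribution of the proper prime powers -/
private theorem bt_diff (y q a : ℕ) : |Er y q a - Et y q a| ≤ 2 * Real.sqrt y * Real.log y := by
  rcases Nat.eq_zero_or_pos y with hy | hy
  · subst hy
    simp [Er, Et]
  have h1 : Er y q a - Et y q a = ∑ n ∈ Icc 1 y,
      if n ≡ a [MOD q] ∧ ¬ n.Prime then ArithmeticFunction.vonMangoldt n else 0 := by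
    unfold Er Et
    rw [Finset.sum_filter, Finset.sum_filter, sub_sub_sub_cancel_right, ← Finset.sum_sub_distrib]
    refine Finset.sum_congr rfl fun n _ => ?_
    by_cases hn : n.Prime
    · by_cases ha : n ≡ a [MOD q]
      · rw [if_pos ha, if_pos ⟨hn, ha⟩, if_neg (fun h => h.2 hn),
          ArithmeticFunction.vonMangoldt_apply_prime hn, sub_self]
      · rw [if_neg ha, if_neg (fun h => ha h.2), if_neg (fun h => ha h.1), sub_self]
    · by_cases ha : n ≡ a [MOD q]
      · rw [if_pos ha, if_neg (fun h => hn h.1), if_pos ⟨ha, hn⟩, sub_zero]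
      · rw [if_neg ha, if_neg (fun h => ha h.2), if_neg (fun h => ha h.1), sub_self]
  have h0 : 0 ≤ Er y q a - Et y q a := by
    rw [h1]
    refine Finset.sum_nonneg fun n _ => ?_
    split_ifs
    · exact ArithmeticFunction.vonMangoldt_nonneg
    · exact le_refl _
  rw [abs_of_nonneg h0, h1]
  have h2 := Chebyshev.psi_sub_theta_le (x := (y : ℝ)) (by exact_mod_cast hy)
  rw [Chebyshev.psi_sub_theta_eq_sum_not_prime, Nat.floor_natCast, Finset.sum_filter] at h2
  refine le_trans ?_ h2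
  have e : Icc 1 y = Ioc 0 y := by
    ext n
    simp only [mem_Icc, mem_Ioc]
    omega
  rw [e]
  refine Finset.sum_le_sum fun n _ => ?_
  by_cases hn : n.Prime
  · rw [if_neg (fun h => h.2 hn), if_neg (fun h => h hn)]
  · rw [if_pos hn]
    split_ifs
    · exact le_refl _
    · exact ArithmeticFunction.vonMangoldt_nonneg

private theorem bt_log_ge (T : ℝ) : ∃ X0 : ℕ, ∀ X : ℕ, X0 ≤ X → T ≤ Real.log X := by
  refine ⟨⌈Real.exp T⌉₊, fun X hX => ?_⟩
  have h1 : Real.exp T ≤ X := (Nat.le_ceil _).trans (by exact_mod_cast hX)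
  rw [Real.le_log_iff_exp_le ((Real.exp_pos T).trans_le h1)]
  exact h1

private theorem bt_Q_mono {X Q B B' : ℕ} (hL : 1 ≤ Real.log X) (hB : B' ≤ B)
    (hQ : (Q : ℝ) ≤ Real.sqrt X / Real.log X ^ B) : (Q : ℝ) ≤ Real.sqrt X / Real.log X ^ B' :=
  hQ.trans (div_le_div_of_nonneg_left (Real.sqrt_nonneg _) (by positivity)
    (pow_le_pow_right₀ hL hB))

theorem bv_theta (A : ℕ) : ∃ B X0 : ℕ, ∀ X Q : ℕ, X0 ≤ X →
    (Q : ℝ) ≤ Real.sqrt X / Real.log X ^ B → ∀ a y : ℕ → ℕ, (∀ q, (a q).Coprime q) →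
    (∀ q, y q ≤ X) → ∑ q ∈ Icc 1 Q, |Et (y q) q (a q)| ≤ X / Real.log X ^ A := by
  obtain ⟨B', X1, h⟩ := bv_max (A + 1)
  obtain ⟨X2, hX2⟩ := bt_log_ge 4
  refine ⟨max B' (A + 2), max X1 X2, fun X Q hX hQ a y ha hy => ?_⟩
  obtain ⟨L, hLdef⟩ : ∃ L : ℝ, L = Real.log X := ⟨_, rfl⟩
  have hL4 : 4 ≤ L := by rw [hLdef]; exact hX2 X ((le_max_right _ _).trans hX)
  have hL1 : 1 ≤ Real.log X := by rw [← hLdef]; linarith
  have h1 := h X Q ((le_max_left _ _).trans hX) (bt_Q_mono hL1 (le_max_left _ _) hQ) a y ha hy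
  have hQ2 := bt_Q_mono (B' := A + 2) hL1 (le_max_right _ _) hQ
  rw [← hLdef] at h1 hQ2 ⊢
  have hL0 : 0 < L := by linarith
  have hX0 : (0 : ℝ) ≤ X := Nat.cast_nonneg _
  have h2 : ∀ q ∈ Icc 1 Q, |Et (y q) q (a q)| ≤ |Er (y q) q (a q)| + 2 * Real.sqrt X * L := by
    intro q _
    have e1 := bt_diff (y q) q (a q)
    have e2 : 2 * Real.sqrt (y q) * Real.log (y q) ≤ 2 * Real.sqrt X * L := by
      have hyX : ((y q : ℕ) : ℝ) ≤ X := by exact_mod_cast hy q
      rcases Nat.eq_zero_or_pos (y q) with h0 | h0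
      · rw [h0]
        simp only [Nat.cast_zero, Real.sqrt_zero, mul_zero, zero_mul]
        positivity
      · have h0' : (0 : ℝ) < (y q : ℕ) := by exact_mod_cast h0
        have l1 : Real.log (y q) ≤ L := by rw [hLdef]; exact Real.log_le_log h0' hyX
        have l0 : 0 ≤ Real.log (y q) := Real.log_natCast_nonneg _
        have s1 : Real.sqrt (y q) ≤ Real.sqrt X := Real.sqrt_le_sqrt hyX
        have s0 := Real.sqrt_nonneg ((y q : ℕ) : ℝ)
        calc 2 * Real.sqrt (y q) * Real.log (y q) ≤ 2 * Real.sqrt X * Real.log (y q) :=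
              mul_le_mul_of_nonneg_right (by linarith) l0
          _ ≤ 2 * Real.sqrt X * L := mul_le_mul_of_nonneg_left l1 (by positivity)
    have e3 : |Et (y q) q (a q)| ≤ |Er (y q) q (a q)| + |Er (y q) q (a q) - Et (y q) q (a q)| := by
      have := abs_sub_abs_le_abs_sub (Et (y q) q (a q)) (Er (y q) q (a q))
      rw [abs_sub_comm] at this
      linarith
    linarith
  have h3 := Finset.sum_le_sum h2
  rw [Finset.sum_add_distrib, Finset.sum_const, Nat.card_Icc, Nat.add_sub_cancel, nsmul_eq_mul] at h3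
  have h4 : (Q : ℝ) * (2 * Real.sqrt X * L) ≤ 2 * X / L ^ (A + 1) := by
    calc (Q : ℝ) * (2 * Real.sqrt X * L) ≤ Real.sqrt X / L ^ (A + 2) * (2 * Real.sqrt X * L) :=
          mul_le_mul_of_nonneg_right hQ2 (by positivity)
      _ = 2 * (Real.sqrt X * Real.sqrt X) / L ^ (A + 1) := by
          rw [pow_succ L (A + 1)]
          field_simp
      _ = 2 * X / L ^ (A + 1) := by rw [Real.mul_self_sqrt hX0]
  have h5 : X / L ^ (A + 1) + 2 * X / L ^ (A + 1) ≤ X / L ^ A := by
    rw [← add_div, div_le_div_iff₀ (by positivity) (by positivity), pow_succ]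
    have : (0 : ℝ) ≤ X * L ^ A := by positivity
    nlinarith
  linarith

/-- the jumps of `1 / log` -/
private noncomputable def bt_del (n : ℕ) : ℝ := 1 / Real.log n - 1 / Real.log (n + 1 : ℕ)

private theorem bt_del_nonneg (n : ℕ) (hn : 2 ≤ n) : 0 ≤ bt_del n := by
  unfold bt_del
  have h1 : 0 < Real.log n := Real.log_pos (by exact_mod_cast (by omega : 1 < n))
  have h2 : Real.log n ≤ Real.log (n + 1 : ℕ) := by
    apply Real.log_le_log (by exact_mod_cast (by omega : 0 < n))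
    push_cast
    linarith
  have := one_div_le_one_div_of_le h1 h2
  linarith

private theorem bt_del_sum (X : ℕ) (hX : 2 ≤ X) : ∑ n ∈ Ico 2 X, bt_del n ≤ 2 := by
  have h1 : ∑ n ∈ Ico 2 X, bt_del n = 1 / Real.log 2 - 1 / Real.log X := by
    induction X, hX using Nat.le_induction with
    | base => simp
    | succ X hX ih =>
      rw [Finset.sum_Ico_succ_top hX, ih]
      unfold bt_del
      ring
  have h2 : 0 ≤ 1 / Real.log X := by
    have := Real.log_natCast_nonneg X
    positivity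
  have h3 : 1 / Real.log 2 ≤ 2 := by
    rw [div_le_iff₀ (Real.log_pos (by norm_num))]
    have := Real.log_two_gt_d9
    linarith
  rw [h1]
  linarith

private theorem bt_abel (f g : ℕ → ℝ) (h0 : f 1 = 0) (y : ℕ) (hy : 2 ≤ y) :
    ∑ n ∈ Icc 1 y, f n * g n = (∑ n ∈ Icc 1 y, f n) * g y +
      ∑ n ∈ Ico 2 y, (g n - g (n + 1)) * ∑ m ∈ Icc 1 n, f m := by
  induction y, hy using Nat.le_induction with
  | base =>
    have e : Icc 1 2 = ({1, 2} : Finset ℕ) := by decide
    rw [e, Finset.sum_pair (by norm_num), Finset.sum_pair (by norm_num), h0]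
    simp
  | succ y hy ih =>
    rw [Finset.sum_Icc_succ_top (by omega), Finset.sum_Icc_succ_top (by omega) f, ih,
      Finset.sum_Ico_succ_top hy]
    ring

/-- weights -/
private noncomputable def bt_f (q a n : ℕ) : ℝ :=
  if n.Prime ∧ n ≡ a [MOD q] then Real.log n else 0

private theorem bt_sum_f (q a y : ℕ) :
    ∑ n ∈ Icc 1 y, bt_f q a n = Et y q a + y / (Nat.totient q : ℝ) := by
  unfold bt_f Et
  rw [Finset.sum_filter]
  ring

private theorem bt_card (q a y : ℕ) (hy : 2 ≤ y) :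
    (((Icc 1 y).filter (fun n => n.Prime ∧ n ≡ a [MOD q])).card : ℝ) =
      (Et y q a + y / (Nat.totient q : ℝ)) * (1 / Real.log y) +
      ∑ n ∈ Ico 2 y, bt_del n * (Et n q a + n / (Nat.totient q : ℝ)) := by
  have h1 := bt_abel (bt_f q a) (fun n => 1 / Real.log n) (by
    unfold bt_f
    rw [if_neg (fun h => Nat.not_prime_one h.1)]) y hy
  have h2 : (((Icc 1 y).filter (fun n => n.Prime ∧ n ≡ a [MOD q])).card : ℝ) =
      ∑ n ∈ Icc 1 y, bt_f q a n * (1 / Real.log n) := by
    rw [Finset.card_eq_sum_ones, Finset.sum_filter]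
    push_cast
    refine Finset.sum_congr rfl fun n _ => ?_
    unfold bt_f
    by_cases h : n.Prime ∧ n ≡ a [MOD q]
    · rw [if_pos h, if_pos h]
      have : Real.log n ≠ 0 := (Real.log_pos (by exact_mod_cast h.1.one_lt)).ne'
      field_simp
    · rw [if_neg h, if_neg h, zero_mul]
  rw [h2, h1, bt_sum_f]
  congr 1
  refine Finset.sum_congr rfl fun n _ => ?_
  rw [bt_sum_f]
  rfl

private theorem bt_Ep (q a y : ℕ) (hy : 2 ≤ y) :
    Ep y q a = (Et y q a - Et y 1 1 / (Nat.totient q : ℝ)) * (1 / Real.log y) +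
      ∑ n ∈ Ico 2 y, bt_del n * (Et n q a - Et n 1 1 / (Nat.totient q : ℝ)) := by
  have h1 := bt_card q a y hy
  have h2 := bt_card 1 1 y hy
  have e : (Icc 1 y).filter (fun n => n.Prime ∧ n ≡ 1 [MOD 1]) =
      (Icc 1 y).filter (fun n => n.Prime) := by
    refine Finset.filter_congr fun n _ => ?_
    exact ⟨fun h => h.1, fun h => ⟨h, Nat.modEq_one⟩⟩
  rw [e] at h2
  unfold Ep
  rw [h1, h2, Nat.totient_one]
  push_cast
  rw [add_div, Finset.sum_div, add_sub_add_comm, ← Finset.sum_sub_distrib]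
  congr 1
  · ring
  · refine Finset.sum_congr rfl fun n _ => ?_
    ring

private theorem bt_Ep_le (q a y X : ℕ) (hyX : y ≤ X) :
    |Ep y q a| ≤ 2 * (|Et y q a| + |Et y 1 1| * (1 / (Nat.totient q : ℝ))) +
      ∑ n ∈ Ico 2 X, bt_del n * (|Et n q a| + |Et n 1 1| * (1 / (Nat.totient q : ℝ))) := by
  have hφ : (0 : ℝ) ≤ 1 / (Nat.totient q : ℝ) := by positivity
  have hnn : ∀ n, 0 ≤ |Et n q a| + |Et n 1 1| * (1 / (Nat.totient q : ℝ)) := fun n => by
    positivity
  have habs : ∀ n, |Et n q a - Et n 1 1 / (Nat.totient q : ℝ)| ≤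
      |Et n q a| + |Et n 1 1| * (1 / (Nat.totient q : ℝ)) := by
    intro n
    refine (abs_sub _ _).trans ?_
    rw [abs_div, Nat.abs_cast, div_eq_mul_one_div |Et n 1 1|]
  rcases Nat.lt_or_ge y 2 with hy | hy
  · have h0 : Ep y q a = 0 := by
      have e1 : (Icc 1 y).filter (fun n => n.Prime ∧ n ≡ a [MOD q]) = ∅ := by
        refine Finset.filter_eq_empty_iff.2 fun n hn h => ?_
        have := h.1.two_le
        rw [mem_Icc] at hn
        omega
      have e2 : (Icc 1 y).filter (fun n => n.Prime) = ∅ := by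
        refine Finset.filter_eq_empty_iff.2 fun n hn h => ?_
        have := h.two_le
        rw [mem_Icc] at hn
        omega
      unfold Ep
      rw [e1, e2]
      simp
    rw [h0, abs_zero]
    have h1 : 0 ≤ ∑ n ∈ Ico 2 X, bt_del n *
        (|Et n q a| + |Et n 1 1| * (1 / (Nat.totient q : ℝ))) :=
      Finset.sum_nonneg fun n hn => mul_nonneg (bt_del_nonneg n (mem_Ico.1 hn).1) (hnn n)
    have h2 := hnn y
    linarith
  · rw [bt_Ep q a y hy]
    have hlog : 1 / Real.log y ≤ 2 := by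
      have h1 : Real.log 2 ≤ Real.log y := Real.log_le_log (by norm_num) (by exact_mod_cast hy)
      have h2 := Real.log_two_gt_d9
      rw [div_le_iff₀ (by linarith)]
      linarith
    have hlog0 : 0 ≤ 1 / Real.log y := by
      have := Real.log_natCast_nonneg y
      positivity
    refine (abs_add_le _ _).trans (add_le_add ?_ ?_)
    · rw [abs_mul, abs_of_nonneg hlog0, mul_comm]
      exact mul_le_mul hlog (habs y) (abs_nonneg _) (by norm_num)
    · refine (Finset.abs_sum_le_sum_abs _ _).trans ?_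
      calc ∑ n ∈ Ico 2 y, |bt_del n * (Et n q a - Et n 1 1 / (Nat.totient q : ℝ))|
          ≤ ∑ n ∈ Ico 2 y, bt_del n * (|Et n q a| + |Et n 1 1| * (1 / (Nat.totient q : ℝ))) := by
            refine Finset.sum_le_sum fun n hn => ?_
            have hd := bt_del_nonneg n (mem_Ico.1 hn).1
            rw [abs_mul, abs_of_nonneg hd]
            exact mul_le_mul_of_nonneg_left (habs n) hd
        _ ≤ _ := by
            refine Finset.sum_le_sum_of_subset_of_nonneg ?_ fun n hn _ =>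
              mul_nonneg (bt_del_nonneg n (mem_Ico.1 hn).1) (hnn n)
            intro n hn
            rw [mem_Ico] at hn ⊢
            omega

theorem bv_pi (A : ℕ) : ∃ B X0 : ℕ, ∀ X Q : ℕ, X0 ≤ X →
    (Q : ℝ) ≤ Real.sqrt X / Real.log X ^ B → ∀ a y : ℕ → ℕ, (∀ q, (a q).Coprime q) →
    (∀ q, y q ≤ X) → ∑ q ∈ Icc 1 Q, |Ep (y q) q (a q)| ≤ X / Real.log X ^ A := by
  obtain ⟨B, X1, h⟩ := bv_theta (A + 3)
  obtain ⟨X2, hX2⟩ := bt_log_ge 52
  refine ⟨B, max X1 X2, fun X Q hX hQ a y ha hy => ?_⟩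
  obtain ⟨L, hLdef⟩ : ∃ L : ℝ, L = Real.log X := ⟨_, rfl⟩
  have hL52 : 52 ≤ L := by rw [hLdef]; exact hX2 X ((le_max_right _ _).trans hX)
  have hL0 : 0 < L := by linarith
  have hXr : (1 : ℝ) < X := by
    by_contra hcon
    push Not at hcon
    have := Real.log_nonpos (Nat.cast_nonneg X) hcon
    linarith
  have hX2' : 2 ≤ X := by
    have : 1 < X := by exact_mod_cast hXr
    omega
  have hXpos : (0 : ℝ) < X := by linarith
  rcases Nat.eq_zero_or_pos Q with hQ0 | hQ0
  · subst hQ0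
    rw [Finset.Icc_eq_empty (by omega), Finset.sum_empty, ← hLdef]
    positivity
  obtain ⟨E, hE⟩ : ∃ E : ℝ, E = X / L ^ (A + 3) := ⟨_, rfl⟩
  have hE0 : 0 < E := by rw [hE]; positivity
  have hS : ∀ z : ℕ → ℕ, (∀ q, z q ≤ X) → ∑ q ∈ Icc 1 Q, |Et (z q) q (a q)| ≤ E := by
    intro z hz
    rw [hE, hLdef]
    exact h X Q ((le_max_left _ _).trans hX) hQ a z ha hz
  have hone : ∀ n : ℕ, n ≤ X → |Et n 1 1| ≤ E := by
    intro n hn
    have h1 := h X 1 ((le_max_left _ _).trans hX) (by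
      refine le_trans ?_ hQ
      exact_mod_cast hQ0) (fun _ => 1) (fun _ => n) (fun q => Nat.coprime_one_left q) (fun _ => hn)
    rw [Finset.Icc_self, Finset.sum_singleton] at h1
    rw [hE, hLdef]
    exact h1
  obtain ⟨T, hT⟩ : ∃ T : ℝ, T = ∑ q ∈ Icc 1 Q, 1 / (Nat.totient q : ℝ) := ⟨_, rfl⟩
  have hT0 : 0 ≤ T := by rw [hT]; exact Finset.sum_nonneg fun _ _ => by positivity
  have hTle : T ≤ 12 * L ^ 2 := by
    have h1 := tot_sum Q hQ0
    rw [← hT] at h1
    have hQX : (Q : ℝ) ≤ X := by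
      have e1 : Real.sqrt X / Real.log X ^ B ≤ Real.sqrt X := by
        apply div_le_self (Real.sqrt_nonneg _)
        apply one_le_pow₀
        rw [← hLdef]
        linarith
      have e2 : Real.sqrt X ≤ X := by
        rw [Real.sqrt_le_left hXpos.le]
        nlinarith
      linarith
    have h2 : Real.log Q ≤ L := by
      rw [hLdef]
      exact Real.log_le_log (by exact_mod_cast hQ0) hQX
    have h3 : 0 ≤ Real.log Q := Real.log_natCast_nonneg _
    have h4 : (1 + Real.log Q) ^ 2 ≤ (2 * L) ^ 2 :=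
      pow_le_pow_left₀ (by linarith) (by linarith) _
    calc T ≤ 3 * (1 + Real.log Q) ^ 2 := h1
      _ ≤ 3 * (2 * L) ^ 2 := by linarith
      _ = 12 * L ^ 2 := by ring
  have hblock : ∀ z : ℕ → ℕ, (∀ q, z q ≤ X) →
      ∑ q ∈ Icc 1 Q, (|Et (z q) q (a q)| + |Et (z q) 1 1| * (1 / (Nat.totient q : ℝ))) ≤
        E + E * T := by
    intro z hz
    rw [Finset.sum_add_distrib]
    refine add_le_add (hS z hz) ?_
    rw [hT, Finset.mul_sum]
    exact Finset.sum_le_sum fun q _ => mul_le_mul_of_nonneg_right (hone _ (hz q)) (by positivity)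
  have hmain : ∑ q ∈ Icc 1 Q, |Ep (y q) q (a q)| ≤ 4 * (E + E * T) := by
    calc ∑ q ∈ Icc 1 Q, |Ep (y q) q (a q)|
        ≤ ∑ q ∈ Icc 1 Q, (2 * (|Et (y q) q (a q)| + |Et (y q) 1 1| * (1 / (Nat.totient q : ℝ))) +
          ∑ n ∈ Ico 2 X, bt_del n *
            (|Et n q (a q)| + |Et n 1 1| * (1 / (Nat.totient q : ℝ)))) :=
          Finset.sum_le_sum fun q _ => bt_Ep_le q (a q) (y q) X (hy q)
      _ = 2 * ∑ q ∈ Icc 1 Q, (|Et (y q) q (a q)| + |Et (y q) 1 1| * (1 / (Nat.totient q : ℝ))) +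
          ∑ n ∈ Ico 2 X, bt_del n * ∑ q ∈ Icc 1 Q,
            (|Et n q (a q)| + |Et n 1 1| * (1 / (Nat.totient q : ℝ))) := by
          rw [Finset.sum_add_distrib, Finset.mul_sum, Finset.sum_comm]
          congr 1
          refine Finset.sum_congr rfl fun n _ => ?_
          rw [Finset.mul_sum]
      _ ≤ 2 * (E + E * T) + ∑ n ∈ Ico 2 X, bt_del n * (E + E * T) := by
          refine add_le_add (mul_le_mul_of_nonneg_left (hblock y hy) (by norm_num)) ?_
          refine Finset.sum_le_sum fun n hn => ?_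
          rw [mem_Ico] at hn
          exact mul_le_mul_of_nonneg_left (hblock (fun _ => n) (fun _ => hn.2.le))
            (bt_del_nonneg n hn.1)
      _ ≤ 4 * (E + E * T) := by
          rw [← Finset.sum_mul]
          have h1 := bt_del_sum X hX2'
          have h2 : 0 ≤ E + E * T := by positivity
          nlinarith
  refine hmain.trans ?_
  rw [← hLdef]
  have h1 : 4 * (E + E * T) ≤ 52 * E * L ^ 2 := by
    have h2 : E * T ≤ E * (12 * L ^ 2) := mul_le_mul_of_nonneg_left hTle hE0.le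
    have h3 : E ≤ E * L ^ 2 := by
      have : 1 ≤ L ^ 2 := one_le_pow₀ (by linarith)
      nlinarith
    linarith
  refine h1.trans ?_
  rw [hE, le_div_iff₀ (by positivity)]
  have e : 52 * (X / L ^ (A + 3)) * L ^ 2 * L ^ A = 52 * X / L := by
    rw [pow_add]
    field_simp
  rw [e, div_le_iff₀ hL0]
  nlinarith

end Pool.BV
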