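import Mathlib
import Pool.Agent.Lib.BV.BVTheta
import Pool.Agent.Lib.BV.DivMom

/-! BV-17: divisor function weights, for sieves. -/

set_option autoImplicit false

open Finset

namespace Pool.BV

private theorem bw_log_ge (T : ℝ) : ∃ X0 : ℕ, ∀ X : ℕ, X0 ≤ X → T ≤ Real.log X := by
  refine ⟨⌈Real.exp T⌉₊, fun X hX => ?_⟩
  have h1 : Real.exp T ≤ X := (Nat.le_ceil _).trans (by exact_mod_cast hX)
  rw [Real.le_log_iff_exp_le ((Real.exp_pos T).trans_le h1)]
  exact h1

private theorem bw_Q_mono {X Q B B' : ℕ} (hL : 1 ≤ Real.log X) (hB : B' ≤ B)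
    (hQ : (Q : ℝ) ≤ Real.sqrt X / Real.log X ^ B) : (Q : ℝ) ≤ Real.sqrt X / Real.log X ^ B' :=
  hQ.trans (div_le_div_of_nonneg_left (Real.sqrt_nonneg _) (by positivity)
    (pow_le_pow_right₀ hL hB))

/-- `q ≤ φ(q) τ(q)` -/
private theorem bw_tot (q : ℕ) (hq : 1 ≤ q) : q ≤ Nat.totient q * q.divisors.card := by
  calc q = ∑ d ∈ q.divisors, Nat.totient d := (Nat.sum_totient q).symm
    _ ≤ ∑ _d ∈ q.divisors, Nat.totient q := by
        refine Finset.sum_le_sum fun d hd => ?_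
        exact Nat.le_of_dvd (Nat.totient_pos.2 hq)
          (Nat.totient_dvd_of_dvd (Nat.dvd_of_mem_divisors hd))
    _ = Nat.totient q * q.divisors.card := by
        rw [Finset.sum_const, smul_eq_mul, mul_comm]

private theorem bw_inv_tot (q : ℕ) (hq : 1 ≤ q) :
    1 / (Nat.totient q : ℝ) ≤ (q.divisors.card : ℝ) / q := by
  have h1 : (0 : ℝ) < Nat.totient q := by exact_mod_cast Nat.totient_pos.2 hq
  have h2 : (0 : ℝ) < q := by exact_mod_cast hq
  rw [div_le_div_iff₀ h1 h2, one_mul, mul_comm]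
  exact_mod_cast bw_tot q hq

/-- number of elements of a residue class -/
private theorem bw_count (y q a : ℕ) (hq : 1 ≤ q) :
    (((Icc 1 y).filter (fun n => n ≡ a [MOD q])).card : ℝ) ≤ y / q + 1 := by
  have h1 : ((Icc 1 y).filter (fun n => n ≡ a [MOD q])).card ≤ y / q + 1 := by
    have hinj : Set.InjOn (fun n : ℕ => n / q) ((Icc 1 y).filter (fun n => n ≡ a [MOD q])) := by
      intro n hn m hm hnm
      rw [Finset.mem_coe, mem_filter] at hn hm
      have e1 := Nat.div_add_mod n q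
      have e2 := Nat.div_add_mod m q
      have e3 : n % q = m % q := hn.2.trans hm.2.symm
      simp only at hnm
      rw [← e1, ← e2, hnm, e3]
    calc ((Icc 1 y).filter (fun n => n ≡ a [MOD q])).card
        = (((Icc 1 y).filter (fun n => n ≡ a [MOD q])).image (fun n => n / q)).card :=
          (Finset.card_image_of_injOn hinj).symm
      _ ≤ (range (y / q + 1)).card := by
          refine Finset.card_le_card fun z hz => ?_
          rw [mem_image] at hz
          obtain ⟨n, hn, rfl⟩ := hz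
          rw [mem_filter, mem_Icc] at hn
          rw [mem_range]
          exact Nat.lt_succ_of_le (Nat.div_le_div_right hn.1.2)
      _ = y / q + 1 := card_range _
  calc (((Icc 1 y).filter (fun n => n ≡ a [MOD q])).card : ℝ) ≤ ((y / q + 1 : ℕ) : ℝ) := by
        exact_mod_cast h1
    _ ≤ y / q + 1 := by
        push_cast
        have := Nat.cast_div_le (α := ℝ) (m := y) (n := q)
        linarith

private theorem bw_triv (X y q a : ℕ) (hq : 1 ≤ q) (hqX : q ≤ X) (hy : y ≤ X)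
    (hL : 1 ≤ Real.log X) :
    |Et y q a| ≤ 3 * X * Real.log X * ((q.divisors.card : ℝ) / q) ∧
    |Ep y q a| ≤ 3 * X * Real.log X * ((q.divisors.card : ℝ) / q) := by
  obtain ⟨L, hLdef⟩ : ∃ L : ℝ, L = Real.log X := ⟨_, rfl⟩
  rw [← hLdef] at hL ⊢
  have hq0 : (0 : ℝ) < q := by exact_mod_cast hq
  have hqXr : (q : ℝ) ≤ X := by exact_mod_cast hqX
  have hyX : (y : ℝ) ≤ X := by exact_mod_cast hy
  have hX0 : (0 : ℝ) < X := by linarith
  have hτ1 : (1 : ℝ) ≤ q.divisors.card := by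
    have : 0 < q.divisors.card := Finset.card_pos.2 ⟨1, Nat.one_mem_divisors.2 (by omega)⟩
    exact_mod_cast this
  have hcount : (((Icc 1 y).filter (fun n => n.Prime ∧ n ≡ a [MOD q])).card : ℝ) ≤ 2 * X / q := by
    have h1 : ((Icc 1 y).filter (fun n => n.Prime ∧ n ≡ a [MOD q])).card ≤
        ((Icc 1 y).filter (fun n => n ≡ a [MOD q])).card := by
      refine Finset.card_le_card fun n hn => ?_
      rw [mem_filter] at hn ⊢
      exact ⟨hn.1, hn.2.2⟩
    have h2 := bw_count y q a hq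
    have h3 : (y : ℝ) / q + 1 ≤ 2 * X / q := by
      rw [div_add_one hq0.ne', div_le_div_iff_of_pos_right hq0]
      linarith
    calc (((Icc 1 y).filter (fun n => n.Prime ∧ n ≡ a [MOD q])).card : ℝ)
        ≤ (((Icc 1 y).filter (fun n => n ≡ a [MOD q])).card : ℝ) := by exact_mod_cast h1
      _ ≤ _ := h2.trans h3
  have hφ := bw_inv_tot q hq
  have hφ0 : (0 : ℝ) ≤ 1 / (Nat.totient q : ℝ) := by positivity
  have hmainle : 2 * X / q * L + X * ((q.divisors.card : ℝ) / q) ≤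
      3 * X * L * ((q.divisors.card : ℝ) / q) := by
    rw [div_mul_eq_mul_div, ← mul_div_assoc, ← mul_div_assoc, ← add_div,
      div_le_div_iff_of_pos_right hq0]
    have h1 : (X : ℝ) * L ≤ X * L * q.divisors.card := by
      have : 0 ≤ (X : ℝ) * L := by positivity
      nlinarith
    have h2 : (X : ℝ) * q.divisors.card ≤ X * L * q.divisors.card := by
      have : 0 ≤ (X : ℝ) * q.divisors.card := by positivity
      nlinarith
    nlinarith
  constructor
  · unfold Et
    have h1 : 0 ≤ ∑ p ∈ (Icc 1 y).filter (fun n => n.Prime ∧ n ≡ a [MOD q]), Real.log p :=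
      Finset.sum_nonneg fun p _ => Real.log_natCast_nonneg p
    have h2 : ∑ p ∈ (Icc 1 y).filter (fun n => n.Prime ∧ n ≡ a [MOD q]), Real.log p ≤
        2 * X / q * L := by
      calc ∑ p ∈ (Icc 1 y).filter (fun n => n.Prime ∧ n ≡ a [MOD q]), Real.log p
          ≤ ∑ _p ∈ (Icc 1 y).filter (fun n => n.Prime ∧ n ≡ a [MOD q]), L := by
            refine Finset.sum_le_sum fun p hp => ?_
            rw [mem_filter, mem_Icc] at hp
            rw [hLdef]
            apply Real.log_le_log (by exact_mod_cast hp.1.1)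
            have : (p : ℝ) ≤ y := by exact_mod_cast hp.1.2
            linarith
        _ = (((Icc 1 y).filter (fun n => n.Prime ∧ n ≡ a [MOD q])).card : ℝ) * L := by
            rw [Finset.sum_const, nsmul_eq_mul]
        _ ≤ 2 * X / q * L := mul_le_mul_of_nonneg_right hcount (by linarith)
    have h3 : (y : ℝ) / (Nat.totient q : ℝ) ≤ X * ((q.divisors.card : ℝ) / q) := by
      rw [div_eq_mul_one_div]
      exact mul_le_mul hyX hφ hφ0 hX0.le
    have h4 : 0 ≤ (y : ℝ) / (Nat.totient q : ℝ) := by positivity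
    refine le_trans ?_ hmainle
    rw [abs_le]
    constructor
    · have : 0 ≤ 2 * (X : ℝ) / q * L := by positivity
      linarith
    · have : 0 ≤ (X : ℝ) * ((q.divisors.card : ℝ) / q) := by positivity
      linarith
  · unfold Ep
    have h1 : (0 : ℝ) ≤ (((Icc 1 y).filter (fun n => n.Prime ∧ n ≡ a [MOD q])).card : ℝ) :=
      Nat.cast_nonneg _
    have h2 : (((Icc 1 y).filter (fun n => n.Prime ∧ n ≡ a [MOD q])).card : ℝ) ≤
        2 * X / q * L := by
      refine hcount.trans ?_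
      have : 0 ≤ 2 * (X : ℝ) / q := by positivity
      nlinarith
    have h3 : (((Icc 1 y).filter (fun n => n.Prime)).card : ℝ) / (Nat.totient q : ℝ) ≤
        X * ((q.divisors.card : ℝ) / q) := by
      rw [div_eq_mul_one_div]
      refine mul_le_mul ?_ hφ hφ0 hX0.le
      have h5 : ((Icc 1 y).filter (fun n => n.Prime)).card ≤ y := by
        calc ((Icc 1 y).filter (fun n => n.Prime)).card ≤ (Icc 1 y).card :=
              Finset.card_filter_le _ _
          _ = y := by simp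
      have h6 : (((Icc 1 y).filter (fun n => n.Prime)).card : ℝ) ≤ y := by exact_mod_cast h5
      linarith
    have h4 : 0 ≤ (((Icc 1 y).filter (fun n => n.Prime)).card : ℝ) / (Nat.totient q : ℝ) := by
      positivity
    refine le_trans ?_ hmainle
    rw [abs_le]
    constructor
    · have : 0 ≤ 2 * (X : ℝ) / q * L := by positivity
      linarith
    · have : 0 ≤ (X : ℝ) * ((q.divisors.card : ℝ) / q) := by positivity
      linarith

/-- Cauchy-Schwarz with the trivial bound -/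
private theorem bw_cs (A k C : ℕ) (X Q : ℕ) (e : ℕ → ℝ) (L : ℝ) (hL0 : 0 < L)
    (hL : 3 * 2 ^ C ≤ L)
    (htriv : ∀ q ∈ Icc 1 Q, |e q| ≤ 3 * X * L * ((q.divisors.card : ℝ) / q))
    (hdiv : ∑ q ∈ Icc 1 Q, (q.divisors.card : ℝ) ^ (2 * k + 1) / q ≤ (2 * L) ^ C)
    (hsum : ∑ q ∈ Icc 1 Q, |e q| ≤ X / L ^ (2 * A + C + 2)) :
    ∑ q ∈ Icc 1 Q, (q.divisors.card : ℝ) ^ k * |e q| ≤ X / L ^ A := by
  have hX0 : (0 : ℝ) ≤ X := Nat.cast_nonneg _
  obtain ⟨S, hS⟩ : ∃ S : ℝ, S = ∑ q ∈ Icc 1 Q, (q.divisors.card : ℝ) ^ k * |e q| := ⟨_, rfl⟩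
  rw [← hS]
  have hcs : S ^ 2 ≤ (∑ q ∈ Icc 1 Q, ((q.divisors.card : ℝ) ^ k) ^ 2 * |e q|) *
      ∑ q ∈ Icc 1 Q, |e q| := by
    have h1 := Finset.sum_mul_sq_le_sq_mul_sq (Icc 1 Q)
      (fun q => (q.divisors.card : ℝ) ^ k * Real.sqrt |e q|) (fun q => Real.sqrt |e q|)
    have e1 : ∀ q, (q.divisors.card : ℝ) ^ k * Real.sqrt |e q| * Real.sqrt |e q| =
        (q.divisors.card : ℝ) ^ k * |e q| := fun q => by
      rw [mul_assoc, Real.mul_self_sqrt (abs_nonneg _)]
    have e2 : ∀ q, ((q.divisors.card : ℝ) ^ k * Real.sqrt |e q|) ^ 2 =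
        ((q.divisors.card : ℝ) ^ k) ^ 2 * |e q| := fun q => by
      rw [mul_pow, Real.sq_sqrt (abs_nonneg _)]
    have e3 : ∀ q, Real.sqrt |e q| ^ 2 = |e q| := fun q => Real.sq_sqrt (abs_nonneg _)
    simp only [e1, e2, e3] at h1
    rw [hS]
    exact h1
  have h1 : ∑ q ∈ Icc 1 Q, ((q.divisors.card : ℝ) ^ k) ^ 2 * |e q| ≤
      3 * X * L * (2 * L) ^ C := by
    calc ∑ q ∈ Icc 1 Q, ((q.divisors.card : ℝ) ^ k) ^ 2 * |e q|
        ≤ ∑ q ∈ Icc 1 Q, 3 * X * L * ((q.divisors.card : ℝ) ^ (2 * k + 1) / q) := by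
          refine Finset.sum_le_sum fun q hq => ?_
          calc ((q.divisors.card : ℝ) ^ k) ^ 2 * |e q| ≤
                ((q.divisors.card : ℝ) ^ k) ^ 2 * (3 * X * L * ((q.divisors.card : ℝ) / q)) :=
                mul_le_mul_of_nonneg_left (htriv q hq) (by positivity)
            _ = 3 * X * L * ((q.divisors.card : ℝ) ^ (2 * k + 1) / q) := by
                rw [← pow_mul, pow_succ, mul_comm k 2]
                ring
      _ = 3 * X * L * ∑ q ∈ Icc 1 Q, (q.divisors.card : ℝ) ^ (2 * k + 1) / q := by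
          rw [Finset.mul_sum]
      _ ≤ _ := mul_le_mul_of_nonneg_left hdiv (by positivity)
  have h2 : S ^ 2 ≤ (X / L ^ A) ^ 2 := by
    have hE : 0 ≤ ∑ q ∈ Icc 1 Q, |e q| := Finset.sum_nonneg fun _ _ => abs_nonneg _
    calc S ^ 2 ≤ (3 * X * L * (2 * L) ^ C) * (X / L ^ (2 * A + C + 2)) :=
          hcs.trans (mul_le_mul h1 hsum hE (by positivity))
      _ = (3 * 2 ^ C / L) * (X / L ^ A) ^ 2 := by
          rw [mul_pow, div_pow, ← pow_mul, show 2 * A + C + 2 = A * 2 + (C + 2) by ring, pow_add,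
            pow_add]
          field_simp
      _ ≤ 1 * (X / L ^ A) ^ 2 := by
          refine mul_le_mul_of_nonneg_right ?_ (by positivity)
          rw [div_le_one hL0]
          exact hL
      _ = (X / L ^ A) ^ 2 := one_mul _
  exact le_of_sq_le_sq h2 (by positivity)

theorem bv_weight (A k : ℕ) : ∃ B X0 : ℕ, ∀ X Q : ℕ, X0 ≤ X →
    (Q : ℝ) ≤ Real.sqrt X / Real.log X ^ B → ∀ a y : ℕ → ℕ, (∀ q, (a q).Coprime q) →
    (∀ q, y q ≤ X) →
    ∑ q ∈ Icc 1 Q, (q.divisors.card : ℝ) ^ k * |Et (y q) q (a q)| ≤ X / Real.log X ^ A ∧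
    ∑ q ∈ Icc 1 Q, (q.divisors.card : ℝ) ^ k * |Ep (y q) q (a q)| ≤ X / Real.log X ^ A := by
  obtain ⟨C, hC⟩ := div_mom (2 * k + 1)
  obtain ⟨B1, X1, h1⟩ := bv_theta (2 * A + C + 2)
  obtain ⟨B2, X2, h2⟩ := bv_pi (2 * A + C + 2)
  obtain ⟨X3, hX3⟩ := bw_log_ge (3 * 2 ^ C)
  refine ⟨max B1 B2, max (max X1 X2) X3, fun X Q hX hQ a y ha hy => ?_⟩
  have hXa : X1 ≤ X := ((le_max_left _ _).trans (le_max_left _ _)).trans hX
  have hXb : X2 ≤ X := ((le_max_right _ _).trans (le_max_left _ _)).trans hX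
  have hXc : X3 ≤ X := (le_max_right _ _).trans hX
  obtain ⟨L, hLdef⟩ : ∃ L : ℝ, L = Real.log X := ⟨_, rfl⟩
  have hL3 : 3 * 2 ^ C ≤ L := by rw [hLdef]; exact hX3 X hXc
  have h2C : (1 : ℝ) ≤ 2 ^ C := one_le_pow₀ (by norm_num)
  have hL1 : 1 ≤ Real.log X := by rw [← hLdef]; linarith
  have hL0 : 0 < L := by linarith
  have hXr : (1 : ℝ) < X := by
    by_contra hcon
    push Not at hcon
    have := Real.log_nonpos (Nat.cast_nonneg X) hcon
    linarith
  have hXpos : (0 : ℝ) < X := by linarith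
  have hQX : (Q : ℝ) ≤ X := by
    have e1 : Real.sqrt X / Real.log X ^ max B1 B2 ≤ Real.sqrt X :=
      div_le_self (Real.sqrt_nonneg _) (one_le_pow₀ hL1)
    have e2 : Real.sqrt X ≤ X := by
      rw [Real.sqrt_le_left hXpos.le]
      nlinarith
    linarith
  have hQXn : Q ≤ X := by exact_mod_cast hQX
  have hdiv : ∑ q ∈ Icc 1 Q, (q.divisors.card : ℝ) ^ (2 * k + 1) / q ≤ (2 * L) ^ C := by
    rcases Nat.eq_zero_or_pos Q with hQ0 | hQ0
    · subst hQ0
      rw [Finset.Icc_eq_empty (by omega), Finset.sum_empty]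
      positivity
    · refine ((hC Q hQ0).2).trans ?_
      have e1 : Real.log Q ≤ L := by
        rw [hLdef]
        exact Real.log_le_log (by exact_mod_cast hQ0) hQX
      have e2 : 0 ≤ Real.log Q := Real.log_natCast_nonneg _
      exact pow_le_pow_left₀ (by linarith) (by linarith) _
  rw [← hLdef]
  constructor
  · refine bw_cs A k C X Q (fun q => Et (y q) q (a q)) L hL0 hL3 (fun q hq => ?_) hdiv ?_
    · rw [mem_Icc] at hq
      rw [hLdef]
      exact (bw_triv X (y q) q (a q) hq.1 (hq.2.trans hQXn) (hy q) hL1).1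
    · rw [hLdef]
      exact h1 X Q hXa (bw_Q_mono hL1 (le_max_left _ _) hQ) a y ha hy
  · refine bw_cs A k C X Q (fun q => Ep (y q) q (a q)) L hL0 hL3 (fun q hq => ?_) hdiv ?_
    · rw [mem_Icc] at hq
      rw [hLdef]
      exact (bw_triv X (y q) q (a q) hq.1 (hq.2.trans hQXn) (hy q) hL1).2
    · rw [hLdef]
      exact h2 X Q hXb (bw_Q_mono hL1 (le_max_right _ _) hQ) a y ha hy

end Pool.BV
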